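import Mathlib

/-!
# Hyperplane sections of the unit ball in Lorentzian coordinates

A hyperplane section of the closed unit ball of `E` is written `sec v`, where `v : E × ℝ` is a
spacelike vector for the Lorentz form `bet`.
-/

namespace Pool.Agent.R767.SG

open Metric

variable {E : Type*} [NormedAddCommGroup E] [InnerProductSpace ℝ E]

/-- The Lorentz form. -/
def bet (v w : E × ℝ) : ℝ := inner ℝ v.1 w.1 - v.2 * w.2

/-- The null vector of a point. -/
def hat (p : E) : E × ℝ := (p, 1)

/-- The section of the closed ball by the hyperplane with Lorentz vector `v`. -/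
def sec (v : E × ℝ) : Set E := {x | ‖x‖ ≤ 1 ∧ inner ℝ v.1 x = v.2}

theorem bet_comm (v w : E × ℝ) : bet v w = bet w v := by
  unfold bet; rw [real_inner_comm, mul_comm]

theorem bet_add_left (v v' w : E × ℝ) : bet (v + v') w = bet v w + bet v' w := by
  simp only [bet, Prod.fst_add, Prod.snd_add, inner_add_left]; ring

theorem bet_add_right (v w w' : E × ℝ) : bet v (w + w') = bet v w + bet v w' := by
  simp only [bet, Prod.fst_add, Prod.snd_add, inner_add_right]; ring

theorem bet_smul_left (c : ℝ) (v w : E × ℝ) : bet (c • v) w = c * bet v w := by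
  simp only [bet, Prod.smul_fst, Prod.smul_snd, inner_smul_left, smul_eq_mul]
  simp; ring

theorem bet_smul_right (c : ℝ) (v w : E × ℝ) : bet v (c • w) = c * bet v w := by
  rw [bet_comm, bet_smul_left, bet_comm]

theorem bet_neg_left (v w : E × ℝ) : bet (-v) w = - bet v w := by
  have := bet_smul_left (-1) v w
  simpa using this

theorem bet_neg_right (v w : E × ℝ) : bet v (-w) = - bet v w := by
  rw [bet_comm, bet_neg_left, bet_comm]

theorem bet_sub_left (v v' w : E × ℝ) : bet (v - v') w = bet v w - bet v' w := by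
  rw [sub_eq_add_neg, bet_add_left, bet_neg_left]; ring

theorem bet_hat_hat {p q : E} :
    bet (hat p) (hat q) = inner ℝ p q - 1 := by
  simp [bet, hat]

theorem bet_hat_self {p : E} (hp : ‖p‖ = 1) : bet (hat p) (hat p) = 0 := by
  simp [bet, hat, hp]

theorem bet_hat (v : E × ℝ) (p : E) : bet v (hat p) = inner ℝ v.1 p - v.2 := by
  simp [bet, hat]

theorem mem_sec {v : E × ℝ} {x : E} : x ∈ sec v ↔ ‖x‖ ≤ 1 ∧ bet v (hat x) = 0 := by
  unfold sec
  simp [bet_hat, sub_eq_zero]

theorem mem_sec_of_norm {v : E × ℝ} {p : E} (hp : ‖p‖ = 1) :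
    p ∈ sec v ↔ bet v (hat p) = 0 := by
  rw [mem_sec]; simp [hp]

theorem sec_smul {c : ℝ} (hc : c ≠ 0) (v : E × ℝ) : sec (c • v) = sec v := by
  ext x
  simp [mem_sec, bet_smul_left, hc]

theorem sec_neg (v : E × ℝ) : sec (-v) = sec v := by
  ext x
  simp [mem_sec, bet_neg_left]

/-- A null vector orthogonal to a null vector of a point is a multiple of it. -/
theorem null_multiple {p : E} (hp : ‖p‖ = 1) {x : E × ℝ} (h0 : bet x (hat p) = 0)
    (h1 : bet x x = 0) : x = x.2 • hat p := by
  have e0 : inner ℝ x.1 p = x.2 := by rw [bet_hat] at h0; linarith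
  have e1 : inner ℝ x.1 x.1 = x.2 * x.2 := by unfold bet at h1; linarith
  have : ‖x.1 - x.2 • p‖ ^ 2 = 0 := by
    rw [← real_inner_self_eq_norm_sq, inner_sub_left, inner_sub_right, inner_sub_right,
      inner_smul_left, inner_smul_right, inner_smul_left, inner_smul_right, e1, e0,
      real_inner_self_eq_norm_sq, hp, real_inner_comm, e0]
    simp
  have h2 : x.1 - x.2 • p = 0 := by simpa using this
  ext
  · simp only [hat, Prod.smul_mk, smul_eq_mul, mul_one]
    exact sub_eq_zero.mp h2
  · simp [hat]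

theorem hat_inj {p q : E} (hp : ‖p‖ = 1) (hq : ‖q‖ = 1) (h : bet (hat p) (hat q) = 0) :
    p = q := by
  rw [bet_hat_hat] at h
  have : inner ℝ p q = 1 := by linarith
  exact (inner_eq_one_iff_of_norm_eq_one hp hq).mp this

/-- Necessary condition for two sections to meet. -/
theorem meet_imp {v w : E × ℝ} (hw : 0 < bet w w)
    (h : (sec v ∩ sec w).Nonempty) : bet v w ^ 2 ≤ bet v v * bet w w := by
  obtain ⟨x, ⟨hx, hxv⟩, ⟨_, hxw⟩⟩ := h
  -- the form B(y,z) = <y,z> - <x,y><x,z>
  have key : ∀ y : E, (inner ℝ y x) ^ 2 ≤ inner ℝ y y := by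
    intro y
    have h1 := abs_real_inner_le_norm y x
    have h2 : (inner ℝ y x) ^ 2 ≤ (‖y‖ * ‖x‖) ^ 2 := by
      rw [← sq_abs]; gcongr
    have h3 : (‖y‖ * ‖x‖) ^ 2 ≤ ‖y‖ ^ 2 := by
      rw [mul_pow]
      have : ‖x‖ ^ 2 ≤ 1 := by
        have := norm_nonneg x
        nlinarith
      nlinarith [sq_nonneg ‖y‖]
    rw [real_inner_self_eq_norm_sq]
    linarith
  set l : ℝ := bet v w / bet w w with hl
  have h1 := key (v.1 - l • w.1)
  rw [inner_sub_left, inner_smul_left, hxv, hxw, inner_sub_left, inner_sub_right, inner_sub_right,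
    inner_smul_left, inner_smul_right, inner_smul_left, inner_smul_right,
    real_inner_comm w.1 v.1] at h1
  simp only [conj_trivial] at h1
  have h2 : 0 ≤ bet v v - 2 * l * bet v w + l ^ 2 * bet w w := by
    unfold bet
    rw [real_inner_comm w.1 v.1] at *
    nlinarith
  have h3 : bet v v - 2 * l * bet v w + l ^ 2 * bet w w = bet v v - bet v w ^ 2 / bet w w := by
    rw [hl]; field_simp; ring
  rw [h3] at h2
  have h4 : bet v w ^ 2 / bet w w ≤ bet v v := by linarith
  rwa [div_le_iff₀ hw] at h4

/-- Sufficient condition for two sections to meet. -/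
theorem meet_of {v w : E × ℝ} (hv : 0 < bet v v) (hw : 0 < bet w w)
    (h : bet v w ^ 2 ≤ bet v v * bet w w) : (sec v ∩ sec w).Nonempty := by
  obtain ⟨u, s⟩ := v
  obtain ⟨u', s'⟩ := w
  simp only [bet] at h hv hw
  obtain ⟨a, ha⟩ : ∃ a, a = inner ℝ u u := ⟨_, rfl⟩
  obtain ⟨b, hb⟩ : ∃ b, b = inner ℝ u' u' := ⟨_, rfl⟩
  obtain ⟨g, hg⟩ : ∃ g, g = inner ℝ u u' := ⟨_, rfl⟩
  have hg' : inner ℝ u' u = g := by rw [hg]; exact real_inner_comm _ _
  rw [← ha, ← hb, ← hg] at h
  rw [← ha] at hv
  rw [← hb] at hw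
  have hG : 0 ≤ a * b - g ^ 2 := by
    have := real_inner_mul_inner_self_le u u'
    rw [← ha, ← hb, ← hg, ] at this
    nlinarith
  have hapos : 0 < a := by nlinarith [mul_self_nonneg s]
  have hbpos : 0 < b := by nlinarith [mul_self_nonneg s']
  rcases hG.lt_or_eq with hG | hG
  · -- independent
    obtain ⟨G, hGd⟩ : ∃ G, G = a * b - g ^ 2 := ⟨_, rfl⟩
    rw [← hGd] at hG
    have hG0 : G ≠ 0 := hG.ne'
    obtain ⟨α, hα⟩ : ∃ α, α = (s * b - s' * g) / G := ⟨_, rfl⟩
    obtain ⟨γ, hγ⟩ : ∃ γ, γ = (s' * a - s * g) / G := ⟨_, rfl⟩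
    have e1 : α * a + γ * g = s := by
      rw [hα, hγ]; field_simp; rw [hGd]; ring
    have e2 : α * g + γ * b = s' := by
      rw [hα, hγ]; field_simp; rw [hGd]; ring
    have e3 : α * s + γ * s' ≤ 1 := by
      have : α * s + γ * s' = (s ^ 2 * b - 2 * s * s' * g + s' ^ 2 * a) / G := by
        rw [hα, hγ]; field_simp; ring
      rw [this, div_le_one hG, hGd]
      nlinarith
    have hsq : ‖α • u + γ • u'‖ ^ 2 ≤ 1 := by
      rw [← real_inner_self_eq_norm_sq, inner_add_left, inner_add_right, inner_add_right,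
        inner_smul_left, inner_smul_right, inner_smul_left, inner_smul_right, inner_smul_left,
        inner_smul_right, inner_smul_left, inner_smul_right, hg', ← ha, ← hb, ← hg]
      simp only [conj_trivial]
      calc _ = α * (α * a + γ * g) + γ * (α * g + γ * b) := by ring
        _ ≤ 1 := by rw [e1, e2]; exact e3
    have hn : ‖α • u + γ • u'‖ ≤ 1 := by
      have := norm_nonneg (α • u + γ • u')
      nlinarith
    refine ⟨α • u + γ • u', ⟨hn, ?_⟩, ⟨hn, ?_⟩⟩
    · simp only [inner_add_right, inner_smul_right, ← ha, ← hg]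
      exact e1
    · simp only [inner_add_right, inner_smul_right, ← hb, hg']
      exact e2
  · -- dependent
    have hu0 : u ≠ 0 := by
      rintro rfl
      simp at ha
      exact hapos.ne' ha
    have hlam : u' = (g / a) • u := by
      have : ‖u' - (g / a) • u‖ ^ 2 = 0 := by
        rw [← real_inner_self_eq_norm_sq, inner_sub_left, inner_sub_right, inner_sub_right,
          inner_smul_left, inner_smul_right, inner_smul_left, inner_smul_right, hg', ← ha, ← hb,
          ← hg]
        simp only [conj_trivial]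
        field_simp
        nlinarith
      have h2 : u' - (g / a) • u = 0 := by simpa using this
      exact sub_eq_zero.mp h2
    have hs' : a * s' = g * s := by
      have h1 : (a * s' - g * s) ^ 2 ≤ 0 := by
        have hb' : a * b = g ^ 2 := by linarith
        have h2 : a * (g - s * s') ^ 2 ≤ a * ((a - s * s) * (b - s' * s')) := by gcongr
        nlinarith
      have h2 : (a * s' - g * s) ^ 2 = 0 := le_antisymm h1 (sq_nonneg _)
      have h3 : a * s' - g * s = 0 := by simpa using h2
      linarith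
    have hn : ‖(s / a) • u‖ ≤ 1 := by
      have : ‖(s / a) • u‖ ^ 2 ≤ 1 := by
        rw [← real_inner_self_eq_norm_sq, inner_smul_left, inner_smul_right, ← ha]
        simp only [conj_trivial]
        have : s / a * (s / a * a) = s * s / a := by field_simp
        rw [this, div_le_one hapos]
        linarith
      have := norm_nonneg ((s / a) • u)
      nlinarith
    refine ⟨(s / a) • u, ⟨hn, ?_⟩, ⟨hn, ?_⟩⟩
    · simp only [inner_smul_right, ← ha]
      field_simp
    · simp only [inner_smul_right, hg']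
      field_simp
      linarith

theorem meet_iff {v w : E × ℝ} (hv : 0 < bet v v) (hw : 0 < bet w w) :
    (sec v ∩ sec w).Nonempty ↔ bet v w ^ 2 ≤ bet v v * bet w w :=
  ⟨meet_imp hw, meet_of hv hw⟩

end Pool.Agent.R767.SG
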