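import Pool.Agent.R767.SG1

/-!
# The intersection relation of flat discs determines the points of the sphere
-/

namespace Pool.Agent.R767.SG

open Metric Filter Topology

variable {E : Type*} [NormedAddCommGroup E] [InnerProductSpace ℝ E]

/-- Flat discs: sections of the closed unit ball by hyperplanes `⟪u, x⟫ = h`, `‖u‖ = 1`,
`|h| < 1`. -/
def Disc (E : Type*) [NormedAddCommGroup E] [InnerProductSpace ℝ E] : Type _ :=
  {A : Set E // ∃ (u : E) (h : ℝ), ‖u‖ = 1 ∧ |h| < 1 ∧ A = {x | ‖x‖ ≤ 1 ∧ inner ℝ u x = h}}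

/-- Two discs meet. -/
def Mt (A B : Disc E) : Prop := (A.1 ∩ B.1).Nonempty

theorem Mt_comm {A B : Disc E} : Mt A B ↔ Mt B A := by
  unfold Mt; rw [Set.inter_comm]

/-- The disc of a spacelike vector. -/
def mk (v : E × ℝ) (hv : 0 < bet v v) : Disc E := ⟨sec v, by
  have hu : 0 < ‖v.1‖ := by
    unfold bet at hv
    rw [real_inner_self_eq_norm_sq] at hv
    have : 0 < ‖v.1‖ ^ 2 := by nlinarith [mul_self_nonneg v.2]
    by_contra h
    have h0 : ‖v.1‖ = 0 := le_antisymm (not_lt.mp h) (norm_nonneg _)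
    rw [h0] at this; simp at this
  refine ⟨(‖v.1‖)⁻¹ • v.1, (‖v.1‖)⁻¹ * v.2, ?_, ?_, ?_⟩
  · rw [norm_smul, norm_inv, norm_norm, inv_mul_cancel₀ hu.ne']
  · rw [abs_mul, abs_inv, abs_norm, inv_mul_lt_iff₀ hu, mul_one]
    apply abs_lt_of_sq_lt_sq _ hu.le
    unfold bet at hv
    rw [real_inner_self_eq_norm_sq] at hv
    nlinarith
  · ext x
    simp only [sec, Set.mem_ofPred_eq, inner_smul_left, conj_trivial]
    constructor
    · rintro ⟨h1, h2⟩
      exact ⟨h1, by rw [h2]⟩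
    · rintro ⟨h1, h2⟩
      exact ⟨h1, mul_left_cancel₀ (inv_ne_zero hu.ne') h2⟩⟩

theorem mk_val (v : E × ℝ) (hv : 0 < bet v v) : (mk v hv).1 = sec v := rfl

theorem exists_rep (A : Disc E) : ∃ v : E × ℝ, bet v v = 1 ∧ A.1 = sec v := by
  obtain ⟨A, u, h, hu, hh, rfl⟩ := A
  have hpos : 0 < 1 - h ^ 2 := by
    have := abs_lt.mp hh
    nlinarith
  set c := (Real.sqrt (1 - h ^ 2))⁻¹ with hc
  have hsq : Real.sqrt (1 - h ^ 2) ^ 2 = 1 - h ^ 2 := Real.sq_sqrt hpos.le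
  have hspos : 0 < Real.sqrt (1 - h ^ 2) := Real.sqrt_pos.mpr hpos
  have hc0 : c ≠ 0 := inv_ne_zero hspos.ne'
  refine ⟨c • (u, h), ?_, ?_⟩
  · rw [bet_smul_left, bet_smul_right]
    have : bet (u, h) (u, h) = 1 - h ^ 2 := by
      simp [bet, hu]; ring
    rw [this, ← hsq, hc]
    field_simp
  · rw [sec_smul hc0]
    rfl

theorem Mt_iff {A B : Disc E} {v w : E × ℝ} (hA : A.1 = sec v) (hB : B.1 = sec w)
    (hv : 0 < bet v v) (hw : 0 < bet w w) :
    Mt A B ↔ bet v w ^ 2 ≤ bet v v * bet w w := by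
  unfold Mt
  rw [hA, hB]
  exact meet_iff hv hw

/-- In dimension at least three, two meeting discs meet on the unit sphere. -/
theorem sphere_pt [FiniteDimensional ℝ E] (hn : 3 ≤ Module.finrank ℝ E) {v w : E × ℝ}
    (h : (sec v ∩ sec w).Nonempty) : ∃ p : E, ‖p‖ = 1 ∧ bet v (hat p) = 0 ∧ bet w (hat p) = 0 := by
  obtain ⟨x, hxv, hxw⟩ := h
  obtain ⟨z, hz0, hzv, hzw⟩ : ∃ z : E, z ≠ 0 ∧ inner ℝ v.1 z = 0 ∧ inner ℝ w.1 z = 0 := by
    set K : Submodule ℝ E := Submodule.span ℝ {v.1, w.1} with hK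
    have h1 : Module.finrank ℝ K ≤ 2 := by
      classical
      have h3 := finrank_span_finset_le_card (R := ℝ) ({v.1, w.1} : Finset E)
      have h2 : (({v.1, w.1} : Finset E) : Set E) = {v.1, w.1} := by simp
      rw [h2] at h3
      exact (show Module.finrank ℝ K ≤ _ from h3).trans (Finset.card_le_two)
    have h2 := K.finrank_add_finrank_orthogonal
    have h3 : Kᗮ ≠ ⊥ := by
      intro hbot
      rw [hbot, finrank_bot] at h2
      omega
    obtain ⟨z, hz, hz0⟩ := Submodule.exists_mem_ne_zero_of_ne_bot h3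
    refine ⟨z, hz0, ?_, ?_⟩
    · exact (Submodule.mem_orthogonal _ _).mp hz _ (Submodule.subset_span (by simp))
    · exact (Submodule.mem_orthogonal _ _).mp hz _ (Submodule.subset_span (by simp))
  have hx1 : ‖x‖ ≤ 1 := hxv.1
  have hzpos : 0 < ‖z‖ ^ 2 := by positivity
  have hdisc : ∃ s, discrim (‖z‖ ^ 2) (2 * inner ℝ x z) (‖x‖ ^ 2 - 1) = s * s := by
    refine ⟨Real.sqrt (discrim (‖z‖ ^ 2) (2 * inner ℝ x z) (‖x‖ ^ 2 - 1)), ?_⟩
    rw [Real.mul_self_sqrt]
    unfold discrim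
    have : ‖x‖ ^ 2 ≤ 1 := by
      have := norm_nonneg x
      nlinarith
    nlinarith [sq_nonneg (2 * inner ℝ x z)]
  obtain ⟨t, ht⟩ := exists_quadratic_eq_zero hzpos.ne' hdisc
  refine ⟨x + t • z, ?_, ?_, ?_⟩
  · have : ‖x + t • z‖ ^ 2 = 1 := by
      rw [← real_inner_self_eq_norm_sq, inner_add_left, inner_add_right, inner_add_right,
        inner_smul_left, inner_smul_right, inner_smul_left, inner_smul_right,
        real_inner_self_eq_norm_sq, real_inner_self_eq_norm_sq, real_inner_comm x z]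
      simp only [conj_trivial]
      linarith
    have h0 := norm_nonneg (x + t • z)
    nlinarith
  · rw [bet_hat, inner_add_right, inner_smul_right, hzv, hxv.2]; simp
  · rw [bet_hat, inner_add_right, inner_smul_right, hzw, hxw.2]; simp

/-- Small sphere lemma. -/
theorem small_sphere {p : E} (hp : ‖p‖ = 1) {v w z : E × ℝ}
    (hw : 0 < bet w w) (hz : 0 < bet z z) (hvp : bet v (hat p) ≠ 0)
    (hwp : bet w (hat p) = 0) (hzp : bet z (hat p) = 0) :
    ∃ e : E × ℝ, 0 < bet e e ∧ bet e e * bet v v < bet e v ^ 2 ∧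
      bet e w ^ 2 ≤ bet e e * bet w w ∧ bet e z ^ 2 ≤ bet e e * bet z z := by
  -- e = (p, 1 - δ)
  have he : ∀ δ : ℝ, ∀ x : E × ℝ, bet (p, 1 - δ) x = bet x (hat p) + δ * x.2 := by
    intro δ x
    rw [bet_hat]
    simp only [bet]
    rw [real_inner_comm]; ring
  have hee : ∀ δ : ℝ, bet (p, 1 - δ) (p, 1 - δ) = δ * (2 - δ) := by
    intro δ
    simp only [bet]
    rw [real_inner_self_eq_norm_sq, hp]; ring
  have c1 : ∀ᶠ δ : ℝ in 𝓝[>] 0, δ * (2 - δ) * bet v v < (bet v (hat p) + δ * v.2) ^ 2 := by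
    apply nhdsWithin_le_nhds
    have h1 : ContinuousAt (fun δ : ℝ => δ * (2 - δ) * bet v v) 0 := by fun_prop
    have h2 : ContinuousAt (fun δ : ℝ => (bet v (hat p) + δ * v.2) ^ 2) 0 := by fun_prop
    apply h1.eventually_lt h2
    simp only [zero_mul, add_zero]
    positivity
  have c2 : ∀ x : E × ℝ, 0 < bet x x → ∀ᶠ δ : ℝ in 𝓝[>] 0, δ * x.2 ^ 2 < (2 - δ) * bet x x := by
    intro x hx
    apply nhdsWithin_le_nhds
    have h1 : ContinuousAt (fun δ : ℝ => δ * x.2 ^ 2) 0 := by fun_prop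
    have h2 : ContinuousAt (fun δ : ℝ => (2 - δ) * bet x x) 0 := by fun_prop
    apply h1.eventually_lt h2
    simp only [zero_mul, sub_zero]
    linarith
  have c3 : ∀ᶠ δ : ℝ in 𝓝[>] 0, δ < 2 := by
    apply nhdsWithin_le_nhds
    exact eventually_lt_nhds (by norm_num)
  have c4 : ∀ᶠ δ : ℝ in 𝓝[>] (0 : ℝ), 0 < δ := eventually_mem_nhdsWithin
  obtain ⟨δ, h1, h2, h3, h4, h5⟩ :=
    (c1.and ((c2 w hw).and ((c2 z hz).and (c3.and c4)))).exists
  refine ⟨(p, 1 - δ), ?_, ?_, ?_, ?_⟩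
  · rw [hee]; have : 0 < 2 - δ := by linarith
    positivity
  · rw [hee, he]; exact h1
  · rw [hee, he, hwp, zero_add]
    calc (δ * w.2) ^ 2 = δ * (δ * w.2 ^ 2) := by ring
      _ ≤ δ * ((2 - δ) * bet w w) := by gcongr
      _ = _ := by ring
  · rw [hee, he, hzp, zero_add]
    calc (δ * z.2) ^ 2 = δ * (δ * z.2 ^ 2) := by ring
      _ ≤ δ * ((2 - δ) * bet z z) := by gcongr
      _ = _ := by ring

/-- `D` meets `B`, and `A` separates `D` from `B`. -/
def Pen (A B D : Disc E) : Prop := Mt D B ∧ ∀ X : Disc E, ¬ Mt X A → ¬ (Mt X B ∧ Mt X D)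

/-- Combinatorial tangency. -/
def Tan (A B : Disc E) : Prop := A ≠ B ∧ ∃ D, D ≠ A ∧ Pen A B D

/-- Geometric tangency at a point. -/
def GT (A B : Disc E) (p : E) : Prop :=
  ∃ v : E × ℝ, ∃ b : ℝ, bet v v = 1 ∧ bet v (hat p) = 0 ∧ b ≠ 0 ∧ A.1 = sec v ∧
    B.1 = sec (v + b • hat p)

theorem bet_add_hat {p : E} (hp : ‖p‖ = 1) {v : E × ℝ} (hv : bet v (hat p) = 0) (b : ℝ) :
    bet (v + b • hat p) (v + b • hat p) = bet v v := by
  rw [bet_add_left, bet_add_right, bet_add_right, bet_smul_left, bet_smul_right, bet_smul_left,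
    bet_smul_right, bet_hat_self hp, bet_comm (hat p) v, hv]; ring

theorem bet_add_hat_hat {p : E} (hp : ‖p‖ = 1) {v : E × ℝ} (hv : bet v (hat p) = 0) (b : ℝ) :
    bet (v + b • hat p) (hat p) = 0 := by
  rw [bet_add_left, bet_smul_left, bet_hat_self hp, hv]; ring

/-- Existence of a tangent pair at each point. -/
theorem exists_GT [FiniteDimensional ℝ E] (hn : 3 ≤ Module.finrank ℝ E) {p : E} (hp : ‖p‖ = 1) :
    ∃ A B : Disc E, GT A B p := by
  obtain ⟨w, hw0, hw⟩ : ∃ w : E, w ≠ 0 ∧ inner ℝ p w = 0 := by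
    set K : Submodule ℝ E := Submodule.span ℝ {p} with hK
    have h1 : Module.finrank ℝ K ≤ 1 := by
      have h3 := finrank_span_finset_le_card (R := ℝ) ({p} : Finset E)
      rw [Finset.coe_singleton, Finset.card_singleton] at h3
      exact h3
    have h2 := K.finrank_add_finrank_orthogonal
    have h3 : Kᗮ ≠ ⊥ := by
      intro hbot
      rw [hbot, finrank_bot] at h2
      omega
    obtain ⟨z, hz, hz0⟩ := Submodule.exists_mem_ne_zero_of_ne_bot h3
    exact ⟨z, hz0, (Submodule.mem_orthogonal _ _).mp hz _ (Submodule.subset_span (by simp))⟩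
  have hw1 : 0 < ‖w‖ := norm_pos_iff.mpr hw0
  set v : E × ℝ := ((‖w‖)⁻¹ • w, 0) with hv
  have hvv : bet v v = 1 := by
    simp only [bet, hv, inner_smul_left, inner_smul_right, conj_trivial, mul_zero, sub_zero]
    rw [real_inner_self_eq_norm_sq]; field_simp
  have hvp : bet v (hat p) = 0 := by
    rw [bet_hat]
    simp [hv, inner_smul_left, real_inner_comm, hw]
  have h2 : 0 < bet (v + (1 : ℝ) • hat p) (v + (1 : ℝ) • hat p) := by
    rw [bet_add_hat hp hvp, hvv]; norm_num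
  exact ⟨mk v (by rw [hvv]; norm_num), mk _ h2, v, 1, hvv, hvp, one_ne_zero, rfl, rfl⟩

/-- `D_s = v - s b p̂` is in the pencil. -/
theorem Pen_of_GT {A B : Disc E} {p : E} (hp : ‖p‖ = 1) {v : E × ℝ} {b : ℝ}
    (hvv : bet v v = 1) (hvp : bet v (hat p) = 0) (hA : A.1 = sec v)
    (hB : B.1 = sec (v + b • hat p)) {s : ℝ} (hs : 0 ≤ s) {D : Disc E}
    (hD : D.1 = sec (v + (-(s * b)) • hat p)) : Pen A B D := by
  refine ⟨⟨p, ?_, ?_⟩, ?_⟩
  · rw [hD, mem_sec_of_norm hp, bet_add_hat_hat hp hvp]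
  · rw [hB, mem_sec_of_norm hp, bet_add_hat_hat hp hvp]
  · rintro X hXA ⟨hXB, hXD⟩
    obtain ⟨e, hee, hX⟩ := exists_rep X
    rw [Mt_iff hX hA (by rw [hee]; norm_num) (by rw [hvv]; norm_num)] at hXA
    rw [Mt_iff hX hB (by rw [hee]; norm_num) (by rw [bet_add_hat hp hvp, hvv]; norm_num)] at hXB
    rw [Mt_iff hX hD (by rw [hee]; norm_num) (by rw [bet_add_hat hp hvp, hvv]; norm_num)] at hXD
    rw [hee, bet_add_hat hp hvp, hvv, bet_add_right, bet_smul_right] at hXB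
    rw [hee, bet_add_hat hp hvp, hvv, bet_add_right, bet_smul_right] at hXD
    rw [hee, hvv] at hXA
    obtain ⟨x, hx⟩ : ∃ x, x = bet e v := ⟨_, rfl⟩
    obtain ⟨y, hy⟩ : ∃ y, y = bet e (hat p) := ⟨_, rfl⟩
    rw [← hx, ← hy] at hXB hXD
    rw [← hx] at hXA
    have h1 : 1 < x ^ 2 := by linarith [not_le.mp hXA]
    have h2 : |x + b * y| ≤ 1 := by
      rw [← sq_le_one_iff_abs_le_one]; linarith
    have h3 : |x + -(s * b) * y| ≤ 1 := by
      rw [← sq_le_one_iff_abs_le_one]; linarith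
    have h4 : 1 < |x| := by
      rw [← one_lt_sq_iff_one_lt_abs]; exact h1
    rw [abs_le] at h2 h3
    rcases lt_abs.mp h4 with h4 | h4
    · have h5 : b * y < 0 := by linarith
      nlinarith
    · have h5 : 0 < b * y := by linarith
      nlinarith

theorem GT_ne {A B : Disc E} {p : E} (hp : ‖p‖ = 1) (h : GT A B p) :
    ∀ q : E, ‖q‖ = 1 → q ∈ A.1 → q ∈ B.1 → q = p := by
  obtain ⟨v, b, hvv, hvp, hb, hA, hB⟩ := h
  intro q hq hqA hqB
  rw [hA, mem_sec_of_norm hq] at hqA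
  rw [hB, mem_sec_of_norm hq, bet_add_left, bet_smul_left, hqA, zero_add] at hqB
  have : bet (hat p) (hat q) = 0 := by
    rcases mul_eq_zero.mp hqB with h | h
    · exact absurd h hb
    · exact h
  exact (hat_inj hp hq this).symm

theorem GT_mem {A B : Disc E} {p : E} (hp : ‖p‖ = 1) (h : GT A B p) : p ∈ A.1 ∧ p ∈ B.1 := by
  obtain ⟨v, b, hvv, hvp, hb, hA, hB⟩ := h
  rw [hA, hB, mem_sec_of_norm hp, mem_sec_of_norm hp, bet_add_hat_hat hp hvp]
  exact ⟨hvp, rfl⟩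

end Pool.Agent.R767.SG
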