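import Pool.Agent.R767.SG2

/-!
# Tangency is definable from the intersection relation; automorphisms induce point maps
-/

namespace Pool.Agent.R767.SG

open Metric Filter Topology

variable {E : Type*} [NormedAddCommGroup E] [InnerProductSpace ℝ E]

theorem exists_opp {p : E} (hp : ‖p‖ = 1) {v : E × ℝ} (hvv : bet v v = 1)
    (hvp : bet v (hat p) = 0) :
    ∃ o : E, ‖o‖ = 1 ∧ bet v (hat o) = 0 ∧ bet (hat p) (hat o) < 0 := by
  obtain ⟨u, h⟩ := v
  rw [bet_hat] at hvp
  simp only at hvp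
  have hup : inner ℝ u p = h := by linarith
  have huu : inner ℝ u u = 1 + h * h := by
    simp only [bet] at hvv; linarith
  have hpos : 0 < 1 + h * h := by nlinarith [mul_self_nonneg h]
  refine ⟨(2 * h / (1 + h * h)) • u - p, ?_, ?_, ?_⟩
  · have : ‖(2 * h / (1 + h * h)) • u - p‖ ^ 2 = 1 := by
      rw [← real_inner_self_eq_norm_sq, inner_sub_left, inner_sub_right, inner_sub_right,
        inner_smul_left, inner_smul_right, inner_smul_left, inner_smul_right,
        real_inner_comm u p, hup, huu, real_inner_self_eq_norm_sq, hp]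
      simp only [conj_trivial]
      field_simp
      ring
    have h0 := norm_nonneg ((2 * h / (1 + h * h)) • u - p)
    nlinarith
  · rw [bet_hat, inner_sub_right, inner_smul_right, huu, hup]
    field_simp
    ring
  · rw [bet_hat_hat, inner_sub_right, inner_smul_right, real_inner_comm u p, hup,
      real_inner_self_eq_norm_sq, hp]
    have : 2 * h / (1 + h * h) * h - 1 ^ 2 - 1 = - (2 / (1 + h * h)) := by
      field_simp; ring
    rw [this]
    have : 0 < 2 / (1 + h * h) := by positivity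
    linarith

theorem GT_neq {A B : Disc E} {p : E} (hp : ‖p‖ = 1) (h : GT A B p) : A ≠ B := by
  intro hAB
  have hne := GT_ne hp h
  obtain ⟨v, b, hvv, hvp, hb, hA, hB⟩ := h
  obtain ⟨o, ho, hov, hop⟩ := exists_opp hp hvv hvp
  have h1 : o ∈ A.1 := by rw [hA, mem_sec_of_norm ho]; exact hov
  have h2 := hne o ho h1 (hAB ▸ h1)
  rw [h2, bet_hat_self hp] at hop
  exact lt_irrefl _ hop

theorem Tan_of_GT {A B : Disc E} {p : E} (hp : ‖p‖ = 1) (h : GT A B p) : Tan A B := by
  refine ⟨GT_neq hp h, ?_⟩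
  obtain ⟨v, b, hvv, hvp, hb, hA, hB⟩ := h
  have hpos : 0 < bet (v + (-(1 * b)) • hat p) (v + (-(1 * b)) • hat p) := by
    rw [bet_add_hat hp hvp, hvv]; norm_num
  refine ⟨mk _ hpos, ?_, Pen_of_GT hp hvv hvp hA hB zero_le_one (mk_val _ hpos)⟩
  refine (GT_neq hp (p := p) ⟨v, -(1 * b), hvv, hvp, by simpa using hb, hA, mk_val _ hpos⟩).symm

theorem sec_of_sq_one {p : E} (hp : ‖p‖ = 1) {v w : E × ℝ} (hvv : bet v v = 1)
    (hww : bet w w = 1) (hvp : bet v (hat p) = 0) (hwp : bet w (hat p) = 0)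
    (hg : bet v w ^ 2 = 1) :
    ∃ b : ℝ, w = v + b • hat p ∨ w = -(v + b • hat p) := by
  set g := bet v w with hgd
  have h1 : bet (w - g • v) (hat p) = 0 := by
    rw [bet_sub_left, bet_smul_left, hvp, hwp]; ring
  have h2 : bet (w - g • v) (w - g • v) = 0 := by
    rw [sub_eq_add_neg, ← neg_smul, bet_add_left, bet_add_right, bet_add_right, bet_smul_left,
      bet_smul_right, bet_smul_left, bet_smul_right, hvv, hww, bet_comm w v, ← hgd]
    nlinarith
  have h3 := null_multiple hp h1 h2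
  obtain ⟨c, hc⟩ : ∃ c, c = (w - g • v).2 := ⟨_, rfl⟩
  rw [← hc] at h3
  have h4 : w = g • v + c • hat p := by rw [← h3]; abel
  have hgg : g * g = 1 := by rw [← sq]; exact hg
  rcases mul_self_eq_one_iff.mp hgg with h | h
  · exact ⟨c, Or.inl (by rw [h4, h, one_smul])⟩
  · refine ⟨-c, Or.inr ?_⟩
    rw [h4, h]
    module

/-- A separating configuration forces tangency. -/
theorem GT_of_Tan [FiniteDimensional ℝ E] (hn : 3 ≤ Module.finrank ℝ E) {A B : Disc E}
    (h : Tan A B) : ∃ p : E, ‖p‖ = 1 ∧ GT A B p := by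
  obtain ⟨hAB, D, hDA, hDB, hsep⟩ := h
  obtain ⟨v, hvv, hA⟩ := exists_rep A
  obtain ⟨w, hww, hB⟩ := exists_rep B
  obtain ⟨z, hzz, hD⟩ := exists_rep D
  have hvv0 : 0 < bet v v := by rw [hvv]; norm_num
  have hww0 : 0 < bet w w := by rw [hww]; norm_num
  have hzz0 : 0 < bet z z := by rw [hzz]; norm_num
  have hDB' := hDB
  unfold Mt at hDB'
  rw [hD, hB] at hDB'
  obtain ⟨p, hp, hzp, hwp⟩ := sphere_pt hn hDB'
  -- general contradiction principle
  have contra : ∀ e : E × ℝ, 0 < bet e e → bet e e * bet v v < bet e v ^ 2 →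
      bet e w ^ 2 ≤ bet e e * bet w w → bet e z ^ 2 ≤ bet e e * bet z z → False := by
    intro e he h1 h2 h3
    refine hsep (mk e he) ?_ ⟨?_, ?_⟩
    · rw [Mt_iff (mk_val e he) hA he hvv0]; exact not_le.mpr h1
    · rw [Mt_iff (mk_val e he) hB he hww0]; exact h2
    · rw [Mt_iff (mk_val e he) hD he hzz0]; exact h3
  have hvp : bet v (hat p) = 0 := by
    by_contra hne
    obtain ⟨e, he, h1, h2, h3⟩ := small_sphere hp hww0 hzz0 hne hwp hzp
    exact contra e he h1 h2 h3
  refine ⟨p, hp, ?_⟩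
  -- the numbers
  have hle : ∀ x : E × ℝ, bet x x = 1 → bet x (hat p) = 0 → bet v x ^ 2 ≤ 1 := by
    intro x hx hxp
    have h1 : (sec v ∩ sec x).Nonempty :=
      ⟨p, (mem_sec_of_norm hp).mpr hvp, (mem_sec_of_norm hp).mpr hxp⟩
    have := meet_imp (by rw [hx]; norm_num) h1
    rwa [hvv, hx, one_mul] at this
  have hg1 := hle w hww hwp
  have hg1' := hle z hzz hzp
  rcases hg1.lt_or_eq with hg | hg
  · exfalso
    obtain ⟨o, ho, hvo, hpo⟩ := exists_opp hp hvv hvp
    obtain ⟨κ, hκ⟩ : ∃ κ, κ = - bet (hat p) (hat o) := ⟨_, rfl⟩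
    have hκ0 : 0 < κ := by rw [hκ]; linarith
    have hpo' : bet (hat p) (hat o) = -κ := by rw [hκ]; ring
    have hop' : bet (hat o) (hat p) = -κ := by rw [bet_comm]; exact hpo'
    -- values of the family
    have fam_v : ∀ y ζ : ℝ, bet (v + y • hat p + ζ • hat o) v = 1 := by
      intro y ζ
      rw [bet_add_left, bet_add_left, bet_smul_left, bet_smul_left, bet_comm (hat p) v,
        bet_comm (hat o) v, hvv, hvp, hvo]; ring
    have fam_e : ∀ y ζ : ℝ, bet (v + y • hat p + ζ • hat o) (v + y • hat p + ζ • hat o) =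
        1 - 2 * κ * y * ζ := by
      intro y ζ
      simp only [bet_add_left, bet_add_right, bet_smul_left, bet_smul_right, bet_hat_self hp,
        bet_hat_self ho, bet_comm (hat p) v, bet_comm (hat o) v, hvv, hvp, hvo, hpo', hop']
      ring
    have fam_x : ∀ x : E × ℝ, bet x (hat p) = 0 → ∀ y ζ : ℝ,
        bet (v + y • hat p + ζ • hat o) x = bet v x + ζ * bet (hat o) x := by
      intro x hx y ζ
      simp only [bet_add_left, bet_smul_left, bet_comm (hat p) x, hx]
      ring
    rcases hg1'.lt_or_eq with hg' | hg'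
    · -- generic case
      obtain ⟨R, hR1, hR2, hR3⟩ : ∃ R : ℝ, bet v w ^ 2 < R ∧ bet v z ^ 2 < R ∧ R < 1 := by
        obtain ⟨R, h1, h2⟩ := exists_between (max_lt hg hg')
        exact ⟨R, lt_of_le_of_lt (le_max_left _ _) h1, lt_of_le_of_lt (le_max_right _ _) h1, h2⟩
      have c1 : ∀ x : E × ℝ, bet v x ^ 2 < R → ∀ᶠ ζ : ℝ in 𝓝[>] 0,
          (bet v x + ζ * bet (hat o) x) ^ 2 < R := by
        intro x hx
        apply nhdsWithin_le_nhds
        have h1 : ContinuousAt (fun ζ : ℝ => (bet v x + ζ * bet (hat o) x) ^ 2) 0 := by fun_prop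
        apply h1.eventually_lt continuousAt_const
        simpa using hx
      have c4 : ∀ᶠ δ : ℝ in 𝓝[>] (0 : ℝ), 0 < δ := eventually_mem_nhdsWithin
      obtain ⟨ζ, h1, h2, h3⟩ := ((c1 w hR1).and ((c1 z hR2).and c4)).exists
      obtain ⟨y, hy⟩ : ∃ y, y = (1 - R) / (2 * κ) / ζ := ⟨_, rfl⟩
      have he : bet (v + y • hat p + ζ • hat o) (v + y • hat p + ζ • hat o) = R := by
        rw [fam_e, hy]; field_simp; ring
      have hRpos : 0 < R := lt_of_le_of_lt (sq_nonneg _) hR1
      refine contra (v + y • hat p + ζ • hat o) ?_ ?_ ?_ ?_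
      · rw [he]; exact hRpos
      · rw [he, fam_v, hvv]; linarith
      · rw [he, fam_x w hwp, hww, mul_one]; exact h1.le
      · rw [he, fam_x z hzp, hzz, mul_one]; exact h2.le
    · -- D parallel to A
      obtain ⟨b, hb⟩ := sec_of_sq_one hp hvv hzz hvp hzp hg'
      have hzsec : sec z = sec (v + b • hat p) := by
        rcases hb with hb | hb
        · rw [hb]
        · rw [hb, sec_neg]
      have hb0 : b ≠ 0 := by
        rintro rfl
        apply hDA
        apply Subtype.ext
        rw [hD, hA, hzsec]; simp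
      have hz2 : ∀ x : E × ℝ, bet x z ^ 2 = (bet x v + b * bet x (hat p)) ^ 2 := by
        intro x
        rcases hb with hb | hb
        · rw [hb, bet_add_right, bet_smul_right]
        · rw [hb, bet_neg_right, bet_add_right, bet_smul_right]; ring
      have c1 : ∀ᶠ ε : ℝ in 𝓝[>] 0,
          (bet v w + ε * b * bet (hat o) w) ^ 2 < 1 - κ * ε * b ^ 2 := by
        apply nhdsWithin_le_nhds
        have h1 : ContinuousAt (fun ε : ℝ => (bet v w + ε * b * bet (hat o) w) ^ 2) 0 := by
          fun_prop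
        have h2 : ContinuousAt (fun ε : ℝ => 1 - κ * ε * b ^ 2) 0 := by fun_prop
        apply h1.eventually_lt h2
        simpa using hg
      have c4 : ∀ᶠ δ : ℝ in 𝓝[>] (0 : ℝ), 0 < δ := eventually_mem_nhdsWithin
      obtain ⟨ε, h1, h2⟩ := (c1.and c4).exists
      have hX0 : 0 < κ * ε * b ^ 2 := by positivity
      have hX1 : 0 < 1 - κ * ε * b ^ 2 := lt_of_le_of_lt (sq_nonneg _) h1
      have he : bet (v + (b / 2) • hat p + (ε * b) • hat o)
          (v + (b / 2) • hat p + (ε * b) • hat o) = 1 - κ * ε * b ^ 2 := by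
        rw [fam_e]; ring
      refine contra (v + (b / 2) • hat p + (ε * b) • hat o) ?_ ?_ ?_ ?_
      · rw [he]; exact hX1
      · rw [he, fam_v, hvv]; linarith
      · rw [he, fam_x w hwp, hww, mul_one]; exact h1.le
      · rw [he, hz2, fam_v, hzz, mul_one]
        have : bet (v + (b / 2) • hat p + (ε * b) • hat o) (hat p) = -(κ * ε * b) := by
          simp only [bet_add_left, bet_smul_left, bet_hat_self hp, hvp, hop']
          ring
        rw [this]
        nlinarith
  · obtain ⟨b, hb⟩ := sec_of_sq_one hp hvv hww hvp hwp hg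
    have hwsec : sec w = sec (v + b • hat p) := by
      rcases hb with hb | hb
      · rw [hb]
      · rw [hb, sec_neg]
    have hb0 : b ≠ 0 := by
      rintro rfl
      apply hAB
      apply Subtype.ext
      rw [hB, hA, hwsec]; simp
    exact ⟨v, b, hvv, hvp, hb0, hA, by rw [hB, hwsec]⟩

/-- The discs through the tangency point. -/
theorem mem_iff_of_GT [FiniteDimensional ℝ E] (hn : 3 ≤ Module.finrank ℝ E) {A B : Disc E}
    {p : E} (hp : ‖p‖ = 1) (h : GT A B p) (C : Disc E) :
    p ∈ C.1 ↔ ∀ D, Pen A B D → Mt C D := by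
  have hne := GT_ne hp h
  obtain ⟨v, b, hvv, hvp, hb, hA, hB⟩ := h
  obtain ⟨c, hcc, hC⟩ := exists_rep C
  have hcc0 : 0 < bet c c := by rw [hcc]; norm_num
  have hvv0 : 0 < bet v v := by rw [hvv]; norm_num
  constructor
  · rintro hpC D ⟨hDB, hsep⟩
    refine ⟨p, hpC, ?_⟩
    obtain ⟨z, hzz, hD⟩ := exists_rep D
    have hzz0 : 0 < bet z z := by rw [hzz]; norm_num
    have hw0 : 0 < bet (v + b • hat p) (v + b • hat p) := by
      rw [bet_add_hat hp hvp, hvv]; norm_num
    have hDB' := hDB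
    unfold Mt at hDB'
    rw [hD, hB] at hDB'
    obtain ⟨y, hy, hzy, hwy⟩ := sphere_pt hn hDB'
    have hvy : bet v (hat y) = 0 := by
      by_contra hne'
      obtain ⟨e, he, h1, h2, h3⟩ := small_sphere hy hw0 hzz0 hne' hwy hzy
      refine hsep (mk e he) ?_ ⟨?_, ?_⟩
      · rw [Mt_iff (mk_val e he) hA he hvv0]; exact not_le.mpr h1
      · rw [Mt_iff (mk_val e he) hB he hw0]; exact h2
      · rw [Mt_iff (mk_val e he) hD he hzz0]; exact h3
    have hyp : y = p := hne y hy (by rw [hA, mem_sec_of_norm hy]; exact hvy)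
      (by rw [hB, mem_sec_of_norm hy]; exact hwy)
    rw [hyp] at hzy
    rw [hD, mem_sec_of_norm hp]; exact hzy
  · intro hall
    by_contra hpC
    rw [hC, mem_sec_of_norm hp] at hpC
    -- choose s large
    obtain ⟨s, hs0, hs⟩ : ∃ s : ℝ, 0 ≤ s ∧
        1 < (bet c v + (-(s * b)) * bet c (hat p)) ^ 2 := by
      obtain ⟨k, hk⟩ : ∃ k, k = b * bet c (hat p) := ⟨_, rfl⟩
      have hk0 : k ≠ 0 := by rw [hk]; exact mul_ne_zero hb hpC
      refine ⟨(2 + |bet c v|) / |k|, by positivity, ?_⟩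
      have h1 : |(2 + |bet c v|) / |k| * k| = 2 + |bet c v| := by
        rw [abs_mul, abs_div, abs_abs, abs_of_pos (by positivity : 0 < 2 + |bet c v|)]
        field_simp
      have h2 : bet c v + (-((2 + |bet c v|) / |k| * b)) * bet c (hat p) =
          bet c v - (2 + |bet c v|) / |k| * k := by
        rw [hk]; ring
      rw [h2, one_lt_sq_iff_one_lt_abs]
      have h3 := abs_sub_abs_le_abs_sub ((2 + |bet c v|) / |k| * k) (bet c v)
      rw [h1, abs_sub_comm] at h3
      linarith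
    have hpos : 0 < bet (v + (-(s * b)) • hat p) (v + (-(s * b)) • hat p) := by
      rw [bet_add_hat hp hvp, hvv]; norm_num
    have h1 := hall (mk _ hpos) (Pen_of_GT hp hvv hvp hA hB hs0 (mk_val _ hpos))
    rw [Mt_iff hC (mk_val _ hpos) hcc0 hpos, bet_add_hat hp hvp, hvv, hcc, bet_add_right,
      bet_smul_right] at h1
    linarith

/-- A bijection preserving the intersection relation induces a point map. -/
theorem point_map [FiniteDimensional ℝ E] (hn : 3 ≤ Module.finrank ℝ E)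
    (f : Disc E ≃ Disc E) (hf : ∀ A B, Mt (f A) (f B) ↔ Mt A B) {p : E} (hp : ‖p‖ = 1) :
    ∃ q : E, ‖q‖ = 1 ∧ ∀ C : Disc E, p ∈ C.1 ↔ q ∈ (f C).1 := by
  have hPen : ∀ A B D, Pen (f A) (f B) (f D) ↔ Pen A B D := by
    intro A B D
    unfold Pen
    rw [hf]
    refine and_congr_right fun _ => ?_
    constructor
    · intro h X hX hX2
      exact h (f X) (by rwa [hf]) ⟨by rw [hf]; exact hX2.1, by rw [hf]; exact hX2.2⟩
    · intro h X hX hX2
      obtain ⟨Y, rfl⟩ := f.surjective X
      rw [hf] at hX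
      rw [hf, hf] at hX2
      exact h Y hX hX2
  have hTan : ∀ A B, Tan A B → Tan (f A) (f B) := by
    rintro A B ⟨h1, D, h2, h3⟩
    exact ⟨fun h => h1 (f.injective h), f D, fun h => h2 (f.injective h), (hPen _ _ _).mpr h3⟩
  obtain ⟨A, B, hAB⟩ := exists_GT hn hp
  obtain ⟨q, hq, hGT⟩ := GT_of_Tan hn (hTan A B (Tan_of_GT hp hAB))
  refine ⟨q, hq, fun C => ?_⟩
  rw [mem_iff_of_GT hn hp hAB, mem_iff_of_GT hn hq hGT]
  constructor
  · intro h D hD
    obtain ⟨D', rfl⟩ := f.surjective D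
    rw [hf]
    exact h D' ((hPen _ _ _).mp hD)
  · intro h D hD
    rw [← hf]
    exact h (f D) ((hPen _ _ _).mpr hD)

/-- Discs separate points of the sphere. -/
theorem sep_points [FiniteDimensional ℝ E] (hn : 3 ≤ Module.finrank ℝ E) {p q : E}
    (hp : ‖p‖ = 1) (hq : ‖q‖ = 1) (h : ∀ C : Disc E, p ∈ C.1 → q ∈ C.1) : p = q := by
  obtain ⟨A, B, hAB⟩ := exists_GT hn hp
  have := GT_mem hp hAB
  exact (GT_ne hp hAB q hq (h A this.1) (h B this.2)).symm

end Pool.Agent.R767.SG
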