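import Mathlib

/-!
# A bijection of real vector spaces mapping hyperplanes to hyperplanes is linear
-/

namespace Pool.Agent.R767.SG

variable {W W' : Type*} [AddCommGroup W] [Module ℝ W] [AddCommGroup W'] [Module ℝ W']

theorem smul_of_ker_le {φ ψ : Module.Dual ℝ W} (h : ∀ x, φ x = 0 → ψ x = 0) :
    ∃ c : ℝ, ψ = c • φ := by
  by_cases hφ : φ = 0
  · refine ⟨0, ?_⟩
    ext x
    rw [h x (by rw [hφ]; rfl)]; simp
  · obtain ⟨x, hx⟩ : ∃ x, φ x ≠ 0 := by
      by_contra hcon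
      push Not at hcon
      exact hφ (LinearMap.ext hcon)
    refine ⟨ψ x / φ x, ?_⟩
    ext y
    have h1 : ψ (y - (φ y / φ x) • x) = 0 := by
      apply h
      rw [map_sub, map_smul, smul_eq_mul, div_mul_cancel₀ _ hx, sub_self]
    rw [map_sub, map_smul, smul_eq_mul, sub_eq_zero] at h1
    rw [h1, LinearMap.smul_apply, smul_eq_mul]
    field_simp

theorem hyper_param (Ψ : W ≃ W') (h0 : Ψ 0 = 0)
    (h1 : ∀ φ : Module.Dual ℝ W, φ ≠ 0 → ∀ t : ℝ, ∃ ψ : Module.Dual ℝ W', ψ ≠ 0 ∧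
      ∃ t', ∀ y, φ y = t ↔ ψ (Ψ y) = t') (φ : Module.Dual ℝ W) (hφ : φ ≠ 0) :
    ∃ ψ : Module.Dual ℝ W', ψ ≠ 0 ∧ ∃ H : ℝ → ℝ, ∀ y t, φ y = t ↔ ψ (Ψ y) = H t := by
  obtain ⟨ψ0, hψ0, t0, ht0⟩ := h1 φ hφ 0
  have ht00 : t0 = 0 := by
    have := (ht0 0).mp (map_zero _)
    rw [h0, map_zero] at this
    exact this.symm
  rw [ht00] at ht0
  refine ⟨ψ0, hψ0, ?_⟩
  have key : ∀ t : ℝ, ∃ s : ℝ, ∀ y, φ y = t ↔ ψ0 (Ψ y) = s := by
    intro t
    by_cases ht : t = 0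
    · exact ⟨0, fun y => by rw [ht]; exact ht0 y⟩
    · obtain ⟨ψ, hψ, t', ht'⟩ := h1 φ hφ t
      obtain ⟨c, hc⟩ : ∃ c : ℝ, ψ = c • ψ0 := by
        apply smul_of_ker_le
        intro z hz
        by_contra hne
        obtain ⟨y, hy⟩ := Ψ.surjective ((t' / ψ z) • z)
        have e1 : ψ0 (Ψ y) = 0 := by rw [hy, map_smul, hz]; simp
        have e2 : ψ (Ψ y) = t' := by
          rw [hy, map_smul, smul_eq_mul, div_mul_cancel₀ _ hne]
        have e3 := (ht0 y).mpr e1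
        have e4 := (ht' y).mpr e2
        exact ht (by rw [← e4, e3])
      have hc0 : c ≠ 0 := by
        rintro rfl
        exact hψ (by rw [hc, zero_smul])
      refine ⟨t' / c, fun y => ?_⟩
      rw [ht' y, hc, LinearMap.smul_apply, smul_eq_mul, eq_div_iff hc0, mul_comm]
  choose H hH using key
  exact ⟨H, fun y t => hH t y⟩

/-- The additive relation for three functionals. -/
theorem three_param (Ψ : W ≃ W')
    {φ1 φ2 φ3 : Module.Dual ℝ W} {ψ1 ψ2 ψ3 : Module.Dual ℝ W'} {H1 H2 H3 : ℝ → ℝ}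
    (g1 : ∀ y t, φ1 y = t ↔ ψ1 (Ψ y) = H1 t) (g2 : ∀ y t, φ2 y = t ↔ ψ2 (Ψ y) = H2 t)
    (g3 : ∀ y t, φ3 y = t ↔ ψ3 (Ψ y) = H3 t) (z1 : H1 0 = 0) (z2 : H2 0 = 0) (z3 : H3 0 = 0)
    {x x' : W} (a1 : φ1 x = 1) (a2 : φ1 x' = 0) (a3 : φ2 x = 0) (a4 : φ2 x' = 1)
    {a b : ℝ} (hφ : φ3 = a • φ1 + b • φ2) :
    ∃ α γ : ℝ, ∀ s t, H3 (a * s + b * t) = α * H1 s + γ * H2 t := by
  -- dual vectors in W'
  have i1 : H1 1 ≠ 0 := by
    intro h
    have e1 : ψ1 (Ψ x) = H1 0 := by rw [z1, ← h]; exact (g1 x 1).mp a1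
    have e2 := (g1 x 0).mpr e1
    rw [a1] at e2; norm_num at e2
  have i2 : H2 1 ≠ 0 := by
    intro h
    have e1 : ψ2 (Ψ x') = H2 0 := by rw [z2, ← h]; exact (g2 x' 1).mp a4
    have e2 := (g2 x' 0).mpr e1
    rw [a4] at e2; norm_num at e2
  have b1 : ψ1 (Ψ x) = H1 1 := (g1 x 1).mp a1
  have b2 : ψ1 (Ψ x') = 0 := by rw [← z1]; exact (g1 x' 0).mp a2
  have b3 : ψ2 (Ψ x) = 0 := by rw [← z2]; exact (g2 x 0).mp a3
  have b4 : ψ2 (Ψ x') = H2 1 := (g2 x' 1).mp a4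
  have hker : ∀ z : W', ψ1 z = 0 → ψ2 z = 0 → ψ3 z = 0 := by
    intro z hz1 hz2
    obtain ⟨y, rfl⟩ := Ψ.surjective z
    have e1 := (g1 y 0).mpr (by rw [z1]; exact hz1)
    have e2 := (g2 y 0).mpr (by rw [z2]; exact hz2)
    rw [← z3]
    apply (g3 y 0).mp
    rw [hφ]
    simp [e1, e2]
  have hlin : ∀ z : W', ψ3 z = ψ3 (Ψ x) / H1 1 * ψ1 z + ψ3 (Ψ x') / H2 1 * ψ2 z := by
    intro z
    have h1 := hker (z - (ψ1 z / H1 1) • Ψ x - (ψ2 z / H2 1) • Ψ x')
      (by simp only [map_sub, map_smul, smul_eq_mul, b1, b2]; field_simp; ring)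
      (by simp only [map_sub, map_smul, smul_eq_mul, b3, b4]; field_simp; ring)
    simp only [map_sub, map_smul, smul_eq_mul] at h1
    have h2 : ψ3 z = ψ1 z / H1 1 * ψ3 (Ψ x) + ψ2 z / H2 1 * ψ3 (Ψ x') := by linarith
    rw [h2]; ring
  refine ⟨ψ3 (Ψ x) / H1 1, ψ3 (Ψ x') / H2 1, fun s t => ?_⟩
  have e1 : φ1 (s • x + t • x') = s := by simp [a1, a2]
  have e2 : φ2 (s • x + t • x') = t := by simp [a3, a4]
  have e3 : φ3 (s • x + t • x') = a * s + b * t := by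
    rw [hφ]; simp [a1, a2, a3, a4]
  rw [← (g3 _ _).mp e3, hlin, (g1 _ _).mp e1, (g2 _ _).mp e2]

/-- The parametrisation is multiplication by a constant. -/
theorem param_linear (Ψ : W ≃ W') (h0 : Ψ 0 = 0)
    (h1 : ∀ φ : Module.Dual ℝ W, φ ≠ 0 → ∀ t : ℝ, ∃ ψ : Module.Dual ℝ W', ψ ≠ 0 ∧
      ∃ t', ∀ y, φ y = t ↔ ψ (Ψ y) = t')
    (hdim : ∀ φ : Module.Dual ℝ W, φ ≠ 0 → ∃ φ' : Module.Dual ℝ W, ∃ x x' : W, φ x = 1 ∧
      φ x' = 0 ∧ φ' x = 0 ∧ φ' x' = 1) (φ : Module.Dual ℝ W) (hφ : φ ≠ 0) :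
    ∃ ψ : Module.Dual ℝ W', ψ ≠ 0 ∧ ∃ c : ℝ, ∀ y, ψ (Ψ y) = c * φ y := by
  obtain ⟨ψ, hψ, H, hH⟩ := hyper_param Ψ h0 h1 φ hφ
  refine ⟨ψ, hψ, H 1, ?_⟩
  obtain ⟨φ', x, x', a1, a2, a3, a4⟩ := hdim φ hφ
  have hφ' : φ' ≠ 0 := by
    rintro rfl
    simp at a4
  obtain ⟨ψ', hψ', H', hH'⟩ := hyper_param Ψ h0 h1 φ' hφ'
  have zero_of : ∀ (χ : Module.Dual ℝ W) (χ' : Module.Dual ℝ W') (K : ℝ → ℝ),
      (∀ y t, χ y = t ↔ χ' (Ψ y) = K t) → K 0 = 0 := by
    intro χ χ' K hK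
    have := (hK 0 0).mp (map_zero _)
    rw [h0, map_zero] at this
    exact this.symm
  have z := zero_of _ _ _ hH
  have z' := zero_of _ _ _ hH'
  have inj_of : ∀ (χ : Module.Dual ℝ W) (χ' : Module.Dual ℝ W') (K : ℝ → ℝ),
      (∀ y t, χ y = t ↔ χ' (Ψ y) = K t) → χ ≠ 0 → ∀ t, K t = 0 → t = 0 := by
    intro χ χ' K hK hχ t ht
    obtain ⟨y, hy⟩ : ∃ y, χ y ≠ 0 := by
      by_contra hcon
      push Not at hcon
      exact hχ (LinearMap.ext hcon)
    have e1 : χ ((t / χ y) • y) = t := by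
      rw [map_smul, smul_eq_mul, div_mul_cancel₀ _ hy]
    have e2 := (hK _ _).mp e1
    rw [ht, ← zero_of _ _ _ hK] at e2
    have e3 := (hK _ _).mpr e2
    rw [← e1, e3]
  -- for each a ≠ 0: relation
  have rel : ∀ a : ℝ, ∃ α γ : ℝ, α ≠ 0 ∧ γ ≠ 0 ∧ ∃ K : ℝ → ℝ, ∀ s t,
      K (a * s + 1 * t) = α * H s + γ * H' t ∨ a = 0 := by
    intro a
    by_cases ha : a = 0
    · exact ⟨1, 1, one_ne_zero, one_ne_zero, fun _ => 0, fun s t => Or.inr ha⟩
    · have hne : a • φ + (1 : ℝ) • φ' ≠ 0 := by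
        intro h
        have := LinearMap.congr_fun h x'
        simp [a2, a4] at this
      obtain ⟨ψ3, hψ3, H3, hH3⟩ := hyper_param Ψ h0 h1 _ hne
      obtain ⟨α, γ, hαγ⟩ := three_param Ψ hH hH' hH3 z z' (zero_of _ _ _ hH3) a1 a2 a3 a4 rfl
      have hα : α ≠ 0 := by
        rintro rfl
        have := hαγ 1 0
        rw [z'] at this
        have h2 := inj_of _ _ _ hH3 hne (a * 1 + 1 * 0) (by rw [this]; ring)
        apply ha; linarith
      have hγ : γ ≠ 0 := by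
        rintro rfl
        have := hαγ 0 1
        rw [z] at this
        have h2 := inj_of _ _ _ hH3 hne (a * 0 + 1 * 1) (by rw [this]; ring)
        norm_num at h2
      exact ⟨α, γ, hα, hγ, H3, fun s t => Or.inl (hαγ s t)⟩
  -- a = 1
  obtain ⟨α, γ, hα, hγ, K, hK⟩ := rel 1
  have hK' : ∀ s t, K (s + t) = α * H s + γ * H' t := by
    intro s t
    rcases hK s t with h | h
    · rw [← h]; ring_nf
    · norm_num at h
  have k1 : ∀ s, K s = α * H s := by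
    intro s; have := hK' s 0; rw [z'] at this; simpa using this
  have k2 : ∀ s, K s = γ * H' s := by
    intro s; have := hK' 0 s; rw [z] at this; simpa using this
  have hadd : ∀ s t, H (s + t) = H s + H t := by
    intro s t
    have e := hK' s t
    rw [← k2, k1, k1] at e
    have : α * (H (s + t) - (H s + H t)) = 0 := by linarith
    rcases mul_eq_zero.mp this with h | h
    · exact absurd h hα
    · linarith
  have hH'eq : ∀ s, H' s = α / γ * H s := by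
    intro s
    have e := k1 s
    rw [k2 s] at e
    field_simp
    linarith
  have hH1 : H 1 ≠ 0 := fun h => one_ne_zero (inj_of _ _ _ hH hφ 1 h)
  have hmul : ∀ a s, H (a * s) * H 1 = H a * H s := by
    intro a s
    by_cases ha : a = 0
    · rw [ha, zero_mul, z]; ring
    · obtain ⟨α', γ', hα', hγ', K', hK2⟩ := rel a
      have hK3 : ∀ s t, K' (a * s + t) = α' * H s + γ' * H' t := by
        intro s t
        rcases hK2 s t with h | h
        · rw [← h]; ring_nf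
        · exact absurd h ha
      have m1 : ∀ s, K' (a * s) = α' * H s := by
        intro s; have := hK3 s 0; rw [z'] at this; simpa using this
      have m2 : ∀ s, K' s = γ' * H' s := by
        intro s; have := hK3 0 s; rw [z] at this; simpa using this
      have m3 : ∀ s, α' * H s = γ' * (α / γ * H (a * s)) := by
        intro s; rw [← m1, m2, hH'eq]
      have n1 := m3 s
      have n2 := m3 1
      rw [mul_one] at n2
      have hc : γ' * (α / γ) ≠ 0 := mul_ne_zero hγ' (div_ne_zero hα hγ)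
      have n3 : γ' * (α / γ) * (H (a * s) * H 1) = γ' * (α / γ) * (H a * H s) := by
        calc γ' * (α / γ) * (H (a * s) * H 1) = (γ' * (α / γ * H (a * s))) * H 1 := by ring
          _ = α' * H s * H 1 := by rw [← n1]
          _ = (α' * H 1) * H s := by ring
          _ = (γ' * (α / γ * H a)) * H s := by rw [n2]
          _ = _ := by ring
      exact mul_left_cancel₀ hc n3
  -- ring homomorphism
  let θ : ℝ →+* ℝ :=
    { toFun := fun s => H s / H 1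
      map_one' := div_self hH1
      map_mul' := by
        intro a s
        show H (a * s) / H 1 = H a / H 1 * (H s / H 1)
        have := hmul a s
        field_simp
        linarith
      map_zero' := by show H 0 / H 1 = 0; rw [z, zero_div]
      map_add' := by
        intro s t
        show H (s + t) / H 1 = H s / H 1 + H t / H 1
        rw [hadd]; ring }
  have hθ : ∀ s, H s / H 1 = s := by
    intro s
    have : θ = RingHom.id ℝ := Subsingleton.elim _ _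
    have := RingHom.congr_fun this s
    exact this
  intro y
  have := (hH y (φ y)).mp rfl
  rw [this]
  have h3 := hθ (φ y)
  field_simp at h3
  linarith

theorem HB (Ψ : W ≃ W') (h0 : Ψ 0 = 0)
    (h1 : ∀ φ : Module.Dual ℝ W, φ ≠ 0 → ∀ t : ℝ, ∃ ψ : Module.Dual ℝ W', ψ ≠ 0 ∧
      ∃ t', ∀ y, φ y = t ↔ ψ (Ψ y) = t')
    (h2 : ∀ ψ : Module.Dual ℝ W', ψ ≠ 0 → ∃ φ : Module.Dual ℝ W, φ ≠ 0 ∧
      ∃ t, ∀ y, φ y = t ↔ ψ (Ψ y) = 0)
    (hdim : ∀ φ : Module.Dual ℝ W, φ ≠ 0 → ∃ φ' : Module.Dual ℝ W, ∃ x x' : W, φ x = 1 ∧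
      φ x' = 0 ∧ φ' x = 0 ∧ φ' x' = 1) :
    ∃ T : W →ₗ[ℝ] W', ∀ y, T y = Ψ y := by
  have all : ∀ ψ' : Module.Dual ℝ W', ∃ χ : Module.Dual ℝ W, ∀ y, ψ' (Ψ y) = χ y := by
    intro ψ'
    by_cases hψ' : ψ' = 0
    · exact ⟨0, fun y => by rw [hψ']; rfl⟩
    · obtain ⟨φ, hφ, t, ht⟩ := h2 ψ' hψ'
      have ht0 : t = 0 := by
        have := (ht 0).mpr (by rw [h0, map_zero])
        rw [map_zero] at this
        exact this.symm
      rw [ht0] at ht
      obtain ⟨ψ, hψ, c, hc⟩ := param_linear Ψ h0 h1 hdim φ hφ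
      have : ∀ z, ψ z = 0 → ψ' z = 0 := by
        intro z hz
        obtain ⟨y, rfl⟩ := Ψ.surjective z
        rw [hc] at hz
        rcases mul_eq_zero.mp hz with h | h
        · exfalso
          apply hψ
          ext z'
          obtain ⟨y', rfl⟩ := Ψ.surjective z'
          rw [hc, h]; simp
        · exact (ht y).mp h
      obtain ⟨d, hd⟩ := smul_of_ker_le this
      refine ⟨(d * c) • φ, fun y => ?_⟩
      rw [hd]
      simp only [LinearMap.smul_apply, smul_eq_mul, hc]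
      ring
  have ext' : ∀ z z' : W', (∀ ψ : Module.Dual ℝ W', ψ z = ψ z') → z = z' := by
    intro z z' h
    have h3 : z - z' = 0 := by
      apply (Module.forall_dual_apply_eq_zero_iff ℝ (z - z')).mp
      intro ψ
      rw [map_sub, h ψ, sub_self]
    exact sub_eq_zero.mp h3
  refine ⟨{ toFun := Ψ, map_add' := ?_, map_smul' := ?_ }, fun y => rfl⟩
  · intro a b
    apply ext'
    intro ψ
    obtain ⟨χ, hχ⟩ := all ψ
    rw [LinearMap.map_add ψ, hχ, hχ, hχ, LinearMap.map_add χ]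
  · intro r a
    apply ext'
    intro ψ
    obtain ⟨χ, hχ⟩ := all ψ
    rw [RingHom.id_apply, LinearMap.map_smul ψ, hχ, hχ, LinearMap.map_smul χ]

end Pool.Agent.R767.SG
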