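import Pool.Agent.R767.SG3
import Pool.Agent.R767.SG4

/-!
# Sphere-preserving bijections of the sphere lift to linear maps
-/

namespace Pool.Agent.R767.SG

open Metric

variable {E : Type*} [NormedAddCommGroup E] [InnerProductSpace ℝ E]

/-- unit sphere -/
abbrev S (E : Type*) [NormedAddCommGroup E] : Type _ := {p : E // ‖p‖ = 1}

/-- `F` maps discs to discs in both directions (on the level of the sphere). -/
def SP (F : S E ≃ S E) : Prop :=
  (∀ C : Disc E, ∃ C' : Disc E, ∀ p : S E, (p : E) ∈ C.1 ↔ (F p : E) ∈ C'.1) ∧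
  (∀ C' : Disc E, ∃ C : Disc E, ∀ p : S E, (p : E) ∈ C.1 ↔ (F p : E) ∈ C'.1)

section chart

variable {p0 : E} (hp0 : ‖p0‖ = 1)

/-- The chart space. -/
noncomputable abbrev WW (p0 : E) : Submodule ℝ E := (Submodule.span ℝ {p0})ᗮ

theorem inner_WW (y : WW p0) : inner ℝ p0 (y : E) = 0 :=
  (Submodule.mem_orthogonal _ _).mp y.2 _ (Submodule.mem_span_singleton_self p0)

theorem mem_WW {x : E} (h : inner ℝ p0 x = 0) : x ∈ WW p0 := by
  rw [Submodule.mem_orthogonal]
  intro u hu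
  obtain ⟨c, rfl⟩ := Submodule.mem_span_singleton.mp hu
  rw [inner_smul_left, h, mul_zero]

/-- null vector of a chart point -/
noncomputable def nul (y : WW p0) : E × ℝ := ((2 : ℝ) • (y : E) + (‖y‖ ^ 2 - 1) • p0, ‖y‖ ^ 2 + 1)

theorem nul_pos (y : WW p0) : 0 < ‖y‖ ^ 2 + 1 := by positivity

include hp0 in
theorem norm_aux (y : WW p0) : ‖(2 : ℝ) • (y : E) + (‖y‖ ^ 2 - 1) • p0‖ ^ 2 =
    (‖y‖ ^ 2 + 1) ^ 2 := by
  rw [← real_inner_self_eq_norm_sq, inner_add_left, inner_add_right, inner_add_right,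
    inner_smul_left, inner_smul_right, inner_smul_left, inner_smul_right, inner_smul_left,
    inner_smul_right, inner_smul_left, inner_smul_right, real_inner_comm p0 (y : E), inner_WW,
    real_inner_self_eq_norm_sq, real_inner_self_eq_norm_sq, hp0]
  simp only [conj_trivial, Submodule.coe_norm]
  ring

/-- the point of the sphere with given chart coordinate -/
noncomputable def pt (y : WW p0) : S E :=
  ⟨(‖y‖ ^ 2 + 1)⁻¹ • ((2 : ℝ) • (y : E) + (‖y‖ ^ 2 - 1) • p0), by
    have h1 := norm_aux hp0 y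
    have h2 := nul_pos y
    have h3 : ‖(2 : ℝ) • (y : E) + (‖y‖ ^ 2 - 1) • p0‖ = ‖y‖ ^ 2 + 1 := by
      have h4 := norm_nonneg ((2 : ℝ) • (y : E) + (‖y‖ ^ 2 - 1) • p0)
      nlinarith
    rw [norm_smul, h3, norm_inv, Real.norm_of_nonneg h2.le, inv_mul_cancel₀ h2.ne']⟩

theorem nul_eq (y : WW p0) : nul y = (‖y‖ ^ 2 + 1) • hat (pt hp0 y : E) := by
  have h2 := nul_pos y
  ext
  · simp only [nul, hat, pt, Prod.smul_mk]
    rw [smul_smul, mul_inv_cancel₀ h2.ne', one_smul]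
  · simp [nul, hat]

theorem hat_pt_eq (y : WW p0) : hat (pt hp0 y : E) = (‖y‖ ^ 2 + 1)⁻¹ • nul y := by
  have h2 := nul_pos y
  rw [nul_eq hp0, smul_smul, inv_mul_cancel₀ h2.ne', one_smul]

theorem mem_pt_iff (C : Disc E) (v : E × ℝ) (hC : C.1 = sec v) (y : WW p0) :
    (pt hp0 y : E) ∈ C.1 ↔ bet v (nul y) = 0 := by
  rw [hC, mem_sec_of_norm (pt hp0 y).2, nul_eq hp0, bet_smul_right]
  have h2 := nul_pos y
  constructor
  · intro h; rw [h, mul_zero]
  · intro h
    rcases mul_eq_zero.mp h with h | h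
    · exact absurd h h2.ne'
    · exact h

theorem bet_nul (v : E × ℝ) (y : WW p0) : bet v (nul y) =
    2 * inner ℝ v.1 (y : E) + (‖y‖ ^ 2 - 1) * inner ℝ v.1 p0 - v.2 * (‖y‖ ^ 2 + 1) := by
  simp only [bet, nul, inner_add_right, inner_smul_right]

theorem inner_pt (y : WW p0) : inner ℝ p0 (pt hp0 y : E) = (‖y‖ ^ 2 - 1) / (‖y‖ ^ 2 + 1) := by
  simp only [pt]
  rw [inner_smul_right, inner_add_right, inner_smul_right, inner_smul_right, inner_WW,
    real_inner_self_eq_norm_sq, hp0]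
  have h2 := nul_pos y
  field_simp
  ring

theorem pt_ne (y : WW p0) : pt hp0 y ≠ ⟨p0, hp0⟩ := by
  intro h
  have h1 := inner_pt hp0 y
  rw [h] at h1
  have h3 : inner ℝ p0 p0 = (1 : ℝ) := by rw [real_inner_self_eq_norm_sq, hp0]; norm_num
  simp only at h1
  rw [h3] at h1
  have h2 := nul_pos y
  field_simp at h1
  linarith

/-- chart coordinate of a point -/
noncomputable def chart (p : S E) : WW p0 :=
  ⟨(1 - inner ℝ p0 (p : E))⁻¹ • ((p : E) - (inner ℝ p0 (p : E) : ℝ) • p0), by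
    apply Submodule.smul_mem
    apply mem_WW
    rw [inner_sub_right, inner_smul_right, real_inner_self_eq_norm_sq, hp0]; ring⟩

theorem chart_pt (y : WW p0) : chart hp0 (pt hp0 y) = y := by
  apply Subtype.ext
  simp only [chart]
  rw [inner_pt]
  have h2 := nul_pos y
  have h3 : (1 - (‖y‖ ^ 2 - 1) / (‖y‖ ^ 2 + 1))⁻¹ = (‖y‖ ^ 2 + 1) / 2 := by
    have : 1 - (‖y‖ ^ 2 - 1) / (‖y‖ ^ 2 + 1) = 2 / (‖y‖ ^ 2 + 1) := by field_simp; ring
    rw [this, inv_div]
  rw [h3]
  simp only [pt]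
  rw [smul_sub, smul_smul, smul_add, smul_smul, smul_smul, smul_smul]
  have e1 : (‖y‖ ^ 2 + 1) / 2 * (‖y‖ ^ 2 + 1)⁻¹ * 2 = 1 := by field_simp
  have e2 : (‖y‖ ^ 2 + 1) / 2 * (‖y‖ ^ 2 + 1)⁻¹ * (‖y‖ ^ 2 - 1) =
    (‖y‖ ^ 2 + 1) / 2 * ((‖y‖ ^ 2 - 1) / (‖y‖ ^ 2 + 1)) := by field_simp
  rw [e1, e2, one_smul, add_sub_cancel_right]

theorem pt_chart (p : S E) (hp : p ≠ ⟨p0, hp0⟩) : pt hp0 (chart hp0 p) = p := by
  obtain ⟨p, hpn⟩ := p
  have hne : (inner ℝ p0 p : ℝ) ≠ 1 := by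
    intro h
    exact hp (Subtype.ext ((inner_eq_one_iff_of_norm_eq_one hp0 hpn).mp h).symm)
  have hlt : (inner ℝ p0 p : ℝ) < 1 := by
    refine lt_of_le_of_ne ?_ hne
    have := real_inner_le_norm p0 p
    rwa [hp0, hpn, one_mul] at this
  obtain ⟨a, ha⟩ : ∃ a : ℝ, a = inner ℝ p0 p := ⟨_, rfl⟩
  have ha1 : 1 - a ≠ 0 := by rw [ha]; linarith
  have hnorm : ‖chart hp0 ⟨p, hpn⟩‖ ^ 2 = (1 + a) / (1 - a) := by
    rw [Submodule.coe_norm]
    simp only [chart]
    rw [← ha, ← real_inner_self_eq_norm_sq, inner_smul_left, inner_smul_right, inner_sub_left,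
      inner_sub_right, inner_sub_right, inner_smul_left, inner_smul_right, inner_smul_left,
      inner_smul_right, real_inner_comm p0 p, ← ha, real_inner_self_eq_norm_sq,
      real_inner_self_eq_norm_sq, hp0, hpn]
    simp only [conj_trivial]
    field_simp
    ring
  apply Subtype.ext
  simp only [pt]
  rw [hnorm]
  have e1 : ((1 + a) / (1 - a) + 1)⁻¹ = (1 - a) / 2 := by
    have : (1 + a) / (1 - a) + 1 = 2 / (1 - a) := by field_simp; ring
    rw [this, inv_div]
  rw [e1]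
  simp only [chart]
  rw [← ha, smul_add, smul_smul, smul_smul, smul_smul]
  have e2 : (1 - a) / 2 * 2 * (1 - a)⁻¹ = 1 := by field_simp
  have e3 : (1 - a) / 2 * ((1 + a) / (1 - a) - 1) = a := by field_simp; ring
  rw [e3, e2, one_smul, sub_add_cancel]

/-- Discs through `p0` are hyperplanes in the chart. -/
theorem hyper_of_disc (C : Disc E) (hC : p0 ∈ C.1) : ∃ w : WW p0, w ≠ 0 ∧ ∃ t : ℝ,
    ∀ y : WW p0, (pt hp0 y : E) ∈ C.1 ↔ inner ℝ w y = t := by
  obtain ⟨v, hvv, hv⟩ := exists_rep C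
  rw [hv, mem_sec_of_norm hp0, bet_hat] at hC
  have hv2 : inner ℝ v.1 p0 = v.2 := by linarith
  have hmem : v.1 - v.2 • p0 ∈ WW p0 := by
    apply mem_WW
    rw [inner_sub_right, inner_smul_right, real_inner_self_eq_norm_sq, hp0, real_inner_comm, hv2]
    ring
  refine ⟨⟨v.1 - v.2 • p0, hmem⟩, ?_, v.2, ?_⟩
  · intro h
    have h1 : v.1 - v.2 • p0 = 0 := congrArg Subtype.val h
    have h2 : v.1 = v.2 • p0 := sub_eq_zero.mp h1
    have : bet v v = 0 := by
      unfold bet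
      rw [h2, inner_smul_left, inner_smul_right, real_inner_self_eq_norm_sq, hp0]
      simp
    rw [this] at hvv; norm_num at hvv
  · intro y
    have key : inner ℝ (⟨v.1 - v.2 • p0, hmem⟩ : WW p0) y = inner ℝ v.1 (y : E) := by
      rw [Submodule.coe_inner]
      simp only
      rw [inner_sub_left, inner_smul_left, inner_WW]
      simp
    rw [key, mem_pt_iff hp0 C v hv y, bet_nul, hv2]
    constructor <;> intro h <;> linarith

/-- Hyperplanes of the chart are discs through `p0`. -/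
theorem disc_of_hyper (w : WW p0) (hw : w ≠ 0) (t : ℝ) : ∃ C : Disc E, p0 ∈ C.1 ∧
    ∀ y : WW p0, (pt hp0 y : E) ∈ C.1 ↔ inner ℝ w y = t := by
  have hwp : inner ℝ (w : E) p0 = 0 := by rw [real_inner_comm]; exact inner_WW w
  have hpos : 0 < bet ((w : E) + t • p0, t) ((w : E) + t • p0, t) := by
    simp only [bet]
    rw [inner_add_left, inner_add_right, inner_add_right, inner_smul_left, inner_smul_right,
      inner_smul_left, inner_smul_right, hwp, inner_WW, real_inner_self_eq_norm_sq,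
      real_inner_self_eq_norm_sq, hp0]
    simp only [conj_trivial]
    have : 0 < ‖(w : E)‖ := by
      rw [norm_pos_iff]; exact fun h => hw (Subtype.ext h)
    have : 0 < ‖(w : E)‖ ^ 2 := by positivity
    nlinarith
  refine ⟨mk _ hpos, ?_, fun y => ?_⟩
  · rw [mk_val, mem_sec_of_norm hp0, bet_hat]
    simp only
    rw [inner_add_left, inner_smul_left, hwp, real_inner_self_eq_norm_sq, hp0]
    simp
  · rw [mem_pt_iff hp0 _ _ (mk_val _ hpos) y, bet_nul, Submodule.coe_inner]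
    simp only
    rw [inner_add_left, inner_add_left, inner_smul_left, inner_smul_left, hwp, inner_WW,
      real_inner_self_eq_norm_sq, hp0]
    simp only [conj_trivial]
    constructor <;> intro h <;> linarith

end chart

end Pool.Agent.R767.SG
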