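import Pool.Agent.R767.SG5

/-!
# The linear lift of a disc-preserving bijection of the sphere
-/

namespace Pool.Agent.R767.SG

open Metric

variable {E : Type*} [NormedAddCommGroup E] [InnerProductSpace ℝ E]

theorem exists_orth2 [FiniteDimensional ℝ E] (hn : 3 ≤ Module.finrank ℝ E) (a b : E) :
    ∃ z : E, z ≠ 0 ∧ inner ℝ a z = 0 ∧ inner ℝ b z = 0 := by
  set K : Submodule ℝ E := Submodule.span ℝ {a, b} with hK
  have h1 : Module.finrank ℝ K ≤ 2 := by
    classical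
    have h3 := finrank_span_finset_le_card (R := ℝ) ({a, b} : Finset E)
    have h2 : (({a, b} : Finset E) : Set E) = {a, b} := by simp
    rw [h2] at h3
    exact (show Module.finrank ℝ K ≤ _ from h3).trans (Finset.card_le_two)
  have h2 := K.finrank_add_finrank_orthogonal
  have h3 : Kᗮ ≠ ⊥ := by
    intro hbot
    rw [hbot, finrank_bot] at h2
    omega
  obtain ⟨z, hz, hz0⟩ := Submodule.exists_mem_ne_zero_of_ne_bot h3
  refine ⟨z, hz0, ?_, ?_⟩
  · exact (Submodule.mem_orthogonal _ _).mp hz _ (Submodule.subset_span (by simp))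
  · exact (Submodule.mem_orthogonal _ _).mp hz _ (Submodule.subset_span (by simp))

theorem riesz {W : Type*} [NormedAddCommGroup W] [InnerProductSpace ℝ W] [FiniteDimensional ℝ W]
    (φ : Module.Dual ℝ W) : ∃ w : W, ∀ y, φ y = inner ℝ w y := by
  have : CompleteSpace W := FiniteDimensional.complete ℝ W
  refine ⟨(InnerProductSpace.toDual ℝ W).symm (LinearMap.toContinuousLinearMap φ), fun y => ?_⟩
  rw [InnerProductSpace.toDual_symm_apply]
  rfl

/-- The affine part of the lift. -/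
theorem chart_affine [FiniteDimensional ℝ E] (hn : 3 ≤ Module.finrank ℝ E) (F : S E ≃ S E)
    (hF : SP F) {p0 : E} (hp0 : ‖p0‖ = 1) (hfix : F ⟨p0, hp0⟩ = ⟨p0, hp0⟩) :
    ∃ Ψ : WW p0 ≃ WW p0, (∀ y, pt hp0 (Ψ y) = F (pt hp0 y)) ∧
      ∃ T : WW p0 →ₗ[ℝ] WW p0, ∀ y, Ψ y = T y + Ψ 0 := by
  have hfix' : F.symm ⟨p0, hp0⟩ = ⟨p0, hp0⟩ := by rw [Equiv.symm_apply_eq]; exact hfix.symm
  have h1 : ∀ y, F (pt hp0 y) ≠ ⟨p0, hp0⟩ := by
    intro y h
    apply pt_ne hp0 y
    apply F.injective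
    rw [h, hfix]
  have h2 : ∀ y, F.symm (pt hp0 y) ≠ ⟨p0, hp0⟩ := by
    intro y h
    apply pt_ne hp0 y
    rw [← F.apply_symm_apply (pt hp0 y), h, hfix]
  let Ψ : WW p0 ≃ WW p0 :=
    { toFun := fun y => chart hp0 (F (pt hp0 y))
      invFun := fun y => chart hp0 (F.symm (pt hp0 y))
      left_inv := by
        intro y
        show chart hp0 (F.symm (pt hp0 (chart hp0 (F (pt hp0 y))))) = y
        rw [pt_chart hp0 _ (h1 y), Equiv.symm_apply_apply, chart_pt]
      right_inv := by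
        intro y
        show chart hp0 (F (pt hp0 (chart hp0 (F.symm (pt hp0 y))))) = y
        rw [pt_chart hp0 _ (h2 y), Equiv.apply_symm_apply, chart_pt] }
  have hΨ : ∀ y, pt hp0 (Ψ y) = F (pt hp0 y) := fun y => pt_chart hp0 _ (h1 y)
  refine ⟨Ψ, hΨ, ?_⟩
  obtain ⟨b, hb⟩ : ∃ b, b = Ψ 0 := ⟨_, rfl⟩
  have hmain : ∃ T : WW p0 →ₗ[ℝ] WW p0, ∀ y, T y = (Ψ.trans (Equiv.subRight b)) y := by
    apply HB
    · simp [← hb]
    · intro φ hφ t
      obtain ⟨w, hw⟩ := riesz φ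
      have hw0 : w ≠ 0 := by
        rintro rfl
        exact hφ (LinearMap.ext fun y => by rw [hw]; simp)
      obtain ⟨C, hC0, hC⟩ := disc_of_hyper hp0 w hw0 t
      obtain ⟨C', hC'⟩ := hF.1 C
      have hC'0 : p0 ∈ C'.1 := by
        have := (hC' ⟨p0, hp0⟩).mp hC0
        rw [hfix] at this
        exact this
      obtain ⟨w', hw', t', ht'⟩ := hyper_of_disc hp0 C' hC'0
      refine ⟨innerₛₗ ℝ w', ?_, t' - inner ℝ w' b, fun y => ?_⟩
      · intro h
        have := LinearMap.congr_fun h w'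
        rw [innerₛₗ_apply_apply] at this
        simp at this
        exact hw' this
      · rw [hw, ← hC y, hC' (pt hp0 y), ← hΨ, ht', innerₛₗ_apply_apply]
        show _ ↔ inner ℝ w' (Ψ y - b) = _
        rw [inner_sub_right]
        constructor <;> intro h <;> linarith
    · intro ψ hψ
      obtain ⟨w', hw'⟩ := riesz ψ
      have hw0 : w' ≠ 0 := by
        rintro rfl
        exact hψ (LinearMap.ext fun y => by rw [hw']; simp)
      obtain ⟨C', hC0', hC'⟩ := disc_of_hyper hp0 w' hw0 (inner ℝ w' b)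
      obtain ⟨C, hC⟩ := hF.2 C'
      have hC0 : p0 ∈ C.1 := by
        apply (hC ⟨p0, hp0⟩).mpr
        rw [hfix]
        exact hC0'
      obtain ⟨w, hw, t, ht⟩ := hyper_of_disc hp0 C hC0
      refine ⟨innerₛₗ ℝ w, ?_, t, fun y => ?_⟩
      · intro h
        have := LinearMap.congr_fun h w
        rw [innerₛₗ_apply_apply] at this
        simp at this
        exact hw this
      · rw [innerₛₗ_apply_apply, ← ht, hC, ← hΨ, hC', hw']
        show _ ↔ inner ℝ w' (Ψ y - b) = _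
        rw [inner_sub_right]
        constructor <;> intro h <;> linarith
    · intro φ hφ
      obtain ⟨w, hw⟩ := riesz φ
      have hw0 : w ≠ 0 := by
        rintro rfl
        exact hφ (LinearMap.ext fun y => by rw [hw]; simp)
      obtain ⟨z, hz0, hzp, hzw⟩ := exists_orth2 hn p0 (w : E)
      obtain ⟨z', hz'⟩ : ∃ z' : WW p0, (z' : E) = z := ⟨⟨z, mem_WW hzp⟩, rfl⟩
      have hz'0 : z' ≠ 0 := by
        rintro rfl
        exact hz0 (by rw [← hz']; rfl)
      have i1 : inner ℝ w z' = 0 := by rw [Submodule.coe_inner, hz']; exact hzw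
      have i2 : inner ℝ z' w = 0 := by rw [real_inner_comm]; exact i1
      have n1 : inner ℝ w w ≠ 0 := inner_self_ne_zero.mpr hw0
      have n2 : inner ℝ z' z' ≠ 0 := inner_self_ne_zero.mpr hz'0
      refine ⟨innerₛₗ ℝ z', (inner ℝ w w : ℝ)⁻¹ • w, (inner ℝ z' z' : ℝ)⁻¹ • z', ?_, ?_, ?_, ?_⟩
      · rw [hw, inner_smul_right, inv_mul_cancel₀ n1]
      · rw [hw, inner_smul_right, i1, mul_zero]
      · rw [innerₛₗ_apply_apply, inner_smul_right, i2, mul_zero]
      · rw [innerₛₗ_apply_apply, inner_smul_right, inv_mul_cancel₀ n2]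
  obtain ⟨T, hT⟩ := hmain
  refine ⟨T, fun y => ?_⟩
  rw [hT, ← hb]
  simp

/-- The affine map is a similarity. -/
theorem chart_similar [FiniteDimensional ℝ E] (F : S E ≃ S E)
    (hF : SP F) {p0 : E} (hp0 : ‖p0‖ = 1) (hfix : F ⟨p0, hp0⟩ = ⟨p0, hp0⟩)
    (Ψ : WW p0 ≃ WW p0) (hΨ : ∀ y, pt hp0 (Ψ y) = F (pt hp0 y))
    (T : WW p0 →ₗ[ℝ] WW p0) (hT : ∀ y, Ψ y = T y + Ψ 0) :
    ∃ k : ℝ, 0 < k ∧ ∀ z, ‖T z‖ ^ 2 = k * ‖z‖ ^ 2 := by
  have heq : 0 < bet (p0, (0 : ℝ)) (p0, (0 : ℝ)) := by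
    simp [bet, hp0]
  obtain ⟨C, hC⟩ := hF.2 (mk _ heq)
  obtain ⟨v, hvv, hv⟩ := exists_rep C
  have hk : bet v (hat p0) ≠ 0 := by
    intro h
    have h1 : p0 ∈ C.1 := by rw [hv, mem_sec_of_norm hp0]; exact h
    have h2 := (hC ⟨p0, hp0⟩).mp h1
    rw [hfix, mk_val, mem_sec_of_norm hp0, bet_hat] at h2
    simp [hp0] at h2
  obtain ⟨k, hkd⟩ : ∃ k, k = bet v (hat p0) := ⟨_, rfl⟩
  rw [← hkd] at hk
  obtain ⟨a, ha⟩ : ∃ a : ℝ, a = inner ℝ v.1 p0 := ⟨_, rfl⟩
  have hka : k = a - v.2 := by rw [hkd, bet_hat, ha]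
  have hmem : v.1 - a • p0 ∈ WW p0 := by
    apply mem_WW
    rw [inner_sub_right, inner_smul_right, real_inner_self_eq_norm_sq, hp0, real_inner_comm, ← ha]
    ring
  obtain ⟨u, hu⟩ : ∃ u : WW p0, (u : E) = v.1 - a • p0 := ⟨⟨_, hmem⟩, rfl⟩
  have huy : ∀ y : WW p0, inner ℝ v.1 (y : E) = inner ℝ u y := by
    intro y
    rw [Submodule.coe_inner, hu, inner_sub_left, inner_smul_left, inner_WW]
    simp
  have huu : ‖u‖ ^ 2 + a ^ 2 - v.2 ^ 2 = 1 := by
    rw [Submodule.coe_norm, hu, ← real_inner_self_eq_norm_sq, inner_sub_left, inner_sub_right,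
      inner_sub_right, inner_smul_left, inner_smul_right, inner_smul_left, inner_smul_right,
      real_inner_comm v.1 p0, ← ha, real_inner_self_eq_norm_sq p0, hp0]
    simp only [conj_trivial]
    unfold bet at hvv
    linarith
  -- the centre
  obtain ⟨m, hm⟩ : ∃ m : WW p0, m = (-(1 / k)) • u := ⟨_, rfl⟩
  have hsphere : ∀ y : WW p0, ‖Ψ y‖ ^ 2 = 1 ↔ ‖y - m‖ ^ 2 = 1 / k ^ 2 := by
    intro y
    have e1 := hC (pt hp0 y)
    rw [← hΨ, mem_pt_iff hp0 _ _ hv, mem_pt_iff hp0 _ _ (mk_val _ heq), bet_nul, bet_nul,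
      ← ha, huy] at e1
    simp only at e1
    rw [inner_WW, real_inner_self_eq_norm_sq, hp0] at e1
    have e2 : ‖y - m‖ ^ 2 = ‖y‖ ^ 2 + 2 / k * inner ℝ u y + ‖u‖ ^ 2 / k ^ 2 := by
      rw [hm, ← real_inner_self_eq_norm_sq, inner_sub_left, inner_sub_right, inner_sub_right,
        inner_smul_left, inner_smul_right, inner_smul_left, inner_smul_right,
        real_inner_comm u y, real_inner_self_eq_norm_sq, real_inner_self_eq_norm_sq]
      simp only [conj_trivial]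
      field_simp
      ring
    have e3 : k ^ 2 * (‖y - m‖ ^ 2) - 1 = k * (2 * inner ℝ u y + (‖y‖ ^ 2 - 1) * a -
        v.2 * (‖y‖ ^ 2 + 1)) := by
      rw [e2]
      have : k ^ 2 * (‖y‖ ^ 2 + 2 / k * inner ℝ u y + ‖u‖ ^ 2 / k ^ 2) =
        k ^ 2 * ‖y‖ ^ 2 + 2 * k * inner ℝ u y + ‖u‖ ^ 2 := by field_simp
      rw [this]
      have hu2 : ‖u‖ ^ 2 = 1 - a ^ 2 + v.2 ^ 2 := by linarith
      rw [hu2, hka]; ring
    constructor
    · intro h
      have h0 := e1.mpr (by rw [h]; ring)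
      rw [h0] at e3
      field_simp
      linarith
    · intro h
      have h0 : 2 * inner ℝ u y + (‖y‖ ^ 2 - 1) * a - v.2 * (‖y‖ ^ 2 + 1) = 0 := by
        rw [h] at e3
        have : k ^ 2 * (1 / k ^ 2) - 1 = 0 := by field_simp; ring
        rw [this] at e3
        rcases mul_eq_zero.mp e3.symm with h | h
        · exact absurd h hk
        · exact h
      have := e1.mp h0
      linarith
  obtain ⟨ms, hms⟩ := Ψ.surjective 0
  have hTz : ∀ z, Ψ (ms + z) = T z := by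
    intro z
    have e1 := hT (ms + z)
    have e2 := hT ms
    rw [hms] at e2
    rw [e1, map_add]
    have : T ms + T z + Ψ 0 = T z + (T ms + Ψ 0) := by abel
    rw [this, ← e2, add_zero]
  obtain ⟨e, he⟩ : ∃ e, e = ms - m := ⟨_, rfl⟩
  have hs2 : ∀ z, ‖T z‖ ^ 2 = 1 ↔ ‖z + e‖ ^ 2 = 1 / k ^ 2 := by
    intro z
    rw [← hTz, hsphere]
    have : ms + z - m = z + e := by rw [he]; abel
    rw [this]
  obtain ⟨r, hr, hrpos⟩ : ∃ r : ℝ, r = 1 / |k| ∧ 0 < r := ⟨_, rfl, by positivity⟩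
  have hr2 : r ^ 2 = 1 / k ^ 2 := by rw [hr, div_pow, sq_abs]; ring
  have he0 : e = 0 := by
    by_contra hne
    have hepos : 0 < ‖e‖ := norm_pos_iff.mpr hne
    -- z = -(r/|e|) e - e
    have h1 : ‖(-(r / ‖e‖ + 1)) • e + e‖ ^ 2 = 1 / k ^ 2 := by
      have : (-(r / ‖e‖ + 1)) • e + e = (-(r / ‖e‖)) • e := by module
      rw [this, norm_smul, norm_neg, Real.norm_of_nonneg (by positivity), ← hr2]
      field_simp
    have h2 := (hs2 _).mpr h1
    have h3 : ‖T (-((-(r / ‖e‖ + 1)) • e))‖ ^ 2 = 1 := by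
      rw [map_neg, norm_neg]; exact h2
    have h4 := (hs2 _).mp h3
    have h5 : -((-(r / ‖e‖ + 1)) • e) + e = (r / ‖e‖ + 2) • e := by module
    rw [h5, norm_smul, Real.norm_of_nonneg (by positivity), ← hr2] at h4
    have h6 : (r / ‖e‖ + 2) * ‖e‖ = r + 2 * ‖e‖ := by field_simp
    rw [h6] at h4
    nlinarith
  rw [he0] at hs2
  simp only [add_zero] at hs2
  refine ⟨k ^ 2, by positivity, fun z => ?_⟩
  by_cases hz : z = 0
  · rw [hz, map_zero]; simp
  · have hzpos : 0 < ‖z‖ := norm_pos_iff.mpr hz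
    have h1 := (hs2 ((r / ‖z‖) • z)).mpr (by
      rw [norm_smul, Real.norm_of_nonneg (by positivity), ← hr2]
      field_simp)
    rw [map_smul, norm_smul, Real.norm_of_nonneg (by positivity), mul_pow, div_pow, hr2] at h1
    field_simp at h1
    linarith

end Pool.Agent.R767.SG
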