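import Pool.Agent.R767.SG6

/-!
# Automorphisms of the intersection relation lift to linear maps
-/

namespace Pool.Agent.R767.SG

open Metric

variable {E : Type*} [NormedAddCommGroup E] [InnerProductSpace ℝ E]

/-- the projection to the chart space -/
noncomputable def PP {p0 : E} (hp0 : ‖p0‖ = 1) : E →ₗ[ℝ] WW p0 :=
  LinearMap.codRestrict (WW p0) (LinearMap.id - (innerₛₗ ℝ p0).smulRight p0) (by
    intro x
    apply mem_WW
    simp only [LinearMap.sub_apply, LinearMap.id_apply, LinearMap.smulRight_apply,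
      innerₛₗ_apply_apply]
    rw [inner_sub_right, inner_smul_right, real_inner_self_eq_norm_sq, hp0]; ring)

theorem PP_coe {p0 : E} (hp0 : ‖p0‖ = 1) (x : E) :
    ((PP hp0 x : WW p0) : E) = x - (inner ℝ p0 x : ℝ) • p0 := by
  simp [PP]

theorem PP_nul {p0 : E} (hp0 : ‖p0‖ = 1) (y : WW p0) : PP hp0 (nul y).1 = (2 : ℝ) • y := by
  apply Subtype.ext
  rw [PP_coe]
  simp only [nul]
  rw [inner_add_right, inner_smul_right, inner_smul_right, inner_WW, real_inner_self_eq_norm_sq,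
    hp0]
  simp only [Submodule.coe_smul]
  module

theorem PP_self {p0 : E} (hp0 : ‖p0‖ = 1) : PP hp0 p0 = 0 := by
  apply Subtype.ext
  rw [PP_coe, real_inner_self_eq_norm_sq, hp0]
  simp

theorem lift_fix [FiniteDimensional ℝ E] (hn : 3 ≤ Module.finrank ℝ E) (F : S E ≃ S E)
    (hF : SP F) {p0 : E} (hp0 : ‖p0‖ = 1) (hfix : F ⟨p0, hp0⟩ = ⟨p0, hp0⟩) :
    ∃ L : (E × ℝ) →ₗ[ℝ] (E × ℝ), ∀ p : S E, ∃ ρ : ℝ, 0 < ρ ∧
      L (hat (p : E)) = ρ • hat (F p : E) := by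
  obtain ⟨Ψ, hΨ, T, hT⟩ := chart_affine hn F hF hp0 hfix
  obtain ⟨k, hk, hTk⟩ := chart_similar F hF hp0 hfix Ψ hΨ T hT
  obtain ⟨b, hb⟩ : ∃ b, b = Ψ 0 := ⟨_, rfl⟩
  rw [← hb] at hT
  let aL : (E × ℝ) →ₗ[ℝ] ℝ := (innerₛₗ ℝ p0) ∘ₗ LinearMap.fst ℝ E ℝ
  let sL : (E × ℝ) →ₗ[ℝ] ℝ := LinearMap.snd ℝ E ℝ
  let TP : (E × ℝ) →ₗ[ℝ] WW p0 := T ∘ₗ PP hp0 ∘ₗ LinearMap.fst ℝ E ℝ
  let KL : (E × ℝ) →ₗ[ℝ] ℝ := (1 / 2 : ℝ) • (sL - aL)
  let QL : (E × ℝ) →ₗ[ℝ] ℝ := (k / 2) • (aL + sL) + (innerₛₗ ℝ b) ∘ₗ TP +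
    (‖b‖ ^ 2 / 2) • (sL - aL)
  let L : (E × ℝ) →ₗ[ℝ] (E × ℝ) := LinearMap.prod
    ((WW p0).subtype ∘ₗ TP + (sL - aL).smulRight (b : E) + (QL - KL).smulRight p0) (QL + KL)
  have aLn : ∀ y : WW p0, aL (nul y) = ‖y‖ ^ 2 - 1 := by
    intro y
    show inner ℝ p0 (nul y).1 = _
    simp only [nul]
    rw [inner_add_right, inner_smul_right, inner_smul_right, inner_WW,
      real_inner_self_eq_norm_sq, hp0]
    ring
  have sLn : ∀ y : WW p0, sL (nul y) = ‖y‖ ^ 2 + 1 := fun y => rfl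
  have TPn : ∀ y : WW p0, TP (nul y) = (2 : ℝ) • T y := by
    intro y
    show T (PP hp0 (nul y).1) = _
    rw [PP_nul, map_smul]
  have QLn : ∀ y : WW p0, QL (nul y) = ‖Ψ y‖ ^ 2 := by
    intro y
    show (k / 2) * (aL (nul y) + sL (nul y)) + inner ℝ b (TP (nul y)) +
      (‖b‖ ^ 2 / 2) * (sL (nul y) - aL (nul y)) = _
    rw [aLn, sLn, TPn, hT y, inner_smul_right]
    have := norm_add_sq_real (T y) b
    rw [this, hTk, real_inner_comm b (T y)]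
    ring
  have KLn : ∀ y : WW p0, KL (nul y) = 1 := by
    intro y
    show (1 / 2 : ℝ) * (sL (nul y) - aL (nul y)) = 1
    rw [aLn, sLn]; ring
  have Ln : ∀ y : WW p0, L (nul y) = nul (Ψ y) := by
    intro y
    show ((TP (nul y) : E) + (sL (nul y) - aL (nul y)) • (b : E) +
      (QL (nul y) - KL (nul y)) • p0, QL (nul y) + KL (nul y)) = _
    rw [aLn, sLn, TPn, QLn, KLn]
    simp only [nul]
    rw [Prod.mk.injEq]
    refine ⟨?_, rfl⟩
    have e1 : (Ψ y : E) = (T y : E) + (b : E) := by rw [hT y]; rfl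
    have e2 : (((2 : ℝ) • T y : WW p0) : E) = (2 : ℝ) • (T y : E) := rfl
    have e3 : ‖y‖ ^ 2 + 1 - (‖y‖ ^ 2 - 1) = 2 := by ring
    rw [e1, e2, e3, smul_add]
  refine ⟨L, fun p => ?_⟩
  by_cases hp : p = ⟨p0, hp0⟩
  · refine ⟨k, hk, ?_⟩
    rw [hp, hfix]
    have a0 : aL (hat p0) = 1 := by
      show inner ℝ p0 p0 = (1 : ℝ)
      rw [real_inner_self_eq_norm_sq, hp0]; norm_num
    have s0 : sL (hat p0) = 1 := rfl
    have T0 : TP (hat p0) = 0 := by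
      show T (PP hp0 p0) = 0
      rw [PP_self, map_zero]
    have Q0 : QL (hat p0) = k := by
      show (k / 2) * (aL (hat p0) + sL (hat p0)) + inner ℝ b (TP (hat p0)) +
        (‖b‖ ^ 2 / 2) * (sL (hat p0) - aL (hat p0)) = _
      rw [a0, s0, T0, inner_zero_right]; ring
    have K0 : KL (hat p0) = 0 := by
      show (1 / 2 : ℝ) * (sL (hat p0) - aL (hat p0)) = 0
      rw [a0, s0]; ring
    show ((TP (hat p0) : E) + (sL (hat p0) - aL (hat p0)) • (b : E) +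
      (QL (hat p0) - KL (hat p0)) • p0, QL (hat p0) + KL (hat p0)) = _
    rw [a0, s0, T0, Q0, K0]
    simp [hat]
  · obtain ⟨y, hy⟩ : ∃ y, y = chart hp0 p := ⟨_, rfl⟩
    have hpy : pt hp0 y = p := by rw [hy]; exact pt_chart hp0 p hp
    rw [← hpy, ← hΨ]
    refine ⟨(‖y‖ ^ 2 + 1)⁻¹ * (‖Ψ y‖ ^ 2 + 1), by positivity, ?_⟩
    rw [hat_pt_eq hp0 y, map_smul, Ln, nul_eq hp0 (Ψ y), smul_smul]

/-- Linear isometries act on discs. -/
theorem disc_map (R : E ≃ₗᵢ[ℝ] E) (C : Disc E) :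
    ∃ C' : Disc E, ∀ p : E, ‖p‖ = 1 → (p ∈ C.1 ↔ R p ∈ C'.1) := by
  obtain ⟨v, hvv, hv⟩ := exists_rep C
  have h1 : 0 < bet (R v.1, v.2) (R v.1, v.2) := by
    have : bet (R v.1, v.2) (R v.1, v.2) = bet v v := by
      simp only [bet, LinearIsometryEquiv.inner_map_map]
    rw [this, hvv]; norm_num
  refine ⟨mk _ h1, fun p hp => ?_⟩
  rw [hv, mk_val, mem_sec_of_norm hp, mem_sec_of_norm (by rw [R.norm_map]; exact hp), bet_hat,
    bet_hat, LinearIsometryEquiv.inner_map_map]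

theorem lift_general [FiniteDimensional ℝ E] (hn : 3 ≤ Module.finrank ℝ E) (F : S E ≃ S E)
    (hF : SP F) :
    ∃ L : (E × ℝ) →ₗ[ℝ] (E × ℝ), ∀ p : S E, ∃ ρ : ℝ, 0 < ρ ∧
      L (hat (p : E)) = ρ • hat (F p : E) := by
  obtain ⟨p0, hp0⟩ : ∃ p : E, ‖p‖ = 1 := by
    obtain ⟨z, hz, -⟩ := exists_orth2 hn (0 : E) 0
    have hz1 : 0 < ‖z‖ := norm_pos_iff.mpr hz
    exact ⟨(‖z‖)⁻¹ • z, by rw [norm_smul, norm_inv, norm_norm, inv_mul_cancel₀ hz1.ne']⟩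
  obtain ⟨q, hq⟩ : ∃ x, x = F ⟨p0, hp0⟩ := ⟨_, rfl⟩
  let R : E ≃ₗᵢ[ℝ] E := (Submodule.span ℝ {(q : E) - p0})ᗮ.reflection
  have hR : R q = p0 := Submodule.reflection_sub (by rw [hp0, q.2])
  let RS : S E ≃ S E :=
    { toFun := fun p => ⟨R p, by rw [R.norm_map]; exact p.2⟩
      invFun := fun p => ⟨R.symm p, by rw [R.symm.norm_map]; exact p.2⟩
      left_inv := fun p => Subtype.ext (R.symm_apply_apply _)
      right_inv := fun p => Subtype.ext (R.apply_symm_apply _) }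
  have hRS : ∀ p : S E, ((RS p : S E) : E) = R p := fun p => rfl
  have hF1 : SP (F.trans RS) := by
    constructor
    · intro C
      obtain ⟨C', hC'⟩ := hF.1 C
      obtain ⟨C'', hC''⟩ := disc_map R C'
      refine ⟨C'', fun p => ?_⟩
      rw [hC' p, hC'' _ (F p).2]
      rfl
    · intro C''
      obtain ⟨C', hC'⟩ := disc_map R.symm C''
      obtain ⟨C, hC⟩ := hF.2 C'
      refine ⟨C, fun p => ?_⟩
      rw [hC p]
      have := hC' (R (F p)) (by rw [R.norm_map]; exact (F p).2)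
      rw [R.symm_apply_apply] at this
      exact this.symm
  obtain ⟨L, hL⟩ := lift_fix hn (F.trans RS) hF1 hp0 (by
    apply Subtype.ext
    show R (F ⟨p0, hp0⟩) = p0
    rw [← hq]; exact hR)
  let M : (E × ℝ) →ₗ[ℝ] (E × ℝ) :=
    LinearMap.prodMap (R.symm.toLinearEquiv : E →ₗ[ℝ] E) LinearMap.id
  refine ⟨M ∘ₗ L, fun p => ?_⟩
  obtain ⟨ρ, hρ, h⟩ := hL p
  refine ⟨ρ, hρ, ?_⟩
  rw [LinearMap.comp_apply, h, map_smul]
  congr 1
  show ((R.symm (R (F p)), (1 : ℝ)) : E × ℝ) = hat (F p : E)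
  rw [R.symm_apply_apply]
  rfl

/-- The point map of an automorphism as an equivalence, together with its lift. -/
theorem exists_lift [FiniteDimensional ℝ E] (hn : 3 ≤ Module.finrank ℝ E)
    (f : Disc E ≃ Disc E) (hf : ∀ A B, Mt (f A) (f B) ↔ Mt A B) :
    ∃ F : S E ≃ S E, (∀ (C : Disc E) (p : S E), (p : E) ∈ C.1 ↔ (F p : E) ∈ (f C).1) ∧
      ∃ L : (E × ℝ) →ₗ[ℝ] (E × ℝ), ∀ p : S E, ∃ ρ : ℝ, 0 < ρ ∧
      L (hat (p : E)) = ρ • hat (F p : E) := by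
  have hf' : ∀ A B, Mt (f.symm A) (f.symm B) ↔ Mt A B := by
    intro A B
    rw [← hf, Equiv.apply_symm_apply, Equiv.apply_symm_apply]
  have h1 : ∀ p : S E, ∃ q : S E, ∀ C : Disc E, (p : E) ∈ C.1 ↔ (q : E) ∈ (f C).1 := by
    intro p
    obtain ⟨q, hq, h⟩ := point_map hn f hf p.2
    exact ⟨⟨q, hq⟩, h⟩
  have h2 : ∀ p : S E, ∃ q : S E, ∀ C : Disc E, (p : E) ∈ C.1 ↔ (q : E) ∈ (f.symm C).1 := by
    intro p
    obtain ⟨q, hq, h⟩ := point_map hn f.symm hf' p.2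
    exact ⟨⟨q, hq⟩, h⟩
  choose F1 hF1 using h1
  choose F2 hF2 using h2
  let F : S E ≃ S E :=
    { toFun := F1
      invFun := F2
      left_inv := by
        intro p
        apply Subtype.ext
        apply sep_points hn (F2 (F1 p)).2 p.2
        intro C hC
        have e1 := hF2 (F1 p) (f C)
        rw [Equiv.symm_apply_apply] at e1
        rw [hF1 p C]
        exact e1.mpr hC
      right_inv := by
        intro p
        apply Subtype.ext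
        apply sep_points hn (F1 (F2 p)).2 p.2
        intro C hC
        have e1 := hF1 (F2 p) (f.symm C)
        rw [Equiv.apply_symm_apply] at e1
        rw [hF2 p C]
        exact e1.mpr hC }
  have hF : ∀ (C : Disc E) (p : S E), (p : E) ∈ C.1 ↔ (F p : E) ∈ (f C).1 := fun C p => hF1 p C
  refine ⟨F, hF, lift_general hn F ⟨fun C => ⟨f C, fun p => hF C p⟩, fun C' => ⟨f.symm C', ?_⟩⟩⟩
  intro p
  have := hF (f.symm C') p
  rwa [Equiv.apply_symm_apply] at this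

end Pool.Agent.R767.SG
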