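import Pool.Agent.R767.SG7

/-!
# Commuting automorphisms have commuting lifts; chains of centralizers
-/

namespace Pool.Agent.R767.SG

open Metric

variable {E : Type*} [NormedAddCommGroup E] [InnerProductSpace ℝ E]

/-- A disc is determined by its boundary. -/
theorem trace_inj [FiniteDimensional ℝ E] (hn : 3 ≤ Module.finrank ℝ E) {A B : Disc E}
    (h : ∀ p : S E, (p : E) ∈ A.1 → (p : E) ∈ B.1) : A = B := by
  obtain ⟨v, hvv, hA⟩ := exists_rep A
  obtain ⟨w, hww, hB⟩ := exists_rep B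
  obtain ⟨u, s⟩ := v
  obtain ⟨u', s'⟩ := w
  have huu : inner ℝ u u = 1 + s * s := by simp only [bet] at hvv; linarith
  have hpos : 0 < 1 + s * s := by nlinarith [mul_self_nonneg s]
  -- boundary points
  have hpts : ∀ z : E, inner ℝ u z = 0 → z ≠ 0 → ∀ σ : ℝ, σ ^ 2 = 1 →
      inner ℝ u' ((s / (1 + s * s)) • u +
        (σ * (Real.sqrt (1 / (1 + s * s)) / ‖z‖)) • z) = s' := by
    intro z hz hz0 σ hσ
    have hzpos : 0 < ‖z‖ := norm_pos_iff.mpr hz0
    have hr : Real.sqrt (1 / (1 + s * s)) ^ 2 = 1 / (1 + s * s) :=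
      Real.sq_sqrt (by positivity)
    obtain ⟨r, hrd⟩ : ∃ r, r = Real.sqrt (1 / (1 + s * s)) := ⟨_, rfl⟩
    rw [← hrd] at hr ⊢
    have hnorm : ‖(s / (1 + s * s)) • u + (σ * (r / ‖z‖)) • z‖ = 1 := by
      have : ‖(s / (1 + s * s)) • u + (σ * (r / ‖z‖)) • z‖ ^ 2 = 1 := by
        rw [← real_inner_self_eq_norm_sq, inner_add_left, inner_add_right, inner_add_right,
          inner_smul_left, inner_smul_right, inner_smul_left, inner_smul_right, inner_smul_left,
          inner_smul_right, inner_smul_left, inner_smul_right, real_inner_comm u z, hz, huu,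
          real_inner_self_eq_norm_sq]
        simp only [conj_trivial]
        have e1 : σ * (r / ‖z‖) * (σ * (r / ‖z‖) * ‖z‖ ^ 2) = σ ^ 2 * r ^ 2 := by
          field_simp
        rw [e1, hσ, hr]
        field_simp
        ring
      have h0 := norm_nonneg ((s / (1 + s * s)) • u + (σ * (r / ‖z‖)) • z)
      nlinarith
    have hmem : (s / (1 + s * s)) • u + (σ * (r / ‖z‖)) • z ∈ A.1 := by
      rw [hA]
      refine ⟨hnorm.le, ?_⟩
      simp only
      rw [inner_add_right, inner_smul_right, inner_smul_right, hz, huu]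
      field_simp
      ring
    have := h ⟨_, hnorm⟩ hmem
    rw [hB] at this
    exact this.2
  have horth : ∀ z : E, inner ℝ u z = 0 → inner ℝ u' z = 0 ∧ True := by
    intro z hz
    refine ⟨?_, trivial⟩
    by_cases hz0 : z = 0
    · rw [hz0, inner_zero_right]
    · have hzpos : 0 < ‖z‖ := norm_pos_iff.mpr hz0
      have h1 := hpts z hz hz0 1 (by norm_num)
      have h2 := hpts z hz hz0 (-1) (by norm_num)
      rw [inner_add_right, inner_smul_right, inner_smul_right] at h1 h2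
      have hrpos : 0 < Real.sqrt (1 / (1 + s * s)) := Real.sqrt_pos.mpr (by positivity)
      have h3 : Real.sqrt (1 / (1 + s * s)) / ‖z‖ * inner ℝ u' z = 0 := by linarith
      rcases mul_eq_zero.mp h3 with h | h
      · have : Real.sqrt (1 / (1 + s * s)) / ‖z‖ ≠ 0 := by positivity
        exact absurd h this
      · exact h
  obtain ⟨lam, hlam⟩ : ∃ lam : ℝ, lam = inner ℝ u u' / (1 + s * s) := ⟨_, rfl⟩
  have hu' : u' = lam • u := by
    have h1 : inner ℝ u (u' - lam • u) = 0 := by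
      rw [inner_sub_right, inner_smul_right, huu, hlam]; field_simp; ring
    have h2 := (horth _ h1).1
    have h3 : inner ℝ (u' - lam • u) (u' - lam • u) = 0 := by
      rw [inner_sub_left, inner_smul_left, h1, h2]; simp
    exact sub_eq_zero.mp (inner_self_eq_zero.mp h3)
  have hs' : s' = lam * s := by
    obtain ⟨z, hz0, hz, -⟩ := exists_orth2 hn u u
    have h1 := hpts z hz hz0 1 (by norm_num)
    rw [inner_add_right, inner_smul_right, inner_smul_right, (horth z hz).1, hu',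
      inner_smul_left, huu] at h1
    simp only [conj_trivial] at h1
    rw [← h1]
    field_simp
    ring
  have hvec : ((u', s') : E × ℝ) = lam • ((u, s) : E × ℝ) := by
    rw [Prod.smul_mk, smul_eq_mul, ← hu', ← hs']
  have hlam0 : lam ≠ 0 := by
    rintro rfl
    rw [hvec, zero_smul] at hww
    simp [bet] at hww
  apply Subtype.ext
  rw [hA, hB, hvec, sec_smul hlam0]

theorem norm_neg_S (p : S E) : ‖-(p : E)‖ = 1 := by rw [norm_neg]; exact p.2

theorem hat_sub (p : S E) : hat (p : E) - hat (-(p : E)) = ((2 : ℝ) • (p : E), (0 : ℝ)) := by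
  simp only [hat, Prod.mk_sub_mk, sub_neg_eq_add, sub_self, two_smul]

theorem hat_add (p : S E) : hat (p : E) + hat (-(p : E)) = ((0 : E), (2 : ℝ)) := by
  simp only [hat, Prod.mk_add_mk, add_neg_cancel]
  norm_num

theorem span_hat [FiniteDimensional ℝ E] (hn : 3 ≤ Module.finrank ℝ E) :
    Submodule.span ℝ (Set.range (fun p : S E => hat (p : E))) = ⊤ := by
  rw [eq_top_iff]
  rintro ⟨x, s⟩ -
  have hmem : ∀ p : S E, hat (p : E) ∈
      Submodule.span ℝ (Set.range (fun p : S E => hat (p : E))) :=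
    fun p => Submodule.subset_span ⟨p, rfl⟩
  have hmem' : ∀ p : S E, hat (-(p : E)) ∈
      Submodule.span ℝ (Set.range (fun p : S E => hat (p : E))) :=
    fun p => Submodule.subset_span ⟨⟨-(p : E), norm_neg_S p⟩, rfl⟩
  have h1 : ((0 : E), (2 : ℝ)) ∈ Submodule.span ℝ (Set.range (fun p : S E => hat (p : E))) := by
    obtain ⟨z, hz, -⟩ := exists_orth2 hn (0 : E) 0
    have hz1 : 0 < ‖z‖ := norm_pos_iff.mpr hz
    have hp : ‖(‖z‖)⁻¹ • z‖ = 1 := by
      rw [norm_smul, norm_inv, norm_norm, inv_mul_cancel₀ hz1.ne']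
    rw [← hat_add ⟨_, hp⟩]
    exact Submodule.add_mem _ (hmem _) (hmem' _)
  have h2 : ∀ x : E, (x, (0 : ℝ)) ∈
      Submodule.span ℝ (Set.range (fun p : S E => hat (p : E))) := by
    intro x
    by_cases hx : x = 0
    · rw [hx]; exact Submodule.zero_mem _
    · have hx1 : 0 < ‖x‖ := norm_pos_iff.mpr hx
      have hp : ‖(‖x‖)⁻¹ • x‖ = 1 := by
        rw [norm_smul, norm_inv, norm_norm, inv_mul_cancel₀ hx1.ne']
      have h3 := Submodule.smul_mem _ (‖x‖ / 2) (Submodule.sub_mem _ (hmem ⟨_, hp⟩)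
        (hmem' ⟨_, hp⟩))
      rw [hat_sub] at h3
      simp only [Prod.smul_mk, smul_zero, smul_smul] at h3
      have e : ‖x‖ / 2 * (2 * (‖x‖)⁻¹) = 1 := by field_simp
      rw [e, one_smul] at h3
      exact h3
  have h3 : ((x, s) : E × ℝ) = (x, (0 : ℝ)) + (s / 2) • ((0 : E), (2 : ℝ)) := by
    simp
  rw [h3]
  exact Submodule.add_mem _ (h2 x) (Submodule.smul_mem _ _ h1)

/-- Linear maps that fix all null directions are scalars. -/
theorem scalar_of [FiniteDimensional ℝ E] (hn : 3 ≤ Module.finrank ℝ E)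
    (Q : (E × ℝ) →ₗ[ℝ] (E × ℝ)) (hQ : ∀ p : S E, ∃ c : ℝ, 0 < c ∧
      Q (hat (p : E)) = c • hat (p : E)) :
    ∃ κ : ℝ, 0 < κ ∧ Q = κ • LinearMap.id := by
  choose c hc0 hc using hQ
  let ng : S E → S E := fun p => ⟨-(p : E), norm_neg_S p⟩
  have h1 : ∀ p : S E, Q ((0 : E), (2 : ℝ)) =
      ((c p - c (ng p)) • (p : E), c p + c (ng p)) := by
    intro p
    rw [← hat_add p, map_add, hc p]
    have := hc (ng p)
    rw [this]
    simp only [hat, ng, Prod.smul_mk, Prod.mk_add_mk, smul_eq_mul, mul_one, smul_neg, sub_smul]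
    rw [sub_eq_add_neg]
  have h2 : ∀ p : S E, c p = c (ng p) := by
    intro p
    obtain ⟨z, hz0, hzp, -⟩ := exists_orth2 hn (p : E) (p : E)
    have hz1 : 0 < ‖z‖ := norm_pos_iff.mpr hz0
    have hp : ‖(‖z‖)⁻¹ • z‖ = 1 := by
      rw [norm_smul, norm_inv, norm_norm, inv_mul_cancel₀ hz1.ne']
    have e1 := h1 p
    rw [h1 ⟨_, hp⟩] at e1
    have e2 := congrArg Prod.fst e1
    simp only at e2
    have e3 : inner ℝ (p : E) ((c p - c (ng p)) • (p : E)) = (0 : ℝ) := by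
      rw [← e2, inner_smul_right, inner_smul_right, hzp]; ring
    rw [inner_smul_right, real_inner_self_eq_norm_sq, p.2] at e3
    linarith
  have h3 : ∀ p q : S E, c p = c q := by
    intro p q
    have e1 := congrArg Prod.snd ((h1 p).symm.trans (h1 q))
    simp only at e1
    have := h2 p
    have := h2 q
    linarith
  obtain ⟨z, hz0, -⟩ := exists_orth2 hn (0 : E) 0
  have hz1 : 0 < ‖z‖ := norm_pos_iff.mpr hz0
  have hp : ‖(‖z‖)⁻¹ • z‖ = 1 := by
    rw [norm_smul, norm_inv, norm_norm, inv_mul_cancel₀ hz1.ne']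
  refine ⟨c ⟨_, hp⟩, hc0 _, ?_⟩
  apply LinearMap.ext_on_range (v := fun p : S E => hat (p : E)) (span_hat hn)
  intro p
  rw [hc p, h3 p ⟨_, hp⟩]
  rfl

/-- A lift of a bijection is bijective. -/
theorem lift_bij [FiniteDimensional ℝ E] (hn : 3 ≤ Module.finrank ℝ E) (F : S E ≃ S E)
    (L : (E × ℝ) →ₗ[ℝ] (E × ℝ)) (hL : ∀ p : S E, ∃ ρ : ℝ, 0 < ρ ∧
      L (hat (p : E)) = ρ • hat (F p : E)) : Function.Injective L := by
  rw [LinearMap.injective_iff_surjective, ← LinearMap.range_eq_top, eq_top_iff, ← span_hat hn,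
    Submodule.span_le]
  rintro _ ⟨q, rfl⟩
  obtain ⟨p, rfl⟩ := F.surjective q
  obtain ⟨ρ, hρ, h⟩ := hL p
  refine ⟨ρ⁻¹ • hat (p : E), ?_⟩
  rw [map_smul, h, smul_smul, inv_mul_cancel₀ hρ.ne', one_smul]

/-- Two lifts of the same bijection differ by a positive scalar. -/
theorem lift_unique [FiniteDimensional ℝ E] (hn : 3 ≤ Module.finrank ℝ E) (F : S E ≃ S E)
    (L M : (E × ℝ) →ₗ[ℝ] (E × ℝ)) (hL : ∀ p : S E, ∃ ρ : ℝ, 0 < ρ ∧
      L (hat (p : E)) = ρ • hat (F p : E)) (hM : ∀ p : S E, ∃ ρ : ℝ, 0 < ρ ∧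
      M (hat (p : E)) = ρ • hat (F p : E)) : ∃ κ : ℝ, 0 < κ ∧ L = κ • M := by
  have hinj := lift_bij hn F M hM
  let Me : (E × ℝ) ≃ₗ[ℝ] (E × ℝ) := LinearEquiv.ofInjectiveEndo M hinj
  have hMe : ∀ x, Me x = M x := fun x => rfl
  obtain ⟨κ, hκ, hQ⟩ := scalar_of hn ((Me.symm : (E × ℝ) →ₗ[ℝ] (E × ℝ)) ∘ₗ L) (by
    intro p
    obtain ⟨ρ, hρ, h⟩ := hL p
    obtain ⟨ρ', hρ', h'⟩ := hM p
    refine ⟨ρ / ρ', by positivity, ?_⟩
    rw [LinearMap.comp_apply, h]
    show Me.symm _ = _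
    rw [LinearEquiv.symm_apply_eq, map_smul, hMe, h', smul_smul]
    congr 1
    field_simp)
  refine ⟨κ, hκ, ?_⟩
  apply LinearMap.ext
  intro x
  have h1 : Me.symm (L x) = κ • x := LinearMap.congr_fun hQ x
  rw [LinearEquiv.symm_apply_eq, map_smul, hMe] at h1
  rw [h1]
  rfl

/-- Commuting bijections have commuting lifts. -/
theorem lifts_commute [FiniteDimensional ℝ E] (hn : 3 ≤ Module.finrank ℝ E) (F G : S E ≃ S E)
    (L M : (E × ℝ) →ₗ[ℝ] (E × ℝ)) (hL : ∀ p : S E, ∃ ρ : ℝ, 0 < ρ ∧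
      L (hat (p : E)) = ρ • hat (F p : E)) (hM : ∀ p : S E, ∃ ρ : ℝ, 0 < ρ ∧
      M (hat (p : E)) = ρ • hat (G p : E)) (hFG : ∀ p, F (G p) = G (F p)) :
    L ∘ₗ M = M ∘ₗ L := by
  have h1 : ∀ p : S E, ∃ ρ : ℝ, 0 < ρ ∧
      (L ∘ₗ M) (hat (p : E)) = ρ • hat ((G.trans F) p : E) := by
    intro p
    obtain ⟨ρ, hρ, h⟩ := hM p
    obtain ⟨ρ', hρ', h'⟩ := hL (G p)
    refine ⟨ρ * ρ', by positivity, ?_⟩
    rw [LinearMap.comp_apply, h, map_smul, h', smul_smul]
    rfl
  have h2 : ∀ p : S E, ∃ ρ : ℝ, 0 < ρ ∧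
      (M ∘ₗ L) (hat (p : E)) = ρ • hat ((G.trans F) p : E) := by
    intro p
    obtain ⟨ρ, hρ, h⟩ := hL p
    obtain ⟨ρ', hρ', h'⟩ := hM (F p)
    refine ⟨ρ * ρ', by positivity, ?_⟩
    rw [LinearMap.comp_apply, h, map_smul, h', smul_smul]
    show _ = (ρ * ρ') • hat (F (G p) : E)
    rw [hFG]
  obtain ⟨κ, hκ, h⟩ := lift_unique hn (G.trans F) _ _ h1 h2
  have hinj := lift_bij hn (G.trans F) _ h2
  have hdet0 : LinearMap.det (M ∘ₗ L) ≠ 0 := by
    have h3 : IsUnit (M ∘ₗ L) :=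
      ((Module.End.isUnit_iff _).mpr
        ⟨hinj, LinearMap.surjective_of_injective hinj⟩)
    exact (LinearMap.isUnit_iff_isUnit_det _).mp h3 |>.ne_zero
  have h4 : LinearMap.det (L ∘ₗ M) = LinearMap.det (M ∘ₗ L) := by
    rw [LinearMap.det_comp, LinearMap.det_comp, mul_comm]
  rw [h, LinearMap.det_smul] at h4
  have h5 : κ ^ Module.finrank ℝ (E × ℝ) = 1 := by
    have : (κ ^ Module.finrank ℝ (E × ℝ) - 1) * LinearMap.det (M ∘ₗ L) = 0 := by linarith
    rcases mul_eq_zero.mp this with h | h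
    · linarith
    · exact absurd h hdet0
  have h6 : Module.finrank ℝ (E × ℝ) ≠ 0 := by
    rw [Module.finrank_prod]; omega
  have h7 : κ = 1 := (pow_eq_one_iff_of_nonneg hκ.le h6).mp h5
  rw [h, h7, one_smul]

theorem commute_of_lifts (F G : S E ≃ S E)
    (L M : (E × ℝ) →ₗ[ℝ] (E × ℝ)) (hL : ∀ p : S E, ∃ ρ : ℝ, 0 < ρ ∧
      L (hat (p : E)) = ρ • hat (F p : E)) (hM : ∀ p : S E, ∃ ρ : ℝ, 0 < ρ ∧
      M (hat (p : E)) = ρ • hat (G p : E)) (h : L ∘ₗ M = M ∘ₗ L) (p : S E) :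
    F (G p) = G (F p) := by
  obtain ⟨a, ha, ha'⟩ := hM p
  obtain ⟨b, hb, hb'⟩ := hL (G p)
  obtain ⟨c, hc, hc'⟩ := hL p
  obtain ⟨d, hd, hd'⟩ := hM (F p)
  have h1 := LinearMap.congr_fun h (hat (p : E))
  rw [LinearMap.comp_apply, LinearMap.comp_apply, ha', map_smul, hb', hc', map_smul, hd',
    smul_smul, smul_smul] at h1
  have h2 : a * b = c * d := by
    have := congrArg Prod.snd h1
    simpa [hat] using this
  have h3 : a * b ≠ 0 := by positivity
  have h4 := congrArg Prod.fst h1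
  simp only [hat, Prod.smul_mk] at h4
  rw [← h2] at h4
  apply Subtype.ext
  exact smul_right_injective E h3 h4

/-- The group of automorphisms of the intersection relation has no infinite sequence of pairwise
commuting noncommuting pairs. -/
theorem no_chain [FiniteDimensional ℝ E] (hn : 3 ≤ Module.finrank ℝ E)
    (a b : ℕ → (Disc E ≃ Disc E)) (ha : ∀ i A B, Mt (a i A) (a i B) ↔ Mt A B)
    (hb : ∀ i A B, Mt (b i A) (b i B) ↔ Mt A B)
    (haa : ∀ i j, i ≠ j → ∀ C, a i (a j C) = a j (a i C))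
    (hab : ∀ i j, i ≠ j → ∀ C, a i (b j C) = b j (a i C))
    (hne : ∀ i, ∃ C, a i (b i C) ≠ b i (a i C)) : False := by
  have hA := fun i => exists_lift hn (a i) (ha i)
  have hB := fun i => exists_lift hn (b i) (hb i)
  choose Fa hFa La hLa using hA
  choose Fb hFb Lb hLb using hB
  -- point maps commute if automorphisms commute
  have transfer : ∀ (f g : Disc E ≃ Disc E) (F G : S E ≃ S E),
      (∀ (C : Disc E) (p : S E), (p : E) ∈ C.1 ↔ (F p : E) ∈ (f C).1) →
      (∀ (C : Disc E) (p : S E), (p : E) ∈ C.1 ↔ (G p : E) ∈ (g C).1) →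
      (∀ C, f (g C) = g (f C)) → ∀ p, F (G p) = G (F p) := by
    intro f g F G hF hG hfg p
    apply Subtype.ext
    apply sep_points hn (F (G p)).2 (G (F p)).2
    intro C hC
    obtain ⟨D, rfl⟩ := f.surjective C
    obtain ⟨D, rfl⟩ := g.surjective D
    rw [← hF, ← hG] at hC
    rw [hfg, ← hG, ← hF]
    exact hC
  have transfer' : ∀ (f g : Disc E ≃ Disc E) (F G : S E ≃ S E),
      (∀ (C : Disc E) (p : S E), (p : E) ∈ C.1 ↔ (F p : E) ∈ (f C).1) →
      (∀ (C : Disc E) (p : S E), (p : E) ∈ C.1 ↔ (G p : E) ∈ (g C).1) →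
      (∀ p, F (G p) = G (F p)) → ∀ C, f (g C) = g (f C) := by
    intro f g F G hF hG hfg C
    apply trace_inj hn
    intro p hp
    obtain ⟨q, rfl⟩ := F.surjective p
    obtain ⟨q, rfl⟩ := G.surjective q
    rw [← hF, ← hG] at hp
    rw [hfg, ← hG, ← hF]
    exact hp
  let T : ℕ → Submodule ℝ (Module.End ℝ (E × ℝ)) := fun k =>
    Subalgebra.toSubmodule (Subalgebra.centralizer ℝ {x | ∃ i < k, x = La i ∨ x = Lb i})
  refine not_strictAnti_of_wellFoundedLT T (strictAnti_nat_of_succ_lt fun k => ?_)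
  refine lt_of_le_of_ne ?_ ?_
  · intro x hx
    rw [Subalgebra.mem_toSubmodule, Subalgebra.mem_centralizer_iff] at hx ⊢
    rintro y ⟨i, hi, hy⟩
    exact hx y ⟨i, by omega, hy⟩
  · intro heq
    have h1 : (La k : Module.End ℝ (E × ℝ)) ∈ T k := by
      rw [Subalgebra.mem_toSubmodule, Subalgebra.mem_centralizer_iff]
      rintro y ⟨i, hi, rfl | rfl⟩
      · exact lifts_commute hn (Fa i) (Fa k) _ _ (hLa i) (hLa k)
          (transfer _ _ _ _ (hFa i) (hFa k) (haa i k (by omega)))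
      · exact (lifts_commute hn (Fa k) (Fb i) _ _ (hLa k) (hLb i)
          (transfer _ _ _ _ (hFa k) (hFb i) (hab k i (by omega)))).symm
    rw [← heq] at h1
    rw [Subalgebra.mem_toSubmodule, Subalgebra.mem_centralizer_iff] at h1
    have h2 := h1 (Lb k) ⟨k, by omega, Or.inr rfl⟩
    obtain ⟨C, hC⟩ := hne k
    apply hC
    exact transfer' _ _ _ _ (hFa k) (hFb k)
      (commute_of_lifts (Fa k) (Fb k) _ _ (hLa k) (hLb k) h2.symm) C

end Pool.Agent.R767.SG
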