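import Pool.Agent.R767.SG8

/-!
# Homeomorphisms of spheres with small support
-/

namespace Pool.Agent.R767.SG

open Metric Filter Topology

/-- the bump -/
noncomputable def bmp (c r x : ℝ) : ℝ := max 0 (r - |x - c|)

theorem bmp_lip (c r x y : ℝ) : |bmp c r x - bmp c r y| ≤ |x - y| := by
  unfold bmp
  have h1 := abs_max_sub_max_le_abs (r - |x - c|) (r - |y - c|) 0
  rw [max_comm _ 0, max_comm _ 0] at h1
  refine h1.trans ?_
  have h2 : r - |x - c| - (r - |y - c|) = |y - c| - |x - c| := by ring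
  rw [h2]
  refine (abs_abs_sub_abs_le_abs_sub (y - c) (x - c)).trans ?_
  have h3 : y - c - (x - c) = -(x - y) := by ring
  rw [h3, abs_neg]

theorem bmp_nonneg (c r x : ℝ) : 0 ≤ bmp c r x := le_max_left _ _

theorem bmp_le (c r x : ℝ) (hr : 0 ≤ r) : bmp c r x ≤ r := by
  unfold bmp
  refine max_le hr ?_
  have := abs_nonneg (x - c)
  linarith

theorem bmp_mono (c r : ℝ) : StrictMono fun x : ℝ => x + bmp c r x / 2 := by
  intro x y hxy
  have h1 := bmp_lip c r x y
  have h2 : |x - y| = y - x := by rw [abs_sub_comm, abs_of_pos (by linarith)]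
  rw [h2] at h1
  have h3 := (abs_le.mp h1).2
  simp only
  linarith

theorem bmp_cont (c r : ℝ) : Continuous fun x : ℝ => x + bmp c r x / 2 := by
  unfold bmp
  fun_prop

theorem bmp_surj (c r : ℝ) (hr : 0 ≤ r) : Function.Surjective fun x : ℝ => x + bmp c r x / 2 := by
  apply (bmp_cont c r).surjective
  · refine tendsto_atTop_mono (fun x => ?_) tendsto_id
    have := bmp_nonneg c r x
    show x ≤ _
    linarith
  · refine tendsto_atBot_mono (fun x => ?_)
      (tendsto_atBot_add_const_right atBot (r / 2) tendsto_id)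
    have := bmp_le c r x hr
    show _ ≤ x + r / 2
    linarith

/-- the homeomorphism of the line pushing points of `(c - r, c + r)` to the right -/
noncomputable def push (c r : ℝ) (hr : 0 ≤ r) : ℝ ≃ₜ ℝ :=
  (StrictMono.orderIsoOfSurjective _ (bmp_mono c r) (bmp_surj c r hr)).toHomeomorph

theorem push_apply (c r : ℝ) (hr : 0 ≤ r) (x : ℝ) : push c r hr x = x + bmp c r x / 2 := rfl

theorem push_fix (c r : ℝ) (hr : 0 ≤ r) (x : ℝ) (h : r ≤ |x - c|) : push c r hr x = x := by
  rw [push_apply]
  have : bmp c r x = 0 := max_eq_left (by linarith)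
  rw [this]; ring

theorem push_inside (c r : ℝ) (hr : 0 ≤ r) (x : ℝ) (h : |x - c| < r) :
    |push c r hr x - c| < r := by
  rw [abs_lt] at h ⊢
  have h1 : push c r hr (c - r) = c - r := push_fix c r hr _ (by
    have : c - r - c = -r := by ring
    rw [this, abs_neg]; exact le_abs_self r)
  have h2 : push c r hr (c + r) = c + r := push_fix c r hr _ (by
    have : c + r - c = r := by ring
    rw [this]; exact le_abs_self r)
  have h3 : push c r hr (c - r) < push c r hr x := bmp_mono c r (by linarith)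
  have h4 : push c r hr x < push c r hr (c + r) := bmp_mono c r (by linarith)
  rw [h1] at h3
  rw [h2] at h4
  constructor <;> linarith

theorem push_comm (c r c' r' : ℝ) (hr : 0 ≤ r) (hr' : 0 ≤ r') (h : r + r' ≤ |c - c'|) (x : ℝ) :
    push c r hr (push c' r' hr' x) = push c' r' hr' (push c r hr x) := by
  have tri : ∀ y : ℝ, |c - c'| ≤ |y - c| + |y - c'| := by
    intro y
    have := abs_sub_le c y c'
    rw [abs_sub_comm c y] at this
    exact this
  by_cases h1 : |x - c| < r
  · have h2 : r' ≤ |x - c'| := by have := tri x; linarith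
    have h3 := push_inside c r hr x h1
    have h4 : r' ≤ |push c r hr x - c'| := by have := tri (push c r hr x); linarith
    rw [push_fix c' r' hr' x h2, push_fix c' r' hr' _ h4]
  · have h1' := not_lt.mp h1
    rw [push_fix c r hr x h1']
    by_cases h2 : |x - c'| < r'
    · have h3 := push_inside c' r' hr' x h2
      have h4 : r ≤ |push c' r' hr' x - c| := by have := tri (push c' r' hr' x); linarith
      rw [push_fix c r hr _ h4]
    · have h2' := not_lt.mp h2
      rw [push_fix c' r' hr' x h2', push_fix c r hr x h1']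

theorem push_ne (c : ℝ) : push c (1 / 2) (by norm_num) (push c (1 / 4) (by norm_num) (c - 1 / 4)) ≠
    push c (1 / 4) (by norm_num) (push c (1 / 2) (by norm_num) (c - 1 / 4)) := by
  have e1 : |c - 1 / 4 - c| = 1 / 4 := by
    have : c - 1 / 4 - c = -(1 / 4) := by ring
    rw [this, abs_neg, abs_of_pos (by norm_num)]
  rw [push_fix c (1 / 4) (by norm_num) (c - 1 / 4) (by rw [e1])]
  have e2 : push c (1 / 2) (by norm_num) (c - 1 / 4) = c - 1 / 8 := by
    rw [push_apply]
    unfold bmp
    rw [e1, max_eq_right (by norm_num)]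
    ring
  rw [e2, push_apply]
  unfold bmp
  have e3 : |c - 1 / 8 - c| = 1 / 8 := by
    have : c - 1 / 8 - c = -(1 / 8) := by ring
    rw [this, abs_neg, abs_of_pos (by norm_num)]
  rw [e3, max_eq_right (by norm_num)]
  intro h
  linarith

/-- The sphere as a compactification. -/
noncomputable def eS (d : ℕ) : OnePoint (Fin (d + 1) → ℝ) ≃ₜ
    sphere (0 : EuclideanSpace ℝ (Fin (d + 2))) 1 :=
  onePointEquivSphereOfFinrankEq (by simp)

/-- coordinatewise action -/
noncomputable def coo (d : ℕ) (h : ℝ ≃ₜ ℝ) : (Fin (d + 1) → ℝ) ≃ₜ (Fin (d + 1) → ℝ) :=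
  Homeomorph.piCongrRight (fun i : Fin (d + 1) => if i = 0 then h else Homeomorph.refl ℝ)

theorem coo_apply (d : ℕ) (h : ℝ ≃ₜ ℝ) (v : Fin (d + 1) → ℝ) (i : Fin (d + 1)) :
    coo d h v i = if i = 0 then h (v i) else v i := by
  unfold coo
  by_cases hi : i = 0
  · subst hi; simp [Homeomorph.piCongrRight]
  · simp [Homeomorph.piCongrRight, hi]

/-- Homeomorphisms of the line act on the sphere. -/
noncomputable def Lam (d : ℕ) (h : ℝ ≃ₜ ℝ) :
    sphere (0 : EuclideanSpace ℝ (Fin (d + 2))) 1 ≃ₜ
    sphere (0 : EuclideanSpace ℝ (Fin (d + 2))) 1 :=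
  (eS d).symm.trans ((coo d h).onePointCongr.trans (eS d))

theorem Lam_apply (d : ℕ) (h : ℝ ≃ₜ ℝ) (x : OnePoint (Fin (d + 1) → ℝ)) :
    Lam d h (eS d x) = eS d (OnePoint.map (coo d h) x) := by
  unfold Lam
  rw [Homeomorph.trans_apply, Homeomorph.symm_apply_apply]
  rfl

theorem Lam_comm (d : ℕ) (g h : ℝ ≃ₜ ℝ) (hc : ∀ x, g (h x) = h (g x)) :
    Lam d g * Lam d h = Lam d h * Lam d g := by
  apply Homeomorph.ext
  intro p
  show Lam d g (Lam d h p) = Lam d h (Lam d g p)
  obtain ⟨x, rfl⟩ := (eS d).surjective p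
  rw [Lam_apply, Lam_apply, Lam_apply, Lam_apply]
  congr 1
  induction x using OnePoint.rec with
  | infty => rfl
  | coe v =>
    rw [OnePoint.map_some, OnePoint.map_some, OnePoint.map_some, OnePoint.map_some]
    congr 1
    funext i
    rw [coo_apply, coo_apply, coo_apply, coo_apply]
    split_ifs
    · exact hc _
    · rfl

theorem Lam_ne (d : ℕ) (g h : ℝ ≃ₜ ℝ) (x : ℝ) (hc : g (h x) ≠ h (g x)) :
    Lam d g * Lam d h ≠ Lam d h * Lam d g := by
  intro heq
  apply hc
  have h1 : Lam d g (Lam d h (eS d (((fun _ => x) : Fin (d + 1) → ℝ) : OnePoint _))) =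
      Lam d h (Lam d g (eS d (((fun _ => x) : Fin (d + 1) → ℝ) : OnePoint _))) :=
    congrArg (fun f : sphere (0 : EuclideanSpace ℝ (Fin (d + 2))) 1 ≃ₜ
      sphere (0 : EuclideanSpace ℝ (Fin (d + 2))) 1 => f _) heq
  rw [Lam_apply, Lam_apply, Lam_apply, Lam_apply] at h1
  have h2 := (eS d).injective h1
  rw [OnePoint.map_some, OnePoint.map_some, OnePoint.map_some, OnePoint.map_some] at h2
  have h3 := OnePoint.coe_injective h2
  have h4 := congrFun h3 0
  rw [coo_apply, coo_apply, coo_apply, coo_apply] at h4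
  simpa using h4

end Pool.Agent.R767.SG
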