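import Mathlib

/-!
# The key obstruction for one coordinate
-/

namespace Pool.Agent.R767.UR

open Finset

variable {K L : Type*} [Field K] [Field L] [Algebra K L]

/-- the operator `a` -/
noncomputable def aop (t : L) (φ : L →ₗ[K] K) : Module.End K L :=
  (LinearMap.mulLeft K t⁻¹) ∘ₗ (LinearMap.id - φ.smulRight (1 : L))

theorem aop_apply (t : L) (φ : L →ₗ[K] K) (y : L) : aop t φ y = t⁻¹ * (y - φ y • 1) := rfl

theorem aop_recover {t : L} (ht : t ≠ 0) (φ : L →ₗ[K] K) (y : L) :
    y = t * aop t φ y + φ y • 1 := by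
  rw [aop_apply, mul_inv_cancel_left₀ ht]; abel

theorem obstruction {t : L} (ht : t ≠ 0) (hinf : ¬ FiniteDimensional K L) (n : ℕ)
    (φ κ χ : L →ₗ[K] K) (φ1 : φ 1 = 1) (φt : ∀ i, 1 ≤ i → i ≤ n → φ (t ^ i) = 0)
    (φn : φ (t ^ (n + 1)) = 1) (κ1 : κ 1 = 1) (χt : ∀ i, i ≤ n → χ (t ^ i) = 0)
    (χn : χ (t ^ (n + 1)) = 1) {ι : Type*} [Fintype ι] (ρ : L) (r s : ι → L)
    (w : Module.End K L) (hw : ∀ y, w y = ρ * y + ∑ j, φ (s j * y) • r j)
    (χr : ∀ j, χ (r j) = 0) (χσ : χ ((∑ j, κ (r j) • s j) * t⁻¹) = 0)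
    (h : ∀ k, 1 ≤ k → (aop t φ) ^ k * w ^ k * (aop t φ) ^ k = (aop t φ) ^ k) : False := by
  obtain ⟨a, ha⟩ : ∃ a, a = aop t φ := ⟨_, rfl⟩
  rw [← ha] at h
  have ha_apply : ∀ y, a y = t⁻¹ * (y - φ y • 1) := fun y => by rw [ha]; rfl
  have hrec : ∀ y, y = t * a y + φ y • 1 := fun y => by rw [ha]; exact aop_recover ht φ y
  have hker : ∀ y, a y = 0 → y = φ y • 1 := by
    intro y hy
    have := hrec y
    rwa [hy, mul_zero, zero_add] at this
  have h1 : ∀ z, a (w (a z)) = a z := by
    intro z
    have := LinearMap.congr_fun (h 1 le_rfl) z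
    simpa using this
  -- w (a z) - z is a scalar
  have hscal : ∀ z, w (a z) - z = φ (w (a z) - z) • 1 := by
    intro z
    apply hker
    rw [map_sub, h1, sub_self]
  -- ρ = t
  have hρ : ρ * t⁻¹ = 1 := by
    by_contra hne
    have hlam : ρ * t⁻¹ - 1 ≠ 0 := sub_ne_zero.mpr hne
    apply hinf
    let V : Submodule K L := Submodule.span K (Set.range r ∪ {1, ρ * t⁻¹})
    have hVfin : FiniteDimensional K V := by
      apply FiniteDimensional.span_of_finite
      exact (Set.finite_range r).union (by simp)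
    have hmem : ∀ z, (ρ * t⁻¹ - 1) * z ∈ V := by
      intro z
      have e1 := hscal z
      have e2 : (ρ * t⁻¹ - 1) * z = φ (w (a z) - z) • 1 + φ z • (ρ * t⁻¹) -
          ∑ j, φ (s j * a z) • r j := by
        rw [← e1, hw (a z)]
        have : ρ * a z = ρ * t⁻¹ * z - φ z • (ρ * t⁻¹) := by
          rw [ha_apply, ← mul_assoc, mul_sub, mul_smul_comm, mul_one]
        rw [this]
        ring
      rw [e2]
      refine Submodule.sub_mem _ (Submodule.add_mem _ ?_ ?_) ?_
      · exact Submodule.smul_mem _ _ (Submodule.subset_span (by simp))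
      · exact Submodule.smul_mem _ _ (Submodule.subset_span (by simp))
      · exact Submodule.sum_mem _ fun j _ =>
          Submodule.smul_mem _ _ (Submodule.subset_span (Or.inl ⟨j, rfl⟩))
    have htop : V = ⊤ := by
      rw [eq_top_iff]
      intro z _
      have := hmem ((ρ * t⁻¹ - 1)⁻¹ * z)
      rwa [mul_inv_cancel_left₀ hlam] at this
    rw [htop] at hVfin
    exact Module.Finite.of_surjective (Submodule.topEquiv : (⊤ : Submodule K L) ≃ₗ[K] L).toLinearMap
      (LinearEquiv.surjective _)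
  have hρt : ρ = t := by
    field_simp at hρ
    exact hρ
  -- the functional μ
  obtain ⟨σ, hσ⟩ : ∃ σ, σ = ∑ j, κ (r j) • s j := ⟨_, rfl⟩
  rw [← hσ] at χσ
  obtain ⟨ξ, hξ⟩ : ∃ ξ : L, ξ = 1 + φ (σ * t⁻¹) • 1 - σ * t⁻¹ := ⟨_, rfl⟩
  have hμ : ∀ z, φ (w (a z) - z) = - φ (ξ * z) := by
    intro z
    have e1 := hscal z
    have e2 : φ (w (a z) - z) = κ (w (a z) - z) := by
      have := congrArg κ e1
      rw [map_smul, κ1, smul_eq_mul, mul_one] at this
      exact this.symm
    have e3 : w (a z) - z = - (φ z • (1 : L)) + ∑ j, φ (s j * a z) • r j := by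
      rw [hw (a z), hρt]
      have := hrec z
      nth_rewrite 3 [this]
      abel
    rw [e2, e3, map_add, map_neg, map_smul, κ1, map_sum]
    have e4 : ∑ j, κ (φ (s j * a z) • r j) = φ (σ * a z) := by
      rw [hσ, Finset.sum_mul, map_sum]
      apply Finset.sum_congr rfl
      intro j _
      rw [map_smul, smul_mul_assoc, map_smul, smul_eq_mul, smul_eq_mul, mul_comm]
    rw [e4, ha_apply]
    have e5 : σ * (t⁻¹ * (z - φ z • 1)) = σ * t⁻¹ * z - φ z • (σ * t⁻¹) := by
      rw [← mul_assoc, mul_sub, mul_smul_comm, mul_one]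
    have e6 : ξ * z = z + φ (σ * t⁻¹) • z - σ * t⁻¹ * z := by
      rw [hξ, sub_mul, add_mul, one_mul, smul_mul_assoc, one_mul]
    rw [e5, e6, map_sub, map_sub, map_add, map_smul, map_smul, smul_eq_mul, smul_eq_mul,
      smul_eq_mul]
    ring
  have hwa : ∀ z, w (a z) = z + (-φ (ξ * z)) • (1 : L) := by
    intro z
    have := hscal z
    rw [hμ] at this
    rw [← this]; abel
  have hwa2 : ∀ k y, (w ^ k) ((a ^ k) y) =
      y + ∑ j ∈ range k, (-φ (ξ * (a ^ j) y)) • (w ^ j) 1 := by
    intro k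
    induction k with
    | zero => intro y; simp
    | succ k ih =>
      intro y
      have e1 : (a ^ (k + 1)) y = a ((a ^ k) y) := by rw [pow_succ']; rfl
      have e2 : ∀ x, (w ^ (k + 1)) x = (w ^ k) (w x) := by
        intro x; rw [pow_succ]; rfl
      rw [e1, e2, hwa, map_add, map_smul, ih, Finset.sum_range_succ]
      abel
  -- subspaces
  let U : ℕ → Submodule K L := fun j => Submodule.span K ((fun i : ℕ => t ^ i) '' {i | i < j})
  have hUmono : ∀ i j, i ≤ j → U i ≤ U j := by
    intro i j hij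
    apply Submodule.span_mono
    apply Set.image_mono
    intro x hx
    exact lt_of_lt_of_le hx hij
  have htU : ∀ i j, i < j → t ^ i ∈ U j := fun i j hij => Submodule.subset_span ⟨i, hij, rfl⟩
  have h1U : ∀ j, (1 : L) ∈ U (j + 1) := fun j => by
    have := htU 0 (j + 1) (by omega)
    simpa using this
  have hχU : ∀ x ∈ U (n + 1), χ x = 0 := by
    intro x hx
    induction hx using Submodule.span_induction with
    | mem x hx =>
      obtain ⟨i, hi, rfl⟩ := hx
      exact χt i (by simpa [Nat.lt_succ_iff] using hi)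
    | zero => simp
    | add x y _ _ hx hy => rw [map_add, hx, hy, add_zero]
    | smul c x _ hx => rw [map_smul, hx, smul_zero]
  have hat : ∀ i, i + 1 ≤ n → a (t ^ (i + 1)) = t ^ i := by
    intro i hi
    rw [ha_apply, φt (i + 1) (by omega) hi, zero_smul, sub_zero, pow_succ']
    exact inv_mul_cancel_left₀ ht _
  have hwt : ∀ l, l < n → w (t ^ l) = t ^ (l + 1) + (-φ (ξ * t ^ (l + 1))) • (1 : L) := by
    intro l hl
    have := hwa (t ^ (l + 1))
    rwa [hat l (by omega)] at this
  have hwU : ∀ j, j ≤ n → ∀ x ∈ U j, w x ∈ U (j + 1) := by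
    intro j hj x hx
    induction hx using Submodule.span_induction with
    | mem x hx =>
      obtain ⟨i, hi, rfl⟩ := hx
      have hi' : i < j := hi
      simp only
      rw [hwt i (by omega)]
      exact Submodule.add_mem _ (htU _ _ (by omega)) (Submodule.smul_mem _ _ (h1U j))
    | zero => simp
    | add x y _ _ hx hy => rw [map_add]; exact Submodule.add_mem _ hx hy
    | smul c x _ hx => rw [map_smul]; exact Submodule.smul_mem _ _ hx
  have hwj : ∀ j, j ≤ n → (w ^ j) 1 - t ^ j ∈ U j := by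
    intro j
    induction j with
    | zero => intro _; simp
    | succ j ih =>
      intro hj
      have e1 : (w ^ (j + 1)) 1 = w ((w ^ j) 1) := by rw [pow_succ']; rfl
      have e2 : (w ^ j) 1 = t ^ j + ((w ^ j) 1 - t ^ j) := by abel
      rw [e1, e2, map_add, hwt j (by omega)]
      have e3 : t ^ (j + 1) + (-φ (ξ * t ^ (j + 1))) • (1 : L) + w ((w ^ j) 1 - t ^ j) -
          t ^ (j + 1) = (-φ (ξ * t ^ (j + 1))) • (1 : L) + w ((w ^ j) 1 - t ^ j) := by abel
      rw [e3]
      exact Submodule.add_mem _ (Submodule.smul_mem _ _ (h1U j)) (hwU j (by omega) _ (ih (by omega)))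
  have hχwj : ∀ j, j ≤ n → χ ((w ^ j) 1) = 0 := by
    intro j hj
    apply hχU
    have e2 : (w ^ j) 1 = t ^ j + ((w ^ j) 1 - t ^ j) := by abel
    rw [e2]
    exact Submodule.add_mem _ (htU _ _ (by omega)) (hUmono j (n + 1) (by omega) (hwj j hj))
  have hχwn : χ ((w ^ (n + 1)) 1) = 1 := by
    have e1 : (w ^ (n + 1)) 1 = w ((w ^ n) 1) := by rw [pow_succ']; rfl
    have e2 : (w ^ n) 1 = t ^ n + ((w ^ n) 1 - t ^ n) := by abel
    rw [e1, e2, map_add, map_add, hχU _ (hwU n le_rfl _ (hwj n le_rfl)), add_zero, hw, hρt,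
      ← pow_succ', map_add, χn, map_sum]
    have : ∑ j, χ (φ (s j * t ^ n) • r j) = 0 := by
      apply Finset.sum_eq_zero
      intro j _
      rw [map_smul, χr, smul_zero]
    rw [this, add_zero]
  -- kernels
  have hkerU : ∀ j, ∀ x, (a ^ j) x = 0 → x ∈ U j := by
    intro j
    induction j with
    | zero => intro x hx; simp at hx; rw [hx]; exact Submodule.zero_mem _
    | succ j ih =>
      intro x hx
      have e1 : (a ^ (j + 1)) x = (a ^ j) (a x) := by rw [pow_succ]; rfl
      rw [e1] at hx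
      have h2 := ih _ hx
      rw [hrec x]
      refine Submodule.add_mem _ ?_ (Submodule.smul_mem _ _ (h1U j))
      have h3 : ∀ z ∈ U j, t * z ∈ U (j + 1) := by
        intro z hz
        induction hz using Submodule.span_induction with
        | mem x hx =>
          obtain ⟨i, hi, rfl⟩ := hx
          have hi' : i < j := hi
          simp only
          rw [← pow_succ']
          exact htU _ _ (by omega)
        | zero => simp
        | add x y _ _ hx hy => rw [mul_add]; exact Submodule.add_mem _ hx hy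
        | smul c x _ hx => rw [mul_smul_comm]; exact Submodule.smul_mem _ _ hx
      exact h3 _ h2
  have hφχ : ∀ z ∈ U (n + 1), φ (t * z) = χ (t * z) := by
    intro z hz
    induction hz using Submodule.span_induction with
    | mem x hx =>
      obtain ⟨i, hi, rfl⟩ := hx
      have hi' : i < n + 1 := hi
      simp only
      rw [← pow_succ']
      rcases Nat.lt_or_ge i n with h | h
      · rw [φt (i + 1) (by omega) (by omega), χt (i + 1) (by omega)]
      · have : i = n := by omega
        rw [this, φn, χn]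
    | zero => simp
    | add x y _ _ hx hy => rw [mul_add, map_add, map_add, hx, hy]
    | smul c x _ hx => rw [mul_smul_comm, map_smul, map_smul, hx]
  have hχ1 : χ 1 = 0 := by
    have := χt 0 (by omega)
    simpa using this
  have hχker : ∀ x, (a ^ (n + 2)) x = 0 → χ x = 0 := by
    intro x hx
    have e1 : (a ^ (n + 2)) x = (a ^ (n + 1)) (a x) := by rw [pow_succ]; rfl
    rw [e1] at hx
    have h2 := hkerU _ _ hx
    have h3 : φ (t * a x) = 0 := by
      have := congrArg φ (hrec x)
      rw [map_add, map_smul, φ1, smul_eq_mul, mul_one] at this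
      have h4 : φ (t * a x) + φ x - φ x = φ x - φ x := by rw [← this]
      simpa using h4
    rw [hrec x, map_add, map_smul, hχ1, smul_zero, add_zero, ← hφχ _ h2, h3]
  -- the condition for k = n + 2
  have hvan : ∀ y, φ (ξ * (a ^ (n + 1)) y) = 0 := by
    intro y
    have e1 := LinearMap.congr_fun (h (n + 2) (by omega)) y
    have e2 : (a ^ (n + 2) * w ^ (n + 2) * a ^ (n + 2)) y =
        (a ^ (n + 2)) ((w ^ (n + 2)) ((a ^ (n + 2)) y)) := rfl
    rw [e2, hwa2, map_add] at e1
    have e3 : (a ^ (n + 2)) (∑ j ∈ range (n + 2), (-φ (ξ * (a ^ j) y)) • (w ^ j) 1) = 0 := by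
      have := sub_eq_zero.mpr e1
      rwa [add_sub_cancel_left] at this
    have e4 := hχker _ e3
    rw [Finset.sum_range_succ, map_add, map_smul, hχwn, map_sum] at e4
    have e5 : ∑ j ∈ range (n + 1), χ ((-φ (ξ * (a ^ j) y)) • (w ^ j) 1) = 0 := by
      apply Finset.sum_eq_zero
      intro j hj
      rw [map_smul, hχwj j (by have := Finset.mem_range.mp hj; omega), smul_zero]
    rw [e5, zero_add, smul_eq_mul, mul_one, neg_eq_zero] at e4
    exact e4
  -- z in the common kernel
  have hz : ∀ z, (∀ i, 1 ≤ i → i ≤ n + 1 → φ (t ^ i * z) = 0) → φ (ξ * z) = 0 := by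
    intro z hz
    have e1 : ∀ j, j ≤ n + 1 → (a ^ j) (t ^ (n + 1) * z) = t ^ (n + 1 - j) * z := by
      intro j
      induction j with
      | zero => intro _; simp
      | succ j ih =>
        intro hj
        have e1 : (a ^ (j + 1)) (t ^ (n + 1) * z) = a ((a ^ j) (t ^ (n + 1) * z)) := by
          rw [pow_succ']; rfl
        rw [e1, ih (by omega), ha_apply, hz (n + 1 - j) (by omega) (by omega), zero_smul, sub_zero]
        have e2 : n + 1 - j = (n + 1 - (j + 1)) + 1 := by omega
        rw [e2, pow_succ', mul_assoc, inv_mul_cancel_left₀ ht]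
    have e2 := e1 (n + 1) le_rfl
    rw [Nat.sub_self, pow_zero, one_mul] at e2
    rw [← e2]
    exact hvan _
  -- linear dependence
  let Lf : Fin (n + 1) → (L →ₗ[K] K) := fun i => φ ∘ₗ LinearMap.mulLeft K (t ^ ((i : ℕ) + 1))
  have hspan : φ ∘ₗ LinearMap.mulLeft K ξ ∈ Submodule.span K (Set.range Lf) := by
    apply mem_span_of_iInf_ker_le_ker
    intro z hz'
    rw [Submodule.mem_iInf] at hz'
    rw [LinearMap.mem_ker]
    apply hz z
    intro i hi1 hi2
    have := hz' ⟨i - 1, by omega⟩
    rw [LinearMap.mem_ker] at this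
    have e : i - 1 + 1 = i := by omega
    simpa [Lf, e] using this
  rw [Submodule.mem_span_range_iff_exists_fun] at hspan
  obtain ⟨c, hc⟩ := hspan
  have hξeq : ξ = ∑ i, c i • t ^ ((i : ℕ) + 1) := by
    by_contra hne
    have hne' : ξ - ∑ i, c i • t ^ ((i : ℕ) + 1) ≠ 0 := sub_ne_zero.mpr hne
    have e1 : ∀ z, φ ((ξ - ∑ i, c i • t ^ ((i : ℕ) + 1)) * z) = 0 := by
      intro z
      have := LinearMap.congr_fun hc z
      simp only [LinearMap.sum_apply, LinearMap.smul_apply, LinearMap.comp_apply,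
        LinearMap.mulLeft_apply, Lf] at this
      rw [sub_mul, map_sub, ← this, Finset.sum_mul, map_sum, sub_eq_zero]
      apply Finset.sum_congr rfl
      intro i _
      rw [smul_mul_assoc, map_smul]
    have e2 := e1 (ξ - ∑ i, c i • t ^ ((i : ℕ) + 1))⁻¹
    rw [mul_inv_cancel₀ hne', φ1] at e2
    exact one_ne_zero e2
  have k1 : φ ξ = 1 := by
    rw [hξ, map_sub, map_add, map_smul, φ1]; simp
  have k2 : χ ξ = 0 := by
    rw [hξ, map_sub, map_add, map_smul, hχ1, χσ]; simp
  have k3 : φ ξ = c (Fin.last n) := by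
    rw [hξeq, map_sum, Fin.sum_univ_castSucc]
    have : ∑ i : Fin n, φ (c (Fin.castSucc i) • t ^ (((Fin.castSucc i : Fin (n + 1)) : ℕ) + 1)) = 0 := by
      apply Finset.sum_eq_zero
      intro i _
      rw [map_smul, φt _ (by omega) (by simp), smul_zero]
    rw [this, zero_add, map_smul, Fin.val_last, φn]; simp
  have k4 : χ ξ = c (Fin.last n) := by
    rw [hξeq, map_sum, Fin.sum_univ_castSucc]
    have : ∑ i : Fin n, χ (c (Fin.castSucc i) • t ^ (((Fin.castSucc i : Fin (n + 1)) : ℕ) + 1)) = 0 := by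
      apply Finset.sum_eq_zero
      intro i _
      rw [map_smul, χt _ (by simp), smul_zero]
    rw [this, zero_add, map_smul, Fin.val_last, χn]; simp
  rw [k2, ← k3, k1] at k4
  exact zero_ne_one k4

end Pool.Agent.R767.UR
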