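import Pool.Agent.R767.UR1

/-!
# Unit-regularity of tails of twisted finite rank perturbations
-/

namespace Pool.Agent.R767.UR

open Finset Filter

variable {K L : Type*} [Field K] [Field L] [Algebra K L]

/-! ### endomorphisms of `K^m` -/

theorem matrix_ur {m : ℕ} (A : Matrix (Fin m) (Fin m) K) :
    ∃ G H : Matrix (Fin m) (Fin m) K, A * G * A = A ∧ G * H = 1 ∧ H * G = 1 := by
  obtain ⟨l, l', D, hA⟩ := Matrix.Pivot.exists_list_transvec_mul_diagonal_mul_list_transvec A
  obtain ⟨P, hP⟩ : ∃ P, P = (l.map Matrix.TransvectionStruct.toMatrix).prod := ⟨_, rfl⟩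
  obtain ⟨Q, hQ⟩ : ∃ Q, Q = (l'.map Matrix.TransvectionStruct.toMatrix).prod := ⟨_, rfl⟩
  obtain ⟨P', hP1, hP2⟩ : ∃ P', P * P' = 1 ∧ P' * P = 1 :=
    ⟨_, by rw [hP]; exact Matrix.TransvectionStruct.prod_mul_reverse_inv_prod l,
      by rw [hP]; exact Matrix.TransvectionStruct.reverse_inv_prod_mul_prod l⟩
  obtain ⟨Q', hQ1, hQ2⟩ : ∃ Q', Q * Q' = 1 ∧ Q' * Q = 1 :=
    ⟨_, by rw [hQ]; exact Matrix.TransvectionStruct.prod_mul_reverse_inv_prod l',
      by rw [hQ]; exact Matrix.TransvectionStruct.reverse_inv_prod_mul_prod l'⟩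
  rw [← hP, ← hQ] at hA
  classical
  let d : Fin m → K := fun i => if D i = 0 then 1 else (D i)⁻¹
  let d' : Fin m → K := fun i => if D i = 0 then 1 else D i
  have e1 : Matrix.diagonal D * Matrix.diagonal d * Matrix.diagonal D = Matrix.diagonal D := by
    rw [Matrix.diagonal_mul_diagonal, Matrix.diagonal_mul_diagonal]
    congr 1
    funext i
    by_cases h : D i = 0
    · simp [h]
    · simp [d, h]
  have e2 : Matrix.diagonal d * Matrix.diagonal d' = 1 := by
    rw [Matrix.diagonal_mul_diagonal, ← Matrix.diagonal_one]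
    congr 1
    funext i
    by_cases h : D i = 0
    · simp [d, d', h]
    · simp [d, d', h]
  have e3 : Matrix.diagonal d' * Matrix.diagonal d = 1 := by
    rw [Matrix.diagonal_mul_diagonal, ← Matrix.diagonal_one]
    congr 1
    funext i
    by_cases h : D i = 0
    · simp [d, d', h]
    · simp [d, d', h]
  refine ⟨Q' * Matrix.diagonal d * P', P * Matrix.diagonal d' * Q, ?_, ?_, ?_⟩
  · rw [hA]
    calc P * Matrix.diagonal D * Q * (Q' * Matrix.diagonal d * P') * (P * Matrix.diagonal D * Q)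
        = P * Matrix.diagonal D * (Q * Q') * Matrix.diagonal d * (P' * P) *
          Matrix.diagonal D * Q := by simp only [Matrix.mul_assoc]
      _ = P * (Matrix.diagonal D * Matrix.diagonal d * Matrix.diagonal D) * Q := by
          rw [hQ1, hP2]; simp only [Matrix.mul_assoc, Matrix.one_mul, Matrix.mul_one]
      _ = _ := by rw [e1]
  · calc Q' * Matrix.diagonal d * P' * (P * Matrix.diagonal d' * Q)
        = Q' * Matrix.diagonal d * (P' * P) * Matrix.diagonal d' * Q := by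
          simp only [Matrix.mul_assoc]
      _ = Q' * (Matrix.diagonal d * Matrix.diagonal d') * Q := by
          rw [hP2]; simp only [Matrix.mul_assoc, Matrix.one_mul]
      _ = 1 := by rw [e2, Matrix.mul_one, hQ2]
  · calc P * Matrix.diagonal d' * Q * (Q' * Matrix.diagonal d * P')
        = P * Matrix.diagonal d' * (Q * Q') * Matrix.diagonal d * P' := by
          simp only [Matrix.mul_assoc]
      _ = P * (Matrix.diagonal d' * Matrix.diagonal d) * P' := by
          rw [hQ1]; simp only [Matrix.mul_assoc, Matrix.one_mul]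
      _ = 1 := by rw [e3, Matrix.mul_one, hP1]

theorem end_ur {m : ℕ} (A : Module.End K (Fin m → K)) :
    ∃ G H : Module.End K (Fin m → K), A * G * A = A ∧ G * H = 1 ∧ H * G = 1 := by
  obtain ⟨G, H, h1, h2, h3⟩ := matrix_ur (LinearMap.toMatrixAlgEquiv' A)
  refine ⟨LinearMap.toMatrixAlgEquiv'.symm G, LinearMap.toMatrixAlgEquiv'.symm H, ?_, ?_, ?_⟩
  · apply LinearMap.toMatrixAlgEquiv'.injective
    rw [map_mul, map_mul, AlgEquiv.apply_symm_apply]; exact h1
  · apply LinearMap.toMatrixAlgEquiv'.injective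
    rw [map_mul, AlgEquiv.apply_symm_apply, AlgEquiv.apply_symm_apply, map_one]; exact h2
  · apply LinearMap.toMatrixAlgEquiv'.injective
    rw [map_mul, AlgEquiv.apply_symm_apply, AlgEquiv.apply_symm_apply, map_one]; exact h3

/-! ### dual systems -/

/-- radical of `U` with respect to `φ (x * y)` -/
def rad (φ : L →ₗ[K] K) (U : Submodule K L) : Submodule K L where
  carrier := {x | x ∈ U ∧ ∀ u ∈ U, φ (u * x) = 0}
  add_mem' := by
    rintro x y ⟨hx, hx'⟩ ⟨hy, hy'⟩
    exact ⟨U.add_mem hx hy, fun u hu => by rw [mul_add, map_add, hx' u hu, hy' u hu, add_zero]⟩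
  zero_mem' := ⟨U.zero_mem, fun u _ => by simp⟩
  smul_mem' := by
    rintro c x ⟨hx, hx'⟩
    exact ⟨U.smul_mem c hx, fun u hu => by rw [mul_smul_comm, map_smul, hx' u hu, smul_zero]⟩

theorem rad_le (φ : L →ₗ[K] K) (U : Submodule K L) : rad φ U ≤ U := fun _ hx => hx.1

theorem exists_nondeg (φ : L →ₗ[K] K) {y0 : L} (hy0 : φ y0 = 1) (X : Set L) (hX : X.Finite) :
    ∃ U : Submodule K L, FiniteDimensional K U ∧ X ⊆ U ∧ rad φ U = ⊥ := by
  classical
  let P : ℕ → Prop := fun k => ∃ U : Submodule K L, FiniteDimensional K U ∧ X ⊆ U ∧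
    Module.finrank K (rad φ U) = k
  have hP : ∃ k, P k := by
    refine ⟨_, Submodule.span K X, ?_, Submodule.subset_span, rfl⟩
    exact FiniteDimensional.span_of_finite K hX
  obtain ⟨U, hU, hXU, hk⟩ := Nat.find_spec hP
  refine ⟨U, hU, hXU, ?_⟩
  by_contra hne
  obtain ⟨u, hu, hu0⟩ := Submodule.exists_mem_ne_zero_of_ne_bot hne
  let x : L := u⁻¹ * y0
  have hux : φ (u * x) = 1 := by
    show φ (u * (u⁻¹ * y0)) = 1
    rw [mul_inv_cancel_left₀ hu0, hy0]
  let U' : Submodule K L := U ⊔ Submodule.span K {x}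
  have hU' : FiniteDimensional K U' := by
    have : FiniteDimensional K (Submodule.span K {x}) :=
      FiniteDimensional.span_of_finite K (Set.finite_singleton x)
    exact Submodule.finiteDimensional_sup _ _
  have hlt : rad φ U' < rad φ U := by
    refine lt_of_le_of_ne ?_ ?_
    · intro z hz
      obtain ⟨hz1, hz2⟩ := hz
      obtain ⟨v, hv, y, hy, rfl⟩ := Submodule.mem_sup.mp hz1
      obtain ⟨c, rfl⟩ := Submodule.mem_span_singleton.mp hy
      have h1 := hz2 u (Submodule.mem_sup_left hu.1)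
      have h2 : φ (u * v) = 0 := by rw [mul_comm]; exact hu.2 v hv
      rw [mul_add, map_add, h2, zero_add, mul_smul_comm, map_smul, hux, smul_eq_mul,
        mul_one] at h1
      rw [h1, zero_smul, add_zero] at hz2 ⊢
      exact ⟨hv, fun u' hu' => hz2 u' (Submodule.mem_sup_left hu')⟩
    · intro heq
      have h1 : u ∈ rad φ U' := by rw [heq]; exact hu
      have h2 := h1.2 x (Submodule.mem_sup_right (Submodule.mem_span_singleton_self x))
      rw [mul_comm, hux] at h2
      exact one_ne_zero h2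
  have hfin : FiniteDimensional K (rad φ U) := Submodule.finiteDimensional_of_le (rad_le φ U)
  have h3 := Submodule.finrank_lt_finrank_of_lt hlt
  rw [hk] at h3
  exact Nat.find_min hP h3 ⟨U', hU', hXU.trans (fun y hy => Submodule.mem_sup_left hy), rfl⟩

theorem exists_dual (φ : L →ₗ[K] K) {y0 : L} (hy0 : φ y0 = 1) (X : Set L) (hX : X.Finite) :
    ∃ (m : ℕ) (z w : Fin m → L), (∀ i j, φ (w i * z j) = if j = i then 1 else 0) ∧
      ∀ x ∈ X, (∃ c : Fin m → K, x = ∑ i, c i • z i) ∧ (∃ c : Fin m → K, x = ∑ i, c i • w i) := by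
  obtain ⟨U, hU, hXU, hrad⟩ := exists_nondeg φ hy0 X hX
  let B : LinearMap.BilinForm K U :=
    LinearMap.mk₂ K (fun x y : U => φ ((x : L) * (y : L)))
      (fun x y z => by simp only [Submodule.coe_add, add_mul, map_add])
      (fun c x y => by simp only [Submodule.coe_smul, smul_mul_assoc, map_smul])
      (fun x y z => by simp only [Submodule.coe_add, mul_add, map_add])
      (fun c x y => by simp only [Submodule.coe_smul, mul_smul_comm, map_smul])
  have hB : ∀ x y : U, B x y = φ ((x : L) * (y : L)) := fun x y => rfl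
  have hnd : B.Nondegenerate := by
    constructor
    · intro x hx
      have h1 : (x : L) ∈ rad φ U := by
        refine ⟨x.2, fun u hu => ?_⟩
        rw [mul_comm]
        exact hx ⟨u, hu⟩
      rw [hrad, Submodule.mem_bot] at h1
      exact Subtype.ext h1
    · intro x hx
      have h1 : (x : L) ∈ rad φ U := ⟨x.2, fun u hu => hx ⟨u, hu⟩⟩
      rw [hrad, Submodule.mem_bot] at h1
      exact Subtype.ext h1
  classical
  let b := Module.finBasis K U
  let b' := B.dualBasis hnd b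
  refine ⟨Module.finrank K U, fun i => (b i : L), fun i => (b' i : L), ?_, ?_⟩
  · intro i j
    rw [← hB]
    exact LinearMap.BilinForm.apply_dualBasis_left hnd b i j
  · intro x hx
    constructor
    · refine ⟨fun i => b.repr ⟨x, hXU hx⟩ i, ?_⟩
      have h1 : ((∑ i, b.repr ⟨x, hXU hx⟩ i • b i : U) : L) = x :=
        congrArg (Subtype.val) (b.sum_repr ⟨x, hXU hx⟩)
      rw [AddSubmonoidClass.coe_finsetSum] at h1
      exact h1.symm
    · refine ⟨fun i => b'.repr ⟨x, hXU hx⟩ i, ?_⟩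
      have h1 : ((∑ i, b'.repr ⟨x, hXU hx⟩ i • b' i : U) : L) = x :=
        congrArg (Subtype.val) (b'.sum_repr ⟨x, hXU hx⟩)
      rw [AddSubmonoidClass.coe_finsetSum] at h1
      exact h1.symm

/-! ### tails -/

/-- the tail of a sequence of operators is `ρ + ∑ r_j φ_n (s_j ·)` with constant data -/
def IsT (ψ : ℕ → (L →ₗ[K] K)) (T : ℕ → Module.End K L) : Prop :=
  ∃ (ρ : L) (ι : Type) (_ : Fintype ι) (r s : ι → L), ∀ᶠ n in atTop, ∀ y,
    T n y = ρ * y + ∑ j, ψ n (s j * y) • r j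

theorem IsT.const (ψ : ℕ → (L →ₗ[K] K)) (ρ : L) : IsT ψ (fun _ => LinearMap.mulLeft K ρ) :=
  ⟨ρ, Empty, inferInstance, Empty.elim, Empty.elim, Eventually.of_forall fun n y => by simp⟩

theorem IsT.add {ψ : ℕ → (L →ₗ[K] K)} {T T' : ℕ → Module.End K L} (h : IsT ψ T)
    (h' : IsT ψ T') : IsT ψ (T + T') := by
  obtain ⟨ρ, ι, _, r, s, h⟩ := h
  obtain ⟨ρ', ι', _, r', s', h'⟩ := h'
  refine ⟨ρ + ρ', ι ⊕ ι', inferInstance, Sum.elim r r', Sum.elim s s', ?_⟩
  filter_upwards [h, h'] with n hn hn' y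
  rw [Pi.add_apply, LinearMap.add_apply, hn, hn', Fintype.sum_sum_type]
  simp only [Sum.elim_inl, Sum.elim_inr]
  ring

theorem IsT.neg {ψ : ℕ → (L →ₗ[K] K)} {T : ℕ → Module.End K L} (h : IsT ψ T) :
    IsT ψ (-T) := by
  obtain ⟨ρ, ι, _, r, s, h⟩ := h
  refine ⟨-ρ, ι, inferInstance, fun j => - r j, s, ?_⟩
  filter_upwards [h] with n hn y
  rw [Pi.neg_apply, LinearMap.neg_apply, hn]
  simp only [smul_neg, Finset.sum_neg_distrib]
  ring

theorem IsT.mul {ψ : ℕ → (L →ₗ[K] K)} {ψi : L →ₗ[K] K} (hψ : ∀ y, ∀ᶠ n in atTop, ψ n y = ψi y)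
    {T T' : ℕ → Module.End K L} (h : IsT ψ T) (h' : IsT ψ T') : IsT ψ (T * T') := by
  obtain ⟨ρ, ι, _, r, s, h⟩ := h
  obtain ⟨ρ', ι', _, r', s', h'⟩ := h'
  refine ⟨ρ * ρ', ι' ⊕ ι ⊕ (ι × ι'), inferInstance,
    Sum.elim (fun k => ρ * r' k) (Sum.elim r (fun p => ψi (s p.1 * r' p.2) • r p.1)),
    Sum.elim s' (Sum.elim (fun j => s j * ρ') (fun p => s' p.2)), ?_⟩
  have h3 : ∀ᶠ n in atTop, ∀ p : ι × ι', ψ n (s p.1 * r' p.2) = ψi (s p.1 * r' p.2) :=
    eventually_all.mpr fun p => hψ _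
  filter_upwards [h, h', h3] with n hn hn' hn3 y
  rw [Pi.mul_apply, Module.End.mul_apply, hn, hn']
  rw [Fintype.sum_sum_type, Fintype.sum_sum_type]
  simp only [Sum.elim_inl, Sum.elim_inr]
  have e1 : ∀ j, ψ n (s j * (ρ' * y + ∑ k, ψ n (s' k * y) • r' k)) =
      ψ n (s j * ρ' * y) + ∑ k, ψ n (s' k * y) * ψi (s j * r' k) := by
    intro j
    rw [mul_add, map_add, Finset.mul_sum, map_sum, mul_assoc]
    congr 1
    apply Finset.sum_congr rfl
    intro k _
    rw [mul_smul_comm, map_smul, smul_eq_mul, hn3 (j, k)]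
  simp only [e1]
  simp only [add_smul, Finset.sum_add_distrib, Finset.sum_smul, mul_add, Finset.mul_sum]
  rw [Fintype.sum_prod_type]
  have e2 : ∀ j k, (ψ n (s' k * y) * ψi (s j * r' k)) • r j =
      ψ n (s' k * y) • ψi (s j * r' k) • r j := fun j k => by rw [smul_smul]
  simp only [e2, mul_smul_comm, mul_assoc]
  ring

/-! ### corner endomorphisms -/

/-- synthesis -/
noncomputable def Zm {m : ℕ} (z : Fin m → L) : (Fin m → K) →ₗ[K] L :=
  Fintype.linearCombination K z

/-- analysis -/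
noncomputable def Wm (φ : L →ₗ[K] K) {m : ℕ} (w : Fin m → L) : L →ₗ[K] (Fin m → K) :=
  LinearMap.pi fun j => φ ∘ₗ LinearMap.mulLeft K (w j)

theorem Zm_apply {m : ℕ} (z : Fin m → L) (c : Fin m → K) : Zm z c = ∑ i, c i • z i := by
  rw [Zm, Fintype.linearCombination_apply]

theorem Wm_apply (φ : L →ₗ[K] K) {m : ℕ} (w : Fin m → L) (y : L) (j : Fin m) :
    Wm φ w y j = φ (w j * y) := rfl

/-- the corner map -/
noncomputable def th (φ : L →ₗ[K] K) {m : ℕ} (z w : Fin m → L) (M : Module.End K (Fin m → K)) :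
    Module.End K L := Zm z ∘ₗ M ∘ₗ Wm φ w

/-- the unital extension of the corner map -/
noncomputable def dd (φ : L →ₗ[K] K) {m : ℕ} (z w : Fin m → L) (M : Module.End K (Fin m → K)) :
    Module.End K L := 1 - th φ z w 1 + th φ z w M

theorem th_add (φ : L →ₗ[K] K) {m : ℕ} (z w : Fin m → L) (M N : Module.End K (Fin m → K)) :
    th φ z w (M + N) = th φ z w M + th φ z w N := by
  unfold th
  rw [LinearMap.add_comp, LinearMap.comp_add]

theorem th_mul {φ : L →ₗ[K] K} {m : ℕ} {z w : Fin m → L}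
    (h : ∀ i j, φ (w i * z j) = if j = i then 1 else 0) (M N : Module.End K (Fin m → K)) :
    th φ z w M * th φ z w N = th φ z w (M * N) := by
  have h1 : Wm φ w ∘ₗ Zm z = LinearMap.id := by
    apply LinearMap.ext
    intro c
    funext i
    rw [LinearMap.comp_apply, Wm_apply, Zm_apply, Finset.mul_sum, map_sum]
    simp only [mul_smul_comm, map_smul, h, smul_eq_mul]
    simp
  show (Zm z ∘ₗ M ∘ₗ Wm φ w) ∘ₗ (Zm z ∘ₗ N ∘ₗ Wm φ w) = Zm z ∘ₗ (M ∘ₗ N) ∘ₗ Wm φ w
  calc (Zm z ∘ₗ M ∘ₗ Wm φ w) ∘ₗ (Zm z ∘ₗ N ∘ₗ Wm φ w)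
      = Zm z ∘ₗ M ∘ₗ (Wm φ w ∘ₗ Zm z) ∘ₗ N ∘ₗ Wm φ w := by simp only [LinearMap.comp_assoc]
    _ = _ := by rw [h1]; rfl

theorem dd_mul {φ : L →ₗ[K] K} {m : ℕ} {z w : Fin m → L}
    (h : ∀ i j, φ (w i * z j) = if j = i then 1 else 0) (M N : Module.End K (Fin m → K)) :
    dd φ z w M * dd φ z w N = dd φ z w (M * N) := by
  unfold dd
  simp only [mul_add, add_mul, mul_sub, sub_mul, one_mul, mul_one, th_mul h]
  abel

theorem th_mul_dd {φ : L →ₗ[K] K} {m : ℕ} {z w : Fin m → L}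
    (h : ∀ i j, φ (w i * z j) = if j = i then 1 else 0) (M N : Module.End K (Fin m → K)) :
    th φ z w M * dd φ z w N = th φ z w (M * N) := by
  unfold dd
  simp only [mul_add, mul_sub, mul_one, th_mul h]
  abel

theorem dd_one (φ : L →ₗ[K] K) {m : ℕ} (z w : Fin m → L) : dd φ z w 1 = 1 := by
  unfold dd; abel

theorem IsT.th (ψ : ℕ → (L →ₗ[K] K)) {m : ℕ} (z w : Fin m → L)
    (M : Module.End K (Fin m → K)) : IsT ψ (fun n => UR.th (ψ n) z w M) := by
  classical
  refine ⟨0, Fin m, inferInstance, fun j => Zm z (M (Pi.single j 1)), w,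
    Eventually.of_forall fun n y => ?_⟩
  rw [zero_mul, zero_add]
  show Zm z (M (Wm (ψ n) w y)) = _
  have h1 : Wm (ψ n) w y = ∑ j, ψ n (w j * y) • (Pi.single j (1 : K) : Fin m → K) := by
    funext i
    rw [Wm_apply, Finset.sum_apply]
    simp [Pi.single_apply]
  rw [h1, map_sum, map_sum]
  apply Finset.sum_congr rfl
  intro j _
  rw [map_smul, map_smul]

theorem IsT.dd (ψ : ℕ → (L →ₗ[K] K)) {m : ℕ} (z w : Fin m → L)
    (M : Module.End K (Fin m → K)) : IsT ψ (fun n => UR.dd (ψ n) z w M) := by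
  have h1 := ((IsT.const ψ 1).add (IsT.th ψ z w 1).neg).add (IsT.th ψ z w M)
  have h2 : (fun _ => LinearMap.mulLeft K (1 : L)) + (-fun n => UR.th (ψ n) z w 1) +
      (fun n => UR.th (ψ n) z w M) = (fun n => UR.dd (ψ n) z w M) := by
    funext n
    simp only [Pi.add_apply, Pi.neg_apply, UR.dd, LinearMap.mulLeft_one]
    rw [sub_eq_add_neg]
    rfl
  rwa [h2] at h1

/-- Tails are unit-regular with tails as witnesses. -/
theorem tail_ur {ψ : ℕ → (L →ₗ[K] K)} {ψi : L →ₗ[K] K} (hψ : ∀ y, ∀ᶠ n in atTop, ψ n y = ψi y)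
    (hψi : ψi 1 = 1) {T : ℕ → Module.End K L} (hT : IsT ψ T) :
    ∃ U V : ℕ → Module.End K L, IsT ψ U ∧ IsT ψ V ∧
      ∀ᶠ n in atTop, T n * U n * T n = T n ∧ U n * V n = 1 ∧ V n * U n = 1 := by
  classical
  obtain ⟨ρ, ι, _, r, s, hT⟩ := hT
  -- scaled ranks
  obtain ⟨r', hr'⟩ : ∃ r' : ι → L, r' = fun j => if ρ = 0 then r j else ρ⁻¹ * r j := ⟨_, rfl⟩
  obtain ⟨m, z, w, hzw, hX⟩ := exists_dual ψi hψi (Set.range r' ∪ Set.range s)
    ((Set.finite_range _).union (Set.finite_range _))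
  have h1 : ∀ j, ∃ c : Fin m → K, r' j = ∑ i, c i • z i := fun j => (hX _ (Or.inl ⟨j, rfl⟩)).1
  have h2 : ∀ j, ∃ c : Fin m → K, s j = ∑ i, c i • w i := fun j => (hX _ (Or.inr ⟨j, rfl⟩)).2
  choose α hα using h1
  choose β hβ using h2
  -- the matrix
  let M : Module.End K (Fin m → K) :=
    ∑ j, (Fintype.linearCombination K (β j)).smulRight (α j)
  have hM : ∀ c, M c = ∑ j, (∑ k, c k * β j k) • α j := by
    intro c
    simp only [M, LinearMap.sum_apply, LinearMap.smulRight_apply,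
      Fintype.linearCombination_apply, smul_eq_mul]
  have hth : ∀ n y, ∑ j, ψ n (s j * y) • r' j = th (ψ n) z w M y := by
    intro n y
    show _ = Zm z (M (Wm (ψ n) w y))
    rw [hM, map_sum]
    apply Finset.sum_congr rfl
    intro j _
    rw [map_smul, Zm_apply, ← hα, hβ j, Finset.sum_mul, map_sum]
    congr 1
    apply Finset.sum_congr rfl
    intro k _
    rw [smul_mul_assoc, map_smul, Wm_apply, smul_eq_mul, mul_comm]
  have hdual : ∀ᶠ n in atTop, ∀ p : Fin m × Fin m,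
      ψ n (w p.1 * z p.2) = if p.2 = p.1 then 1 else 0 := by
    refine eventually_all.mpr fun p => ?_
    filter_upwards [hψ (w p.1 * z p.2)] with n hn
    rw [hn, hzw]
  by_cases hρ : ρ = 0
  · obtain ⟨G, H, g1, g2, g3⟩ := end_ur M
    refine ⟨fun n => dd (ψ n) z w G, fun n => dd (ψ n) z w H, IsT.dd ψ z w G, IsT.dd ψ z w H, ?_⟩
    filter_upwards [hT, hdual] with n hn hd
    have hd' : ∀ i j, ψ n (w i * z j) = if j = i then 1 else 0 := fun i j => hd (i, j)
    have hTn : T n = th (ψ n) z w M := by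
      apply LinearMap.ext
      intro y
      rw [hn, ← hth, hρ, zero_mul, zero_add]
      simp [hr', hρ]
    refine ⟨?_, ?_, ?_⟩
    · rw [hTn, th_mul_dd hd', th_mul hd', g1]
    · rw [dd_mul hd', g2, dd_one]
    · rw [dd_mul hd', g3, dd_one]
  · obtain ⟨G, H, g1, g2, g3⟩ := end_ur (1 + M)
    refine ⟨(fun n => dd (ψ n) z w G) * (fun _ => LinearMap.mulLeft K ρ⁻¹),
      (fun _ => LinearMap.mulLeft K ρ) * (fun n => dd (ψ n) z w H),
      (IsT.dd ψ z w G).mul hψ (IsT.const ψ _), (IsT.const ψ _).mul hψ (IsT.dd ψ z w H), ?_⟩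
    filter_upwards [hT, hdual] with n hn hd
    have hd' : ∀ i j, ψ n (w i * z j) = if j = i then 1 else 0 := fun i j => hd (i, j)
    have hTn : T n = LinearMap.mulLeft K ρ * dd (ψ n) z w (1 + M) := by
      apply LinearMap.ext
      intro y
      have e1 : dd (ψ n) z w (1 + M) = 1 + th (ψ n) z w M := by
        unfold dd; rw [th_add]; abel
      rw [hn, e1, Module.End.mul_apply, LinearMap.add_apply, ← hth, LinearMap.mulLeft_apply,
        Module.End.one_apply, mul_add, Finset.mul_sum]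
      congr 1
      apply Finset.sum_congr rfl
      intro j _
      rw [mul_smul_comm, hr']
      simp only [if_neg hρ]
      rw [mul_inv_cancel_left₀ hρ]
    have i1 : LinearMap.mulLeft K ρ⁻¹ * LinearMap.mulLeft K ρ = (1 : Module.End K L) := by
      apply LinearMap.ext
      intro y
      simp [inv_mul_cancel_left₀ hρ]
    have i2 : LinearMap.mulLeft K ρ * LinearMap.mulLeft K ρ⁻¹ = (1 : Module.End K L) := by
      apply LinearMap.ext
      intro y
      simp [mul_inv_cancel_left₀ hρ]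
    simp only [Pi.mul_apply]
    refine ⟨?_, ?_, ?_⟩
    · rw [hTn]
      calc LinearMap.mulLeft K ρ * dd (ψ n) z w (1 + M) *
            (dd (ψ n) z w G * LinearMap.mulLeft K ρ⁻¹) *
            (LinearMap.mulLeft K ρ * dd (ψ n) z w (1 + M))
          = LinearMap.mulLeft K ρ * (dd (ψ n) z w (1 + M) * dd (ψ n) z w G *
            (LinearMap.mulLeft K ρ⁻¹ * LinearMap.mulLeft K ρ) * dd (ψ n) z w (1 + M)) := by
            simp only [mul_assoc]
        _ = _ := by rw [i1, mul_one, dd_mul hd', dd_mul hd', g1]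
    · calc dd (ψ n) z w G * LinearMap.mulLeft K ρ⁻¹ * (LinearMap.mulLeft K ρ * dd (ψ n) z w H)
          = dd (ψ n) z w G * (LinearMap.mulLeft K ρ⁻¹ * LinearMap.mulLeft K ρ) *
            dd (ψ n) z w H := by simp only [mul_assoc]
        _ = 1 := by rw [i1, mul_one, dd_mul hd', g2, dd_one]
    · calc LinearMap.mulLeft K ρ * dd (ψ n) z w H * (dd (ψ n) z w G * LinearMap.mulLeft K ρ⁻¹)
          = LinearMap.mulLeft K ρ * (dd (ψ n) z w H * dd (ψ n) z w G) *
            LinearMap.mulLeft K ρ⁻¹ := by simp only [mul_assoc]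
        _ = 1 := by rw [dd_mul hd', g3, dd_one, mul_one, i2]

end Pool.Agent.R767.UR
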