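import Pool.Agent.R767.UR2

/-!
# The ring and the element without common inner inverse
-/

namespace Pool.Agent.R767.UR

open Finset Filter

variable {K L : Type*} [Field K] [Field L] [Algebra K L]

theorem IsT.congr {ψ : ℕ → (L →ₗ[K] K)} {T T' : ℕ → Module.End K L} (h : IsT ψ T)
    (he : ∀ᶠ n in atTop, T' n = T n) : IsT ψ T' := by
  obtain ⟨ρ, ι, _, r, s, h⟩ := h
  refine ⟨ρ, ι, inferInstance, r, s, ?_⟩
  filter_upwards [h, he] with n hn he y
  rw [he, hn]

theorem IsT.coord {ψ : ℕ → (L →ₗ[K] K)} {T : ℕ → Module.End K L} (h : IsT ψ T) :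
    ∀ᶠ n in atTop, IsT (fun _ => ψ n) (fun _ => T n) := by
  obtain ⟨ρ, ι, _, r, s, h⟩ := h
  filter_upwards [h] with n hn
  exact ⟨ρ, ι, inferInstance, r, s, Eventually.of_forall fun _ => hn⟩

theorem IsT.zero (ψ : ℕ → (L →ₗ[K] K)) : IsT ψ 0 := by
  have := IsT.const ψ (0 : L)
  refine this.congr (Eventually.of_forall fun n => ?_)
  apply LinearMap.ext
  intro y
  simp

theorem IsT.one (ψ : ℕ → (L →ₗ[K] K)) : IsT ψ 1 := by
  have := IsT.const ψ (1 : L)
  refine this.congr (Eventually.of_forall fun n => ?_)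
  apply LinearMap.ext
  intro y
  simp

/-- The ring of sequences of operators, in coordinate `n` of the form
`ρ + (finite rank given by φ n)`, with eventually constant data. -/
def RR (φ : ℕ → (L →ₗ[K] K)) (φi : L →ₗ[K] K) (hφ : ∀ y, ∀ᶠ n in atTop, φ n y = φi y) :
    Subring (ℕ → Module.End K L) where
  carrier := {T | IsT φ T ∧ ∀ n, IsT (fun _ => φ n) (fun _ => T n)}
  mul_mem' := by
    rintro T T' ⟨h1, h2⟩ ⟨h1', h2'⟩
    exact ⟨h1.mul hφ h1', fun n =>
      (h2 n).mul (ψi := φ n) (fun y => Eventually.of_forall fun _ => rfl) (h2' n)⟩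
  one_mem' := ⟨IsT.one φ, fun n => IsT.one _⟩
  add_mem' := by
    rintro T T' ⟨h1, h2⟩ ⟨h1', h2'⟩
    exact ⟨h1.add h1', fun n => (h2 n).add (h2' n)⟩
  zero_mem' := ⟨IsT.zero φ, fun n => IsT.zero _⟩
  neg_mem' := by
    rintro T ⟨h1, h2⟩
    exact ⟨h1.neg, fun n => (h2 n).neg⟩

theorem RR_unit_regular (φ : ℕ → (L →ₗ[K] K)) (φi : L →ₗ[K] K)
    (hφ : ∀ y, ∀ᶠ n in atTop, φ n y = φi y) (hφ1 : ∀ n, φ n 1 = 1) (hφi : φi 1 = 1)
    (T : RR φ φi hφ) : ∃ u : (RR φ φi hφ)ˣ, T * u * T = T := by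
  classical
  obtain ⟨T, hT1, hT2⟩ := T
  obtain ⟨U, V, hU, hV, hUV⟩ := tail_ur hφ hφi hT1
  let good : ℕ → Module.End K L × Module.End K L → Prop := fun n p =>
    (T n * p.1 * T n = T n ∧ p.1 * p.2 = 1 ∧ p.2 * p.1 = 1) ∧
      IsT (fun _ => φ n) (fun _ => p.1) ∧ IsT (fun _ => φ n) (fun _ => p.2)
  have hgood : ∀ᶠ n in atTop, good n (U n, V n) := by
    filter_upwards [hUV, hU.coord, hV.coord] with n h1 h2 h3
    exact ⟨h1, h2, h3⟩
  have hex : ∀ n, ∃ p, good n p := by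
    intro n
    obtain ⟨U', V', hU', hV', hUV'⟩ := tail_ur (ψ := fun _ => φ n) (ψi := φ n)
      (fun y => Eventually.of_forall fun _ => rfl) (hφ1 n) (hT2 n)
    obtain ⟨m, h1, h2, h3⟩ := (hUV'.and (hU'.coord.and hV'.coord)).exists
    exact ⟨(U' m, V' m), h1, h2, h3⟩
  choose p hp using hex
  let q : ℕ → Module.End K L × Module.End K L := fun n =>
    if good n (U n, V n) then (U n, V n) else p n
  have hq : ∀ n, good n (q n) := by
    intro n
    by_cases h : good n (U n, V n)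
    · have : q n = (U n, V n) := if_pos h
      rw [this]; exact h
    · have : q n = p n := if_neg h
      rw [this]; exact hp n
  have hqe : ∀ᶠ n in atTop, q n = (U n, V n) := by
    filter_upwards [hgood] with n hn
    exact if_pos hn
  let u : RR φ φi hφ := ⟨fun n => (q n).1, hU.congr (by
    filter_upwards [hqe] with n hn
    rw [hn]), fun n => (hq n).2.1⟩
  let v : RR φ φi hφ := ⟨fun n => (q n).2, hV.congr (by
    filter_upwards [hqe] with n hn
    rw [hn]), fun n => (hq n).2.2⟩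
  refine ⟨⟨u, v, ?_, ?_⟩, ?_⟩
  · apply Subtype.ext
    funext n
    exact (hq n).1.2.1
  · apply Subtype.ext
    funext n
    exact (hq n).1.2.2
  · apply Subtype.ext
    funext n
    exact (hq n).1.1

theorem aop_isT (ψ : ℕ → (L →ₗ[K] K)) (t : L) : IsT ψ (fun n => aop t (ψ n)) := by
  refine ⟨t⁻¹, Unit, inferInstance, fun _ => -t⁻¹, fun _ => 1, Eventually.of_forall fun n y => ?_⟩
  rw [aop_apply, Finset.univ_unique, Finset.sum_singleton, one_mul, mul_sub, mul_smul_comm,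
    mul_one, smul_neg, sub_eq_add_neg]

/-- Main construction, over any extension `L/K` with `t` such that the powers of `t` are linearly
independent. -/
theorem main_construction (t : L) (ht : t ≠ 0) (hinf : ¬ FiniteDimensional K L)
    (g : L →ₗ[K] (ℕ →₀ K)) (hg : ∀ i, g (t ^ i) = Finsupp.single i 1) :
    ∃ S : Subring (ℕ → Module.End K L), (∀ a : S, ∃ u : Sˣ, a * u * a = a) ∧
      ∃ a : S, ∀ w : S, ∃ k : ℕ, 1 ≤ k ∧ a ^ k * w ^ k * a ^ k ≠ a ^ k := by
  let c : ℕ → (L →ₗ[K] K) := fun i => Finsupp.lapply i ∘ₗ g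
  have hc : ∀ i y, c i y = g y i := fun i y => rfl
  have hct : ∀ i j, c i (t ^ j) = if j = i then 1 else 0 := by
    intro i j
    rw [hc, hg, Finsupp.single_apply]
  have hct1 : ∀ i, c i 1 = if 0 = i then 1 else 0 := by
    intro i
    have := hct i 0
    rwa [pow_zero] at this
  have hfin : ∀ y, ∀ᶠ n in atTop, c (n + 1) y = 0 := by
    intro y
    have h1 : ∃ N, ∀ n ≥ N, g y n = 0 := by
      refine ⟨(g y).support.sup id + 1, fun n hn => ?_⟩
      by_contra hne
      have h2 : n ∈ (g y).support := Finsupp.mem_support_iff.mpr hne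
      have h3 : n ≤ (g y).support.sup id := Finset.le_sup (f := id) h2
      omega
    obtain ⟨N, hN⟩ := h1
    filter_upwards [eventually_ge_atTop N] with n hn
    exact hN (n + 1) (by omega)
  let φ : ℕ → (L →ₗ[K] K) := fun n => c 0 + c (n + 1)
  have hφ : ∀ y, ∀ᶠ n in atTop, φ n y = c 0 y := by
    intro y
    filter_upwards [hfin y] with n hn
    show c 0 y + c (n + 1) y = c 0 y
    rw [hn, add_zero]
  have hφ1 : ∀ n, φ n 1 = 1 := by
    intro n
    show c 0 1 + c (n + 1) 1 = 1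
    rw [hct1, hct1]; simp
  have hci : c 0 1 = 1 := by rw [hct1]; simp
  refine ⟨RR φ (c 0) hφ, RR_unit_regular φ (c 0) hφ hφ1 hci,
    ⟨fun n => aop t (φ n), aop_isT φ t, fun n => aop_isT (fun _ => φ n) t⟩, ?_⟩
  rintro ⟨w, hw1, hw2⟩
  by_contra hcon
  push Not at hcon
  obtain ⟨ρ, ι, _, r, s, hw⟩ := hw1
  have h1 : ∀ᶠ n in atTop, ∀ j, c (n + 1) (r j) = 0 := eventually_all.mpr fun j => hfin _
  have h2 := hfin ((∑ j, c 0 (r j) • s j) * t⁻¹)
  obtain ⟨n, hn, hn1, hn2⟩ := (hw.and (h1.and h2)).exists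
  refine obstruction ht hinf n (φ n) (c 0) (c (n + 1)) (hφ1 n) ?_ ?_ hci ?_ ?_ ρ r s (w n) hn hn1
    hn2 ?_
  · intro i hi1 hi2
    show c 0 (t ^ i) + c (n + 1) (t ^ i) = 0
    rw [hct, hct, if_neg (by omega), if_neg (by omega), add_zero]
  · show c 0 (t ^ (n + 1)) + c (n + 1) (t ^ (n + 1)) = 1
    rw [hct, hct, if_neg (by omega), if_pos rfl, zero_add]
  · intro i hi
    rw [hct, if_neg (by omega)]
  · rw [hct, if_pos rfl]
  · intro k hk
    have h3 := congrArg Subtype.val (hcon k hk)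
    have h4 := congrFun h3 n
    exact h4

end Pool.Agent.R767.UR
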